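import Pool.Agent.H58.DG.Hand

/-!
# Basic facts on configurations

`dg c B q v = deg (cls B c q) v` by definition.  `ag_dg`: colours other than `a`, `b` have the same degrees.
`cf_mem`, `cf_clo`: `x, y ∈ Cm` and `Cm` is closed under `kmp`, hence under the edges of colour `a` and of colour `b` in
`A.erase e`.
`cf_root`: `kempe_xy`.  `cf_other`: `kempe_other`.
`cf_swap`: (`swap_st`, `swap_dg`) exchange of two colours `al`, `ga` different from `a`, `b` on the component of `w` in
`two (A.erase e) c al ga`; the result is a configuration with the same `kmp`.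
`miss_ne`: a vertex of degree `deg A v + 1 ≤ k d` has a missing colour, in the state on `A.erase e`
(sum of `dg c B q v` over `q` is `deg B v < k d`).
`miss_two`: if `v` is an end of `e` and all missing colours at `v` are simple (`dg + 1 = d`), then for every colour `a` there
is a missing colour other than `a`: the total deficiency `k d - deg (A.erase e) v` is at least `2`.
`cf_symm`: exchange the two ends.
-/

set_option autoImplicit false

open Finset
open scoped Classical

namespace Pool.Agent.H58.DG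

open Pool.Agent.H77.Df

variable {V E : Type} [Fintype V] [Fintype E] {G : MG V E} {k d : ℕ} {A : Finset E} {e e' : E} {c c' : E → Fin k}
  {x y x' y' : V} {a b : Fin k}

theorem mem_cm {v : V} : v ∈ Cm G A e c a b x ↔ G.Reach (kmp A e c a b) x v := by
  unfold Cm
  simp

theorem miss_iff {B : Finset E} {v : V} {q : Fin k} : q ∈ G.miss d c B v ↔ G.dg c B q v < d := by
  exact count_mem_miss

theorem reach_symm {F : Finset E} {u v : V} (h : G.Reach F u v) : G.Reach F v u := by
  unfold MG.Reach at *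
  induction h with
  | refl => exact Relation.ReflTransGen.refl
  | tail _ hbc ih =>
    obtain ⟨g, hg, hj⟩ := hbc
    exact Relation.ReflTransGen.head ⟨g, hg, count_joins_symm hj⟩ ih

theorem cf_symm (h : Cf G d A e c x y a b) : Cf G d A e c y x b a := by
  exact ⟨⟨h.st.not, h.st.mem, count_joins_symm h.st.jn, h.st.val⟩, h.hb, h.ha⟩

theorem kmp_comm : kmp A e c a b = kmp A e c b a := by
  unfold kmp
  simp only [or_comm]

/-- the components of the two ends are the same -/
theorem cm_comm (h : Cf G d A e c x y a b) : Cm G A e c b a y = Cm G A e c a b x := by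
  ext v
  rw [mem_cm, mem_cm, kmp_comm (a := b) (b := a)]
  have hxy : G.Reach (kmp A e c a b) x y :=
    Relation.ReflTransGen.single ⟨e, by unfold kmp; exact Finset.mem_insert_self _ _, h.st.jn⟩
  constructor
  · intro h1
    exact Relation.ReflTransGen.trans hxy h1
  · intro h1
    exact Relation.ReflTransGen.trans (reach_symm hxy) h1

private theorem ag_cls_aux (h : Ag A e c e' c' a b) {q : Fin k} (hqa : q ≠ a) (hqb : q ≠ b) :
    (A.erase e').filter (fun g => c' g = q) = (A.erase e).filter (fun g => c g = q) := by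
  ext g
  rw [Finset.mem_filter, Finset.mem_filter]
  exact h q hqa hqb g

theorem ag_dg (h : Ag A e c e' c' a b) {q : Fin k} (hqa : q ≠ a) (hqb : q ≠ b) (v : V) :
    G.dg c' (A.erase e') q v = G.dg c (A.erase e) q v := by
  unfold MG.dg
  have h1 := ag_cls_aux h hqa hqb
  rw [h1]

theorem ag_cls (h : Ag A e c e' c' a b) {q : Fin k} (hqa : q ≠ a) (hqb : q ≠ b) :
    cls (A.erase e') c' q = cls (A.erase e) c q := by
  exact ag_cls_aux h hqa hqb

theorem ag_miss (h : Ag A e c e' c' a b) {q : Fin k} (hqa : q ≠ a) (hqb : q ≠ b) (v : V) :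
    q ∈ G.miss d c' (A.erase e') v ↔ q ∈ G.miss d c (A.erase e) v := by
  rw [miss_iff, miss_iff, ag_dg h hqa hqb]

theorem ag_trans {e'' : E} {c'' : E → Fin k} (h : Ag A e c e' c' a b) (h' : Ag A e' c' e'' c'' a b) :
    Ag A e c e'' c'' a b := by
  intro q hqa hqb g
  exact (h' q hqa hqb g).trans (h q hqa hqb g)

theorem cf_x (h : Cf G d A e c x y a b) : x ∈ Cm G A e c a b x := by
  exact mem_cm.2 Relation.ReflTransGen.refl

theorem cf_y (h : Cf G d A e c x y a b) : y ∈ Cm G A e c a b x := by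
  exact mem_cm.2 (Relation.ReflTransGen.single
    ⟨e, by unfold kmp; exact Finset.mem_insert_self _ _, h.st.jn⟩)

theorem cf_clo : Clo G (kmp A e c a b) (Cm G A e c a b x) := by
  intro g hg
  rw [mem_cm, mem_cm]
  constructor
  · intro h1
    exact Relation.ReflTransGen.tail h1 ⟨g, hg, Or.inl ⟨rfl, rfl⟩⟩
  · intro h1
    exact Relation.ReflTransGen.tail h1 ⟨g, hg, Or.inr ⟨rfl, rfl⟩⟩

theorem cf_clo_a : Clo G (cls (A.erase e) c a) (Cm G A e c a b x) := by
  intro g hg
  refine cf_clo g ?_
  unfold cls at hg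
  unfold kmp
  rw [Finset.mem_filter] at hg
  exact Finset.mem_insert_of_mem (Finset.mem_filter.2 ⟨hg.1, Or.inl hg.2⟩)

theorem cf_clo_b : Clo G (cls (A.erase e) c b) (Cm G A e c a b x) := by
  intro g hg
  refine cf_clo g ?_
  unfold cls at hg
  unfold kmp
  rw [Finset.mem_filter] at hg
  exact Finset.mem_insert_of_mem (Finset.mem_filter.2 ⟨hg.1, Or.inr hg.2⟩)

theorem cf_root (h : Cf G d A e c x y a b) : a ≠ b ∧
    G.dg c (A.erase e) a x + 1 = d ∧ G.dg c (A.erase e) b x = d ∧
      G.dg c (A.erase e) b y + 1 = d ∧ G.dg c (A.erase e) a y = d := by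
  exact ⟨(kempe h.st h.ha h.hb).1, kempe_xy h.st h.ha h.hb⟩

theorem cf_other (h : Cf G d A e c x y a b) {v : V} (hx : v ≠ x) (hy : v ≠ y) (hv : v ∈ Cm G A e c a b x) :
    G.dg c (A.erase e) a v = d ∧ G.dg c (A.erase e) b v = d := by
  exact kempe_other h.st h.ha h.hb hx hy (mem_cm.1 hv)

theorem cf_deg (h : Cf G d A e c x y a b) {v : V} (hv : v ∈ Cm G A e c a b x) :
    G.deg (kmp A e c a b) v = 2 * d := by
  exact (kempe h.st h.ha h.hb).2 v (mem_cm.1 hv)

theorem miss_ne (h : G.St d A e c x y) (v : V) (hdeg : G.deg A v + 1 ≤ k * d) :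
    ∃ q, q ∈ G.miss d c (A.erase e) v := by
  by_contra hcon
  have h1 : ∀ q, G.dg c (A.erase e) q v = d := by
    intro q
    have h2 := h.val q v
    have h3 : ¬ G.dg c (A.erase e) q v < d := fun h4 => hcon ⟨q, miss_iff.2 h4⟩
    omega
  have h5 := count_deg_sum (G := G) (B := A.erase e) c v
  rw [Finset.sum_congr rfl (fun q _ => h1 q), Finset.sum_const, Finset.card_univ, Fintype.card_fin,
    smul_eq_mul] at h5
  have h6 : G.deg (A.erase e) v ≤ G.deg A v := by
    unfold MG.deg
    exact Finset.card_le_card (Finset.filter_subset_filter _ (Finset.erase_subset _ _))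
  omega

theorem miss_two (h : G.St d A e c x y) (hdeg : G.deg A x + 1 ≤ k * d)
    (hs : ∀ q ∈ G.miss d c (A.erase e) x, G.dg c (A.erase e) q x + 1 = d) (a : Fin k) :
    ∃ q, q ≠ a ∧ q ∈ G.miss d c (A.erase e) x := by
  have h1 := miss_card (fun q v => h.val q v) hs
  have h2 := count_deg_erase_of h.mem (v := x) ((count_joins_inc h.jn).2 (Or.inl rfl))
  have h3 : 1 < (G.miss d c (A.erase e) x).card := by omega
  obtain ⟨q, hq, hne⟩ := Finset.exists_mem_ne h3 a
  exact ⟨q, hne, hq⟩

/-- Kempe exchange of `al`, `ga` on the component of `w` -/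
theorem cf_swap (h : Cf G d A e c x y a b) {al ga : Fin k} (hne : al ≠ ga) (h1 : al ≠ a) (h2 : al ≠ b) (h3 : ga ≠ a)
    (h4 : ga ≠ b) (w : V) :
    ∃ c', Cf G d A e c' x y a b ∧ kmp A e c' a b = kmp A e c a b ∧ Ag A e c e c' al ga ∧
      (∀ v, G.Reach (two (A.erase e) c al ga) w v →
        G.dg c' (A.erase e) al v = G.dg c (A.erase e) ga v ∧ G.dg c' (A.erase e) ga v = G.dg c (A.erase e) al v) ∧
      (∀ v, ¬ G.Reach (two (A.erase e) c al ga) w v → ∀ q, G.dg c' (A.erase e) q v = G.dg c (A.erase e) q v) := by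
  set C : Set V := {v | G.Reach (two (A.erase e) c al ga) w v} with hCdef
  have hC : ∀ g ∈ A.erase e, c g = al ∨ c g = ga → (G.s g ∈ C ↔ G.t g ∈ C) := by
    intro g hg hcg
    have hg2 : g ∈ two (A.erase e) c al ga := by
      unfold two
      exact Finset.mem_filter.2 ⟨hg, hcg⟩
    constructor
    · intro h5
      exact Relation.ReflTransGen.tail h5 ⟨g, hg2, Or.inl ⟨rfl, rfl⟩⟩
    · intro h5
      exact Relation.ReflTransGen.tail h5 ⟨g, hg2, Or.inr ⟨rfl, rfl⟩⟩
  have hsw : ∀ (g : E) (q : Fin k), q ≠ al → q ≠ ga → (swp G c C al ga g = q ↔ c g = q) := by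
    intro g q hq1 hq2
    unfold swp
    split_ifs with h5 h6 h7
    · rw [h6]
      exact ⟨fun h8 => absurd h8.symm hq2, fun h8 => absurd h8.symm hq1⟩
    · rw [h7]
      exact ⟨fun h8 => absurd h8.symm hq1, fun h8 => absurd h8.symm hq2⟩
    · exact Iff.rfl
    · exact Iff.rfl
  refine ⟨swp G c C al ga, ⟨swap_st h.st hne hC, ?_, ?_⟩, ?_, ?_, ?_, ?_⟩
  · rw [miss_iff, (swap_dg hne hC x).2.2 a h1.symm h3.symm]
    exact miss_iff.1 h.ha
  · rw [miss_iff, (swap_dg hne hC y).2.2 b h2.symm h4.symm]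
    exact miss_iff.1 h.hb
  · unfold kmp
    congr 1
    apply Finset.filter_congr
    intro g _
    rw [hsw g a h1.symm h3.symm, hsw g b h2.symm h4.symm]
  · intro q hq1 hq2 g
    rw [hsw g q hq1 hq2]
  · intro v hv
    exact (swap_dg hne hC v).1 hv
  · intro v hv q
    exact (swap_dg hne hC v).2.1 hv q

end Pool.Agent.H58.DG
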