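import Pool.Agent.H58.DG.Five

/-!
# All missing colours are closed

`Bd` is the hypothesis that no set containing the ends of the root with at least `7` vertices is elementary:
`bd_of_count` shows it from `7 s + 2 > k`, where `deg A v + s ≤ k d`: if all missing colours in `X` are simple and distinct, then the
numbers of missing colours add up: `∑ v ∈ X, |miss v| ≤ k`; `|miss v| ≥ s` for all `v`, and `≥ s + 1` for the two ends.
`closed`: let `P` be a bound for the size of all components: `|Cm| ≤ P`, and `h` a configuration with `|Cm| = P`; `3 ≤ d` odd.  Then `P`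
is `3` or `5`, and every colour `ga` missing at a vertex `v` of `T = Cm` is closed on `T`.  Proof.  `P` is odd (`cm_odd`), `P ≤ 6`, and
`P ≠ 1`.  If `ga = a` or `b` use `cf_clo_a`, `cf_clo_b`.  Otherwise let `g ∈ kmp` be any edge at `v`, joining `v` and `w`; move the root to it, with
`a` missing at `v` and `b` missing at `w`: `c'`, component `T`.  `Cf G d A g c' v w ga b` is a configuration too.  Let `J` be its component.
By `miss_two` at `w` there is `al ≠ b` missing at `w` (`al ≠ a`, `al ≠ ga` by `cf_root` / `elem`).  By `union` and `elem_simple`, `T ∪ J` is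
elementary, so `|T ∪ J| ≤ 6`.  As `|T|`, `|J|`, `|T ∩ J|` are odd (`cm_odd`, `inter_odd`), `|T ∪ J|` is odd, so `|T ∪ J| ≤ 5`; `v, w ∈ T ∩ J`,
so `|T ∩ J| ≥ 3`.  Case `|T| = 3`: `T ∩ J = T`, `|J| ≤ 3`, so `J = T`, and `J` is closed under `ga`.  Case `|T| = 5`: `J ⊆ T`; if `|J| = 5` then
`J = T` is closed under `ga`.  So suppose that `|J| = 3` for all choices of `g` and `c'`.  Let `I` be the set of the vertices reachable from
`v` by edges of colour `ga`; `I ⊆ J`; it is closed under `ga`, `ga` is missing in `I` only at `v` and is simple there, so `d |I|` is odd; `v` has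
`d - 1 ≥ 2` edges of colour `ga`, so `|I| ≥ 2`, `|I| = 3`, `I = J`.  So `J = I` does not depend on `g`, `c'`: all edges of `kmp` at `v` go to `I`,
and `I` is closed under the colour `b` (of every `c'`).  Then `five` gives a colouring `c''` for which `I` is not closed under `b`: a contradiction,
as its `J` is closed under `b`.
-/

set_option autoImplicit false

open Finset
open scoped Classical

namespace Pool.Agent.H58.DG

open Pool.Agent.H77.Df

variable {V E : Type} [Fintype V] [Fintype E] {G : MG V E} {k d : ℕ} {A : Finset E} {e : E} {c : E → Fin k}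
  {x y : V} {a b : Fin k}

/-- an elementary set containing the ends of the root is small -/
theorem bd_of_count {s : ℕ} (hs : k ≤ 7 * s + 1) (hdeg : ∀ v, G.deg A v + s ≤ k * d) (h : G.St d A e c x y)
    {X : Finset V} (hx : x ∈ X) (hy : y ∈ X)
    (h1 : ∀ v ∈ X, ∀ q ∈ G.miss d c (A.erase e) v, G.dg c (A.erase e) q v + 1 = d)
    (h2 : ∀ v ∈ X, ∀ w ∈ X, v ≠ w → ∀ q ∈ G.miss d c (A.erase e) v, q ∉ G.miss d c (A.erase e) w) : X.card ≤ 6 := by
  have hxy : x ≠ y := joins_ne h.jn
  have h3 : ∀ v ∈ X, s + (if v = x then 1 else 0) + (if v = y then 1 else 0) ≤ (G.miss d c (A.erase e) v).card := by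
    intro v hv
    have h4 := miss_card h.val (h1 v hv)
    have h5 := hdeg v
    by_cases hi : G.inc e v
    · have h6 := count_deg_erase_of h.mem hi
      have h7 : (if v = x then 1 else 0) + (if v = y then 1 else 0) = 1 := by
        rcases (joins_inc h.jn).1 hi with h8 | h8
        · rw [if_pos h8, if_neg (fun h9 => hxy (h8.symm.trans h9))]
        · rw [if_neg (fun h9 => hxy (h9.symm.trans h8)), if_pos h8]
      omega
    · have h6 := count_deg_erase_of_not (A := A) hi
      have h7 : v ≠ x := fun h9 => hi ((joins_inc h.jn).2 (Or.inl h9))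
      have h8 : v ≠ y := fun h9 => hi ((joins_inc h.jn).2 (Or.inr h9))
      rw [if_neg h7, if_neg h8]
      omega
  have h4 : ∑ v ∈ X, (s + (if v = x then 1 else 0) + (if v = y then 1 else 0)) = X.card * s + 1 + 1 := by
    rw [Finset.sum_add_distrib, Finset.sum_add_distrib, Finset.sum_const, smul_eq_mul,
      Finset.sum_ite_eq', Finset.sum_ite_eq', if_pos hx, if_pos hy]
  have h5 : ∑ v ∈ X, (G.miss d c (A.erase e) v).card = (X.biUnion (fun v => G.miss d c (A.erase e) v)).card := by
    rw [Finset.card_biUnion]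
    intro v hv w hw hvw
    rw [Function.onFun, Finset.disjoint_left]
    intro q hq
    exact h2 v hv w hw hvw q hq
  have h6 : (X.biUnion (fun v => G.miss d c (A.erase e) v)).card ≤ k := by
    refine (Finset.card_le_univ _).trans ?_
    rw [Fintype.card_fin]
  have h7 := Finset.sum_le_sum h3
  rw [h4, h5] at h7
  by_contra hcon
  have h8 : 7 * s ≤ X.card * s := Nat.mul_le_mul_right s (by omega)
  omega

private theorem closed_odd (hd : Odd d) {n : ℕ} (h : Odd (d * n)) : Odd n := (Nat.odd_mul.1 h).2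

/-- the component of the pair `ga, b` -/
private theorem closed_J {s : ℕ} (hs1 : 1 ≤ s) (hs : k ≤ 7 * s + 1) (hdeg : ∀ v, G.deg A v + s ≤ k * d) (hd : Odd d)
    {P : ℕ} (hP : ∀ (e : E) (c : E → Fin k) (x y : V) (a b : Fin k), Cf G d A e c x y a b → (Cm G A e c a b x).card ≤ P)
    (hP5 : P = 3 ∨ P = 5) (h : Cf G d A e c x y a b) (hc : (Cm G A e c a b x).card = P) {ga : Fin k} (h1 : ga ≠ a)
    (hga : ga ∈ G.miss d c (A.erase e) x) :
    Cf G d A e c x y ga b ∧ Cm G A e c ga b x ⊆ Cm G A e c a b x ∧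
      ((Cm G A e c ga b x).card = 3 ∨ (Cm G A e c ga b x).card = P) := by
  have hdeg1 : ∀ v, G.deg A v + 1 ≤ k * d := fun v => by have := hdeg v; omega
  have h' : Cf G d A e c x y ga b := ⟨h.st, hga, h.hb⟩
  have hxy : x ≠ y := joins_ne h.st.jn
  obtain ⟨al, hal1, hal2⟩ := miss_two (cf_symm h).st (hdeg1 y)
    (fun q hq => (cf_root (⟨h.st, h.ha, hq⟩ : Cf G d A e c x y a q)).2.2.2.1) b
  have hala : al ≠ a := by
    rintro rfl
    have h3 := (cf_root h).2.2.2.2
    have h4 := miss_iff.1 hal2
    omega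
  have halga : al ≠ ga := fun h3 => (cf_root (⟨h.st, hga, hal2⟩ : Cf G d A e c x y ga al)).1 h3.symm
  set T := Cm G A e c a b x with hT
  set J := Cm G A e c ga b x with hJ
  have hel : ∀ v ∈ T ∪ J, ∀ w ∈ T ∪ J, v ≠ w → ∀ q ∈ G.miss d c (A.erase e) v, q ∉ G.miss d c (A.erase e) w :=
    fun v hv w hw hvw q hq hq' => union hdeg1 h h' h1.symm hala halga hal1 (Or.inr hal2) hv hw hvw hq hq'
  have hsi : ∀ v ∈ T ∪ J, ∀ q ∈ G.miss d c (A.erase e) v, G.dg c (A.erase e) q v + 1 = d := by
    intro v hv q hq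
    rcases Finset.mem_union.1 hv with hv | hv
    · exact elem_simple h hv hq
    · exact elem_simple h' hv hq
  have h6 : (T ∪ J).card ≤ 6 := bd_of_count hs hdeg h.st (Finset.mem_union_left J (cf_x h)) (Finset.mem_union_left J (cf_y h)) hsi hel
  have o1 : Odd T.card := closed_odd hd (cm_odd h)
  have o2 : Odd J.card := closed_odd hd (cm_odd h')
  have o3 : Odd (T ∩ J).card := closed_odd hd (inter_odd h h')
  have h7 := Finset.card_union_add_card_inter T J
  have h8 : 2 ≤ (T ∩ J).card := by
    rw [← Finset.card_pair hxy]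
    refine Finset.card_le_card fun v hv => ?_
    rw [Finset.mem_inter]
    rcases Finset.mem_insert.1 hv with rfl | hv
    · exact ⟨cf_x h, cf_x h'⟩
    · rw [Finset.mem_singleton.1 hv]
      exact ⟨cf_y h, cf_y h'⟩
  have h9 := hP _ _ _ _ _ _ h'
  have h10 : J.card ≤ P := h9
  have h11 : (T ∩ J).card ≤ J.card := Finset.card_le_card Finset.inter_subset_right
  obtain ⟨n1, hn1⟩ := o1
  obtain ⟨n2, hn2⟩ := o2
  obtain ⟨n3, hn3⟩ := o3
  have h12 : (T ∪ J).card ≤ T.card := by
    rcases hP5 with hP3 | hP5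
    · omega
    · omega
  have h13 : T ∪ J = T := (Finset.eq_of_subset_of_card_le Finset.subset_union_left h12).symm
  refine ⟨h', ?_, ?_⟩
  · rw [← h13]
    exact Finset.subset_union_right
  · rcases hP5 with hP3 | hP5
    · omega
    · omega

theorem closed {s : ℕ} (hs1 : 1 ≤ s) (hs : k ≤ 7 * s + 1) (hdeg : ∀ v, G.deg A v + s ≤ k * d) (hd : Odd d) (hd3 : 3 ≤ d)
    {P : ℕ} (hP : ∀ (e : E) (c : E → Fin k) (x y : V) (a b : Fin k), Cf G d A e c x y a b → (Cm G A e c a b x).card ≤ P)
    (h : Cf G d A e c x y a b) (hc : (Cm G A e c a b x).card = P) :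
    (P = 3 ∨ P = 5) ∧ ∀ v ∈ Cm G A e c a b x, ∀ q ∈ G.miss d c (A.erase e) v,
      Clo G (cls (A.erase e) c q) (Cm G A e c a b x) := by
  have hdeg1 : ∀ v, G.deg A v + 1 ≤ k * d := fun v => by have := hdeg v; omega
  have hxy : x ≠ y := joins_ne h.st.jn
  have hP5 : P = 3 ∨ P = 5 := by
    have h1 : Odd (Cm G A e c a b x).card := closed_odd hd (cm_odd h)
    have h2 := bd_of_count hs hdeg h.st (cf_x h) (cf_y h) (fun v hv q hq => elem_simple h hv hq)
      (fun v hv w hw hvw q hq hq' => elem hdeg1 h hv hw hvw hq hq')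
    have h3 : 2 ≤ (Cm G A e c a b x).card := by
      rw [← Finset.card_pair hxy]
      refine Finset.card_le_card fun v hv => ?_
      rcases Finset.mem_insert.1 hv with rfl | hv
      · exact cf_x h
      · rw [Finset.mem_singleton.1 hv]
        exact cf_y h
    obtain ⟨n, hn⟩ := h1
    omega
  refine ⟨hP5, ?_⟩
  intro v hv q hq
  by_cases hqa : q = a
  · rw [hqa]
    exact cf_clo_a
  by_cases hqb : q = b
  · rw [hqb]
    exact cf_clo_b
  by_contra hcon
  set T := Cm G A e c a b x with hT
  set I : Finset V := Finset.univ.filter (fun u => G.Reach (cls (A.erase e) c q) v u) with hI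
  -- every configuration with root at `v`
  have key : ∀ (g : E) (c0 : E → Fin k) (w : V), Cf G d A g c0 v w a b → Cm G A g c0 a b v = T →
      Ag A e c g c0 a b → w ∈ I ∧ Clo G (cls (A.erase g) c0 b) I ∧ P = 5 ∧ I.card = 3 := by
    intro g c0 w h0 hT0 hag
    have hq0 : q ∈ G.miss d c0 (A.erase g) v := (ag_miss hag hqa hqb v).2 hq
    obtain ⟨h0', hsub, hcard⟩ := closed_J hs1 hs hdeg hd hP hP5 h0 (by rw [hT0]; exact hc) hqa hq0
    rw [hT0] at hsub
    set J := Cm G A g c0 q b v with hJ
    have hclq : Clo G (cls (A.erase e) c q) J := by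
      rw [← ag_cls hag hqa hqb]
      exact cf_clo_a
    have hJP : J.card ≠ P := by
      intro hJP
      apply hcon
      have h1 : J = T := Finset.eq_of_subset_of_card_le hsub (by rw [hJP, hc])
      rw [← h1]
      exact hclq
    have hJ3 : J.card = 3 := hcard.resolve_right hJP
    have hP' : P = 5 := by
      rcases hP5 with h1 | h1
      · exact absurd (hJ3.trans h1.symm) hJP
      · exact h1
    have hIJ : I ⊆ J := by
      intro u hu
      have hu' : G.Reach (cls (A.erase e) c q) v u := (Finset.mem_filter.1 hu).2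
      clear hu
      induction hu' with
      | refl => exact cf_x h0'
      | tail _ h2 ih =>
        obtain ⟨f, hf, hj⟩ := h2
        have h3 := hclq f hf
        rcases hj with ⟨h4, h5⟩ | ⟨h4, h5⟩
        · rw [← h5]
          rw [← h4] at ih
          exact h3.1 ih
        · rw [← h4]
          rw [← h5] at ih
          exact h3.2 ih
    have hvI : v ∈ I := by
      rw [hI, Finset.mem_filter]
      exact ⟨Finset.mem_univ _, Relation.ReflTransGen.refl⟩
    have hclI : Clo G (cls (A.erase e) c q) I := by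
      intro f hf
      rw [hI, Finset.mem_filter, Finset.mem_filter]
      constructor
      · rintro ⟨_, h2⟩
        exact ⟨Finset.mem_univ _, h2.tail ⟨f, hf, Or.inl ⟨rfl, rfl⟩⟩⟩
      · rintro ⟨_, h2⟩
        exact ⟨Finset.mem_univ _, h2.tail ⟨f, hf, Or.inr ⟨rfl, rfl⟩⟩⟩
    have hdv : G.dg c (A.erase e) q v + 1 = d := elem_simple h hv hq
    have hdu : ∀ u ∈ I, u ≠ v → G.dg c (A.erase e) q u = d := by
      intro u hu huv
      by_contra hne
      have h2 : q ∈ G.miss d c (A.erase e) u :=
        miss_iff.2 (lt_of_le_of_ne (h.st.val q u) hne)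
      exact elem hdeg1 h hv (hsub (hIJ hu)) huv.symm hq h2
    have hsum := hand_closed hclI
    have hsum2 : ∑ u ∈ I, G.deg (cls (A.erase e) c q) u + 1 = d * I.card := by
      rw [← Finset.add_sum_erase I _ hvI]
      have h2 : ∑ u ∈ I.erase v, G.deg (cls (A.erase e) c q) u = ∑ u ∈ I.erase v, d :=
        Finset.sum_congr rfl fun u hu => hdu u (Finset.mem_of_mem_erase hu) (Finset.ne_of_mem_erase hu)
      rw [h2, Finset.sum_const, smul_eq_mul, Finset.card_erase_of_mem hvI]
      have h3 : G.deg (cls (A.erase e) c q) v + 1 = d := hdv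
      have h4 : 1 ≤ I.card := Finset.card_pos.2 ⟨v, hvI⟩
      obtain ⟨n, hn⟩ := Nat.exists_eq_add_of_le h4
      rw [hn]
      have h5 : 1 + n - 1 = n := by omega
      rw [h5]
      nlinarith
    have hIodd : Odd I.card := by
      refine closed_odd hd ?_
      rw [← hsum2, hsum]
      exact ⟨_, rfl⟩
    have hI2 : 2 ≤ I.card := by
      have h2 : 0 < G.deg (cls (A.erase e) c q) v := by
        have h3 : G.deg (cls (A.erase e) c q) v + 1 = d := hdv
        omega
      obtain ⟨f, hf⟩ := Finset.card_pos.1 h2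
      obtain ⟨hf1, hf2⟩ := Finset.mem_filter.1 hf
      obtain ⟨u, hu⟩ := count_inc_joins hf2
      have huv : v ≠ u := joins_ne hu
      rw [← Finset.card_pair huv]
      refine Finset.card_le_card fun t ht => ?_
      rcases Finset.mem_insert.1 ht with rfl | ht
      · exact hvI
      · rw [Finset.mem_singleton.1 ht, hI, Finset.mem_filter]
        exact ⟨Finset.mem_univ _, Relation.ReflTransGen.single ⟨f, hf1, hu⟩⟩
    have hI3 : 3 ≤ I.card := by
      obtain ⟨n, hn⟩ := hIodd
      omega
    have hIJeq : I = J := Finset.eq_of_subset_of_card_le hIJ (by rw [hJ3]; exact hI3)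
    rw [hIJeq]
    exact ⟨cf_y h0', cf_clo_b, hP', hJ3⟩
  -- roots at `v`
  have hmv : ∀ g ∈ kmp A e c a b, ∀ w, G.joins g v w →
      ∃ c0, Cf G d A g c0 v w a b ∧ Cm G A g c0 a b v = T ∧ Ag A e c g c0 a b ∧ kmp A g c0 a b = kmp A e c a b := by
    intro g hg w hj
    obtain ⟨c0, h1, h2, h3, h4, _⟩ := move h hg hj hv
    exact ⟨c0, h1, h4, h2, h3⟩
  have hdv := cf_deg h hv
  obtain ⟨g0, hg0⟩ := Finset.card_pos.1 (show 0 < G.deg (kmp A e c a b) v by rw [hdv]; omega)
  obtain ⟨hg1, hg2⟩ := Finset.mem_filter.1 hg0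
  obtain ⟨w0, hw0⟩ := count_inc_joins hg2
  obtain ⟨c0, h0, hT0, hag0, hk0⟩ := hmv g0 hg1 w0 hw0
  obtain ⟨hwI, hclb, hP', hI3⟩ := key g0 c0 w0 h0 hT0 hag0
  have hvI : v ∈ I := by
    rw [hI, Finset.mem_filter]
    exact ⟨Finset.mem_univ _, Relation.ReflTransGen.refl⟩
  have hIT : I ⊆ Cm G A g0 c0 a b v := by
    rw [hT0]
    have hq0 : q ∈ G.miss d c0 (A.erase g0) v := (ag_miss hag0 hqa hqb v).2 hq
    obtain ⟨h0', hsub, _⟩ := closed_J hs1 hs hdeg hd hP hP5 h0 (by rw [hT0]; exact hc) hqa hq0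
    rw [hT0] at hsub
    have hclq : Clo G (cls (A.erase e) c q) (Cm G A g0 c0 q b v) := by
      rw [← ag_cls hag0 hqa hqb]
      exact cf_clo_a
    intro u hu
    apply hsub
    have hu' : G.Reach (cls (A.erase e) c q) v u := (Finset.mem_filter.1 hu).2
    clear hu
    induction hu' with
    | refl => exact cf_x h0'
    | tail _ h2 ih =>
      obtain ⟨f, hf, hj⟩ := h2
      have h3 := hclq f hf
      rcases hj with ⟨h4, h5⟩ | ⟨h4, h5⟩
      · rw [← h5]
        rw [← h4] at ih
        exact h3.1 ih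
      · rw [← h4]
        rw [← h5] at ih
        exact h3.2 ih
  obtain ⟨c2, h2, hk2, hag2, hncl⟩ := five hd hd3 h0 (by rw [hT0, hc, hP']) hIT hI3 hvI hwI (by
    intro g hg w hj
    rw [hk0] at hg
    obtain ⟨c1, h1, hT1, hag1, _⟩ := hmv g hg w hj
    exact (key g c1 w h1 hT1 hag1).1) hclb
  apply hncl
  have hT2 : Cm G A g0 c2 a b v = T := by
    rw [← hT0]
    unfold Cm
    rw [hk2]
  exact (key g0 c2 w0 h2 hT2 (ag_trans hag0 hag2)).2.1

end Pool.Agent.H58.DG
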