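import Pool.Agent.H58.DG.Union

/-!
# Vertex sets of connected `2 d`-regular multigraphs

`Con G F X`: the edges of `F` connect `X` (every proper nonempty part `Y` of `X` is joined to `X \ Y` by an edge of `F`).
`inn G F X`: edges of `F` with both ends in `X`.  `Core G d F X`: `|X|` is odd and `X` is the vertex set of a connected
`2 d`-regular multigraph with edges in `F`.  `core_cm`: the component `T` of a configuration is a `Core`.
`bd_of_core`: an elementary `Core` which contains the ends of the root has at most `6` vertices if `k ≤ ∑ v ∈ X, (k d - deg v) + 1` for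
every `Core` with at least `7` vertices.
-/

set_option autoImplicit false

open Finset
open scoped Classical

namespace Pool.Agent.H58.DG

open Pool.Agent.H77.Df

variable {V E : Type}

/-- the edges of `F` connect `X` -/
def Con (G : MG V E) (F : Finset E) (X : Finset V) : Prop :=
  ∀ Y ⊆ X, Y.Nonempty → Y ≠ X → ∃ i ∈ Y, ∃ j ∈ X, j ∉ Y ∧ ∃ g ∈ F, G.joins g i j

/-- the edges of `F` inside `X` -/
noncomputable def inn (G : MG V E) (F : Finset E) (X : Finset V) : Finset E :=
  F.filter (fun g => G.s g ∈ X ∧ G.t g ∈ X)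

/-- odd order, vertex set of a connected `2 d`-regular multigraph with edges in `F` -/
def Core (G : MG V E) (d : ℕ) (F : Finset E) (X : Finset V) : Prop :=
  Odd X.card ∧ ∃ K ⊆ F, (∀ v ∈ X, G.deg K v = 2 * d) ∧ Clo G K X ∧ Con G K X

theorem mem_inn {G : MG V E} {F : Finset E} {X : Finset V} {g : E} :
    g ∈ inn G F X ↔ g ∈ F ∧ G.s g ∈ X ∧ G.t g ∈ X := by
  unfold inn
  rw [Finset.mem_filter]

theorem inn_clo {G : MG V E} {F : Finset E} {X : Finset V} : Clo G (inn G F X) X := by
  intro g hg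
  have h2 := (mem_inn.1 hg).2
  exact ⟨fun _ => h2.2, fun _ => h2.1⟩

theorem inn_hand {G : MG V E} {F : Finset E} {X : Finset V} : ∑ v ∈ X, G.deg (inn G F X) v = 2 * (inn G F X).card := by
  rw [hand_closed inn_clo]
  congr 2
  ext g
  simp only [Finset.mem_filter, and_iff_left_iff_imp]
  intro h
  exact (mem_inn.1 h).2.1

theorem inn_num {G : MG V E} {F : Finset E} {X : Finset V} {v : V} (hv : v ∈ X) :
    G.deg (inn G F X) v = ∑ u ∈ X, num G F v u := by
  rw [num_sum inn_clo hv]
  refine Finset.sum_congr rfl fun u hu => ?_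
  unfold num
  congr 1
  ext g
  rw [Finset.mem_filter, Finset.mem_filter, mem_inn]
  constructor
  · rintro ⟨h4, h5⟩
    exact ⟨h4.1, h5⟩
  · rintro ⟨h4, h5⟩
    refine ⟨⟨h4, ?_⟩, h5⟩
    rcases h5 with ⟨h6, h7⟩ | ⟨h6, h7⟩
    · rw [h6, h7]
      exact ⟨hv, hu⟩
    · rw [h6, h7]
      exact ⟨hu, hv⟩

theorem core_mono {G : MG V E} {d : ℕ} {F F' : Finset E} {X : Finset V} (h : F ⊆ F') (hc : Core G d F X) : Core G d F' X := by
  obtain ⟨h1, K, h2, h3⟩ := hc
  exact ⟨h1, K, h2.trans h, h3⟩

variable [Fintype V] [Fintype E] {G : MG V E} {k d : ℕ} {A : Finset E} {e : E} {c : E → Fin k}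
  {x y : V} {a a' b : Fin k}

theorem con_cm : Con G (kmp A e c a b) (Cm G A e c a b x) := by
  intro Y hY hn hne
  by_contra hcon
  apply hne
  refine Finset.Subset.antisymm hY fun v hv => ?_
  obtain ⟨u, hu⟩ := hn
  have h1 := mem_cm.1 (hY hu)
  have h2 : G.Reach (kmp A e c a b) u v := Relation.ReflTransGen.trans (reach_symm h1) (mem_cm.1 hv)
  clear hv
  induction h2 with
  | refl => exact hu
  | tail h3 h4 ih =>
    rename_i p q
    by_contra h5
    obtain ⟨g, hg, hj⟩ := h4
    apply hcon
    exact ⟨p, ih, q, mem_cm.2 (Relation.ReflTransGen.tail (mem_cm.1 (hY ih)) ⟨g, hg, hj⟩), h5, g, hg, hj⟩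

omit [Fintype V] [Fintype E] in
theorem kmp_sub (h : Cf G d A e c x y a b) : kmp A e c a b ⊆ A := by
  intro g hg
  unfold kmp at hg
  rcases Finset.mem_insert.1 hg with rfl | hg
  · exact h.st.mem
  · exact Finset.mem_of_mem_erase (Finset.mem_filter.1 hg).1

theorem core_cm (h : Cf G d A e c x y a b) : Core G d A (Cm G A e c a b x) :=
  ⟨(Nat.odd_mul.1 (cm_odd h)).2, kmp A e c a b, kmp_sub h, fun _ hv => cf_deg h hv, cf_clo, con_cm⟩

/-- an elementary core which contains the ends of the root is small -/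
theorem bd_of_core (hdeg : ∀ v, G.deg A v + 1 ≤ k * d)
    (hC : ∀ X : Finset V, 7 ≤ X.card → Core G d A X → k ≤ (∑ v ∈ X, (k * d - G.deg A v)) + 1)
    (h : G.St d A e c x y) {X : Finset V} (hX : Core G d A X) (hx : x ∈ X) (hy : y ∈ X)
    (h1 : ∀ v ∈ X, ∀ q ∈ G.miss d c (A.erase e) v, G.dg c (A.erase e) q v + 1 = d)
    (h2 : ∀ v ∈ X, ∀ w ∈ X, v ≠ w → ∀ q ∈ G.miss d c (A.erase e) v, q ∉ G.miss d c (A.erase e) w) : X.card ≤ 6 := by
  by_contra hcon
  have h0 := hC X (by omega) hX
  have hxy : x ≠ y := joins_ne h.jn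
  have h3 : ∀ v ∈ X, (k * d - G.deg A v) + (if v = x then 1 else 0) + (if v = y then 1 else 0) ≤
      (G.miss d c (A.erase e) v).card := by
    intro v hv
    have h4 := miss_card h.val (h1 v hv)
    by_cases hi : G.inc e v
    · have h6 := count_deg_erase_of h.mem hi
      have h7 : (if v = x then 1 else 0) + (if v = y then 1 else 0) = 1 := by
        rcases (joins_inc h.jn).1 hi with h8 | h8
        · rw [if_pos h8, if_neg (fun h9 => hxy (h8.symm.trans h9))]
        · rw [if_neg (fun h9 => hxy (h9.symm.trans h8)), if_pos h8]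
      have h5 := hdeg v
      omega
    · have h6 := count_deg_erase_of_not (A := A) hi
      have h7 : v ≠ x := fun h9 => hi ((joins_inc h.jn).2 (Or.inl h9))
      have h8 : v ≠ y := fun h9 => hi ((joins_inc h.jn).2 (Or.inr h9))
      rw [if_neg h7, if_neg h8]
      omega
  have h4 : ∑ v ∈ X, ((k * d - G.deg A v) + (if v = x then 1 else 0) + (if v = y then 1 else 0)) =
      (∑ v ∈ X, (k * d - G.deg A v)) + 1 + 1 := by
    rw [Finset.sum_add_distrib, Finset.sum_add_distrib, Finset.sum_ite_eq', Finset.sum_ite_eq', if_pos hx, if_pos hy]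
  have h5 : ∑ v ∈ X, (G.miss d c (A.erase e) v).card = (X.biUnion (fun v => G.miss d c (A.erase e) v)).card := by
    rw [Finset.card_biUnion]
    intro v hv w hw hvw
    rw [Function.onFun, Finset.disjoint_left]
    intro q hq
    exact h2 v hv w hw hvw q hq
  have h6 : (X.biUnion (fun v => G.miss d c (A.erase e) v)).card ≤ k := by
    refine (Finset.card_le_univ _).trans ?_
    rw [Fintype.card_fin]
  have h7 := Finset.sum_le_sum h3
  rw [h4, h5] at h7
  omega

end Pool.Agent.H58.DG
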