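import Pool.Agent.H58.DG.Five
import Pool.Agent.H58.DG.Reg

/-!
# All missing colours are closed (version with cores)

`closedr`: let `P` be a bound for the size of all components: `|Cm| ≤ P`, and `h` a configuration with `T = Cm`, `|T| = P`; `3 ≤ d` odd.  Then `P`
is `3` or `5` (`bd_of_core`), and every colour `q` missing at a vertex `v` of `T` is closed on `T`.  Proof.  If `q = a` or `b` use
`cf_clo_a`, `cf_clo_b`.  Otherwise suppose that `T` is not closed under `q`.  Let `g ∈ kmp` be any edge at `v`, joining `v` and `w`; move the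
root to it, with `a` missing at `v` and `b` missing at `w`: `c'`, component `T`.  Let `J` be the component of the colours `q`, `b` (`q` is missing at
`v`), `C = T ∩ J`.  It contains `v`, `w`, has odd order (`inter_odd`), is closed under the colour `b` of `c'`, and `C ≠ T` (otherwise `T ⊆ J`,
`|J| ≤ P`, `J = T` is closed under `q`).  So `|C| = 3`, `P = 5` (`key`).  The numbers of edges of colour `b` in `C` and in `T \ C` are determined
(`cset`), and counting the edges of `kmp` in `T` shows that `C` does not depend on `g`, `c'` (`cuniq`).  So all edges of `kmp` at `v` go to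
`C`, and `five` gives a colouring for which `C` is not closed under `b`: a contradiction.
-/

set_option autoImplicit false

open Finset
open scoped Classical

namespace Pool.Agent.H58.DG

open Pool.Agent.H77.Df

/-- two sets of three vertices with the numbers of edges of `cset` are equal -/
private theorem cuniq {V : Type} {d : ℕ} (N : V → V → ℕ) (hs : ∀ u w, N u w = N w u) (h0 : ∀ u, N u u = 0) {T : Finset V}
    (hT : T.card = 5) (hsum : ∀ u ∈ T, ∑ w ∈ T, N u w = 2 * d) {x : V} {I J : Finset V} (hI : I ⊆ T) (hJ : J ⊆ T)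
    (hI3 : I.card = 3) (hJ3 : J.card = 3) (hxI : x ∈ I) (hxJ : x ∈ J)
    (i1 : ∀ u ∈ I, u ≠ x → d + 1 ≤ 2 * N x u)
    (i2 : ∀ u ∈ I, ∀ w ∈ I, u ≠ x → w ≠ x → u ≠ w → d ≤ 2 * N u w + 1)
    (i3 : ∀ s ∈ T, ∀ t ∈ T, s ∉ I → t ∉ I → s ≠ t → d ≤ N s t)
    (j1 : ∀ u ∈ J, u ≠ x → d + 1 ≤ 2 * N x u)
    (j2 : ∀ u ∈ J, ∀ w ∈ J, u ≠ x → w ≠ x → u ≠ w → d ≤ 2 * N u w + 1)
    (j3 : ∀ s ∈ T, ∀ t ∈ T, s ∉ J → t ∉ J → s ≠ t → d ≤ N s t) : I = J := by
  by_contra hne
  have hnIJ : ¬ I ⊆ J := fun h => hne (Finset.eq_of_subset_of_card_le h (by omega))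
  have hnJI : ¬ J ⊆ I := fun h => hne (Finset.eq_of_subset_of_card_le h (by omega)).symm
  obtain ⟨w1, hw1I, hw1J⟩ := Finset.not_subset.1 hnIJ
  obtain ⟨w2, hw2J, hw2I⟩ := Finset.not_subset.1 hnJI
  have hw1x : w1 ≠ x := fun h => hw1J (h ▸ hxJ)
  have hw2x : w2 ≠ x := fun h => hw2I (h ▸ hxI)
  have hw12 : w1 ≠ w2 := fun h => hw2I (h ▸ hw1I)
  obtain ⟨p, hp⟩ : ∃ p, (I.erase x).erase w1 = {p} := by
    rw [← Finset.card_eq_one, Finset.card_erase_of_mem (Finset.mem_erase.2 ⟨hw1x, hw1I⟩), Finset.card_erase_of_mem hxI, hI3]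
  obtain ⟨p', hp'⟩ : ∃ p', (J.erase x).erase w2 = {p'} := by
    rw [← Finset.card_eq_one, Finset.card_erase_of_mem (Finset.mem_erase.2 ⟨hw2x, hw2J⟩), Finset.card_erase_of_mem hxJ, hJ3]
  have hpm : p ∈ (I.erase x).erase w1 := by
    rw [hp]
    exact Finset.mem_singleton_self p
  have hpm' : p' ∈ (J.erase x).erase w2 := by
    rw [hp']
    exact Finset.mem_singleton_self p'
  have hpw1 : p ≠ w1 := (Finset.mem_erase.1 hpm).1
  have hpx : p ≠ x := (Finset.mem_erase.1 (Finset.mem_erase.1 hpm).2).1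
  have hpI : p ∈ I := (Finset.mem_erase.1 (Finset.mem_erase.1 hpm).2).2
  have hpw2' : p' ≠ w2 := (Finset.mem_erase.1 hpm').1
  have hpx' : p' ≠ x := (Finset.mem_erase.1 (Finset.mem_erase.1 hpm').2).1
  have hpJ' : p' ∈ J := (Finset.mem_erase.1 (Finset.mem_erase.1 hpm').2).2
  have hpw2 : p ≠ w2 := fun h => hw2I (h ▸ hpI)
  have hxT := hI hxI
  by_cases hpJ : p ∈ J
  · -- `T = {x, p, w1, w2, t}`
    have hsub : ({x, p, w1, w2} : Finset V) ⊆ T := by
      intro v hv
      simp only [Finset.mem_insert, Finset.mem_singleton] at hv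
      rcases hv with rfl | rfl | rfl | rfl
      · exact hxT
      · exact hI hpI
      · exact hI hw1I
      · exact hJ hw2J
    have hS4 : ({x, p, w1, w2} : Finset V).card = 4 := by
      rw [Finset.card_insert_of_notMem, Finset.card_insert_of_notMem, Finset.card_pair hw12]
      · simp only [Finset.mem_insert, Finset.mem_singleton, not_or]
        exact ⟨hpw1, hpw2⟩
      · simp only [Finset.mem_insert, Finset.mem_singleton, not_or]
        exact ⟨hpx.symm, hw1x.symm, hw2x.symm⟩
    obtain ⟨t, ht⟩ : ∃ t, T \ {x, p, w1, w2} = {t} := by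
      rw [← Finset.card_eq_one, Finset.card_sdiff_of_subset hsub, hT, hS4]
    have htm : t ∈ T \ {x, p, w1, w2} := by
      rw [ht]
      exact Finset.mem_singleton_self t
    rw [Finset.mem_sdiff] at htm
    have htn := htm.2
    simp only [Finset.mem_insert, Finset.mem_singleton, not_or] at htn
    obtain ⟨htx, htp, htw1, htw2⟩ := htn
    have hTs : ∀ f : V → ℕ, ∑ v ∈ T, f v = f t + (f x + (f p + (f w1 + f w2))) := by
      intro f
      rw [← Finset.sum_sdiff hsub, ht, Finset.sum_singleton, Finset.sum_insert, Finset.sum_insert, Finset.sum_pair hw12]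
      · simp only [Finset.mem_insert, Finset.mem_singleton, not_or]
        exact ⟨hpw1, hpw2⟩
      · simp only [Finset.mem_insert, Finset.mem_singleton, not_or]
        exact ⟨hpx.symm, hw1x.symm, hw2x.symm⟩
    have htI : t ∉ I := by
      intro h
      have h1 : t ∈ (I.erase x).erase w1 := Finset.mem_erase.2 ⟨htw1, Finset.mem_erase.2 ⟨htx, h⟩⟩
      rw [hp] at h1
      exact htp (Finset.mem_singleton.1 h1)
    have hpp : p = p' := by
      have h1 : p ∈ (J.erase x).erase w2 := Finset.mem_erase.2 ⟨hpw2, Finset.mem_erase.2 ⟨hpx, hpJ⟩⟩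
      rw [hp'] at h1
      exact Finset.mem_singleton.1 h1
    have htJ : t ∉ J := by
      intro h
      have h1 : t ∈ (J.erase x).erase w2 := Finset.mem_erase.2 ⟨htw2, Finset.mem_erase.2 ⟨htx, h⟩⟩
      rw [hp', ← hpp] at h1
      exact htp (Finset.mem_singleton.1 h1)
    have s1 := hsum x hxT
    have s2 := hsum p (hI hpI)
    have s3 := hsum w1 (hI hw1I)
    have s4 := hsum w2 (hJ hw2J)
    have s5 := hsum t htm.1
    rw [hTs, h0] at s1 s2 s3 s4 s5
    have n1 := i1 w1 hw1I hw1x
    have n2 := j1 w2 hw2J hw2x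
    have n3 := i2 p hpI w1 hw1I hpx hw1x hpw1
    have n4 := j2 p hpJ w2 hw2J hpx hw2x hpw2
    have n5 := i3 w2 (hJ hw2J) t htm.1 hw2I htI (Ne.symm htw2)
    have n6 := j3 w1 (hI hw1I) t htm.1 hw1J htJ (Ne.symm htw1)
    have e1 := hs x t
    have e2 := hs p t
    have e3 := hs w1 t
    have e4 := hs w2 t
    have e5 := hs x p
    have e6 := hs x w1
    have e7 := hs x w2
    have e8 := hs p w1
    have e9 := hs p w2
    have e10 := hs w1 w2
    omega
  · -- four neighbours of `x`
    have hpp : p ≠ p' := fun h => hpJ (h ▸ hpJ')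
    have hpw1' : p' ≠ w1 := fun h => hw1J (h ▸ hpJ')
    have hsub : ({p, w1, p', w2} : Finset V) ⊆ T := by
      intro v hv
      simp only [Finset.mem_insert, Finset.mem_singleton] at hv
      rcases hv with rfl | rfl | rfl | rfl
      · exact hI hpI
      · exact hI hw1I
      · exact hJ hpJ'
      · exact hJ hw2J
    have h1 : ∑ v ∈ ({p, w1, p', w2} : Finset V), N x v ≤ ∑ v ∈ T, N x v := Finset.sum_le_sum_of_subset hsub
    rw [hsum x hxT, Finset.sum_insert, Finset.sum_insert, Finset.sum_pair hpw2'] at h1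
    · have n1 := i1 w1 hw1I hw1x
      have n2 := i1 p hpI hpx
      have n3 := j1 w2 hw2J hw2x
      have n4 := j1 p' hpJ' hpx'
      omega
    · simp only [Finset.mem_insert, Finset.mem_singleton, not_or]
      exact ⟨hpw1'.symm, hw12⟩
    · simp only [Finset.mem_insert, Finset.mem_singleton, not_or]
      exact ⟨hpw1, hpp, hpw2⟩

variable {V E : Type} [Fintype V] [Fintype E] {G : MG V E} {k d : ℕ} {A : Finset E} {e : E} {c : E → Fin k}
  {x y : V} {a b : Fin k}

private theorem num_mono {F F' : Finset E} (h : F ⊆ F') (u v : V) : num G F u v ≤ num G F' u v := by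
  unfold num
  exact Finset.card_le_card (Finset.filter_subset_filter _ h)

private theorem cls_sub : cls (A.erase e) c b ⊆ kmp A e c a b := by
  intro g hg
  unfold cls at hg
  unfold kmp
  rw [Finset.mem_filter] at hg
  exact Finset.mem_insert_of_mem (Finset.mem_filter.2 ⟨hg.1, Or.inr hg.2⟩)

private theorem num_root (h : Cf G d A e c x y a b) :
    num G (cls (A.erase e) c b) x y + 1 ≤ num G (kmp A e c a b) x y := by
  unfold num
  have h1 : e ∉ (cls (A.erase e) c b).filter (fun g => G.joins g x y) := by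
    intro h2
    have h3 := (Finset.mem_filter.1 (Finset.mem_filter.1 h2).1).1
    exact (Finset.mem_erase.1 h3).1 rfl
  rw [← Finset.card_insert_of_notMem h1]
  refine Finset.card_le_card fun g hg => ?_
  rcases Finset.mem_insert.1 hg with rfl | hg
  · refine Finset.mem_filter.2 ⟨?_, h.st.jn⟩
    unfold kmp
    exact Finset.mem_insert_self _ _
  · exact Finset.mem_filter.2 ⟨cls_sub (Finset.mem_filter.1 hg).1, (Finset.mem_filter.1 hg).2⟩

/-- numbers of edges for a set of three vertices closed under `b` -/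
private theorem cset (h : Cf G d A e c x y a b) (hT : (Cm G A e c a b x).card = 5) {I : Finset V}
    (hIT : I ⊆ Cm G A e c a b x) (hI : I.card = 3) (hx : x ∈ I) (hy : y ∈ I) (hb : Clo G (cls (A.erase e) c b) I) :
    (∀ u ∈ I, u ≠ x → d + 1 ≤ 2 * num G (kmp A e c a b) x u) ∧
    (∀ u ∈ I, ∀ w ∈ I, u ≠ x → w ≠ x → u ≠ w → d ≤ 2 * num G (kmp A e c a b) u w + 1) ∧
    (∀ s ∈ Cm G A e c a b x, ∀ t ∈ Cm G A e c a b x, s ∉ I → t ∉ I → s ≠ t → d ≤ num G (kmp A e c a b) s t) := by
  obtain ⟨hab, hax, hbx, hby, hay⟩ := cf_root h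
  have hxy : x ≠ y := joins_ne h.st.jn
  obtain ⟨j, hj⟩ : ∃ j, (I.erase x).erase y = {j} := by
    rw [← Finset.card_eq_one, Finset.card_erase_of_mem (Finset.mem_erase.2 ⟨hxy.symm, hy⟩), Finset.card_erase_of_mem hx, hI]
  have hjm : j ∈ (I.erase x).erase y := by
    rw [hj]
    exact Finset.mem_singleton_self j
  have hjy : j ≠ y := (Finset.mem_erase.1 hjm).1
  have hjx : j ≠ x := (Finset.mem_erase.1 (Finset.mem_erase.1 hjm).2).1
  have hjI : j ∈ I := (Finset.mem_erase.1 (Finset.mem_erase.1 hjm).2).2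
  have hIc : ∀ u ∈ I, u ≠ x → u = y ∨ u = j := by
    intro u hu hux
    by_cases huy : u = y
    · exact Or.inl huy
    · right
      have h1 : u ∈ (I.erase x).erase y := Finset.mem_erase.2 ⟨huy, Finset.mem_erase.2 ⟨hux, hu⟩⟩
      rw [hj] at h1
      exact Finset.mem_singleton.1 h1
  have hIs : ∀ f : V → ℕ, ∑ v ∈ I, f v = f x + f y + f j := by
    intro f
    rw [← Finset.add_sum_erase I f hx, ← Finset.add_sum_erase (I.erase x) f (Finset.mem_erase.2 ⟨hxy.symm, hy⟩), hj,
      Finset.sum_singleton, add_assoc]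
  have dj := cf_other h hjx hjy (hIT hjI)
  have hIb : ∀ v ∈ I, G.dg c (A.erase e) b v = num G (cls (A.erase e) c b) v x + num G (cls (A.erase e) c b) v y +
      num G (cls (A.erase e) c b) v j := by
    intro v hv
    rw [← hIs]
    exact num_sum hb hv
  have z : ∀ v, num G (cls (A.erase e) c b) v v = 0 := fun v => num_self _ _
  have i1 := hIb x hx
  have i2 := hIb y hy
  have i3 := hIb j hjI
  rw [z] at i1 i2 i3
  have c1 := num_comm (G := G) (cls (A.erase e) c b) x y
  have c2 := num_comm (G := G) (cls (A.erase e) c b) x j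
  have c3 := num_comm (G := G) (cls (A.erase e) c b) y j
  have r1 := num_root h
  have r2 := num_mono (G := G) (cls_sub (A := A) (e := e) (c := c) (a := a) (b := b)) x j
  have r3 := num_mono (G := G) (cls_sub (A := A) (e := e) (c := c) (a := a) (b := b)) y j
  have r4 := num_comm (G := G) (kmp A e c a b) y j
  refine ⟨?_, ?_, ?_⟩
  · intro u hu hux
    rcases hIc u hu hux with rfl | rfl
    · omega
    · omega
  · intro u hu w hw hux hwx huw
    rcases hIc u hu hux with rfl | rfl <;> rcases hIc w hw hwx with rfl | rfl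
    · exact absurd rfl huw
    · omega
    · omega
    · exact absurd rfl huw
  · intro s hs t ht hsI htI hst
    have hR : Cm G A e c a b x \ I = {s, t} := by
      symm
      refine Finset.eq_of_subset_of_card_le ?_ ?_
      · intro v hv
        rw [Finset.mem_insert, Finset.mem_singleton] at hv
        rcases hv with rfl | rfl
        · exact Finset.mem_sdiff.2 ⟨hs, hsI⟩
        · exact Finset.mem_sdiff.2 ⟨ht, htI⟩
      · rw [Finset.card_sdiff_of_subset hIT, hT, hI, Finset.card_pair hst]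
    have hclo : Clo G (cls (A.erase e) c b) {s, t} := by
      rw [← hR]
      intro g hg
      have q1 := (cf_clo_b (G := G) (A := A) (e := e) (c := c) (x := x) (a := a) (b := b)) g hg
      have q2 := hb g hg
      rw [Finset.mem_sdiff, Finset.mem_sdiff, q1, q2]
    have hsx : s ≠ x := fun h0 => hsI (h0 ▸ hx)
    have hsy : s ≠ y := fun h0 => hsI (h0 ▸ hy)
    have ds := (cf_other h hsx hsy hs).2
    have h1 : G.dg c (A.erase e) b s = num G (cls (A.erase e) c b) s s + num G (cls (A.erase e) c b) s t := by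
      rw [← Finset.sum_pair hst]
      exact num_sum hclo (by simp)
    rw [z, ds, zero_add] at h1
    have h2 := num_mono (G := G) (cls_sub (A := A) (e := e) (c := c) (a := a) (b := b)) s t
    omega

theorem closedr (hdeg1 : ∀ v, G.deg A v + 1 ≤ k * d)
    (hC : ∀ X : Finset V, 7 ≤ X.card → Core G d A X → k ≤ (∑ v ∈ X, (k * d - G.deg A v)) + 1) (hd : Odd d) (hd3 : 3 ≤ d)
    {P : ℕ} (hP : ∀ (e : E) (c : E → Fin k) (x y : V) (a b : Fin k), Cf G d A e c x y a b → (Cm G A e c a b x).card ≤ P)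
    (h : Cf G d A e c x y a b) (hc : (Cm G A e c a b x).card = P) :
    (P = 3 ∨ P = 5) ∧ ∀ v ∈ Cm G A e c a b x, ∀ q ∈ G.miss d c (A.erase e) v,
      Clo G (cls (A.erase e) c q) (Cm G A e c a b x) := by
  have hxy : x ≠ y := joins_ne h.st.jn
  have hP5 : P = 3 ∨ P = 5 := by
    have h1 : Odd (Cm G A e c a b x).card := (Nat.odd_mul.1 (cm_odd h)).2
    have h2 := bd_of_core hdeg1 hC h.st (core_cm h) (cf_x h) (cf_y h) (fun v hv q hq => elem_simple h hv hq)
      (fun v hv w hw hvw q hq hq' => elem hdeg1 h hv hw hvw hq hq')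
    have h3 : 2 ≤ (Cm G A e c a b x).card := by
      rw [← Finset.card_pair hxy]
      refine Finset.card_le_card fun v hv => ?_
      rcases Finset.mem_insert.1 hv with rfl | hv
      · exact cf_x h
      · rw [Finset.mem_singleton.1 hv]
        exact cf_y h
    obtain ⟨n, hn⟩ := h1
    omega
  refine ⟨hP5, ?_⟩
  intro v hv q hq
  by_cases hqa : q = a
  · rw [hqa]
    exact cf_clo_a
  by_cases hqb : q = b
  · rw [hqb]
    exact cf_clo_b
  by_contra hcon
  obtain ⟨T, hT⟩ : ∃ T, T = Cm G A e c a b x := ⟨_, rfl⟩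
  rw [← hT] at hv hc hcon
  -- every configuration with root at `v`
  have key : ∀ (g : E) (c0 : E → Fin k) (w : V), Cf G d A g c0 v w a b → Cm G A g c0 a b v = T →
      Ag A e c g c0 a b → P = 5 ∧ ∃ C ⊆ T, C.card = 3 ∧ v ∈ C ∧ w ∈ C ∧ Clo G (cls (A.erase g) c0 b) C := by
    intro g c0 w h0 hT0 hag
    have hq0 : q ∈ G.miss d c0 (A.erase g) v := (ag_miss hag hqa hqb v).2 hq
    have h0' : Cf G d A g c0 v w q b := ⟨h0.st, hq0, h0.hb⟩
    have hvw : v ≠ w := joins_ne h0.st.jn
    have hodd := (Nat.odd_mul.1 (inter_odd h0 h0')).2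
    rw [hT0] at hodd
    have hvC : v ∈ T ∩ Cm G A g c0 q b v := Finset.mem_inter.2 ⟨hv, cf_x h0'⟩
    have hwC : w ∈ T ∩ Cm G A g c0 q b v := by
      refine Finset.mem_inter.2 ⟨?_, cf_y h0'⟩
      rw [← hT0]
      exact cf_y h0
    have hclo : Clo G (cls (A.erase g) c0 b) (T ∩ Cm G A g c0 q b v) := by
      intro f hf
      have q1 := (cf_clo_b (G := G) (A := A) (e := g) (c := c0) (x := v) (a := a) (b := b)) f hf
      have q2 := (cf_clo_b (G := G) (A := A) (e := g) (c := c0) (x := v) (a := q) (b := b)) f hf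
      rw [hT0] at q1
      rw [Finset.mem_inter, Finset.mem_inter, q1, q2]
    have hle : (T ∩ Cm G A g c0 q b v).card ≤ P := by
      rw [← hc]
      exact Finset.card_le_card Finset.inter_subset_left
    have hne : (T ∩ Cm G A g c0 q b v).card ≠ P := by
      intro h1
      have h2 : T ∩ Cm G A g c0 q b v = T := Finset.eq_of_subset_of_card_le Finset.inter_subset_left (by rw [h1, hc])
      have h3 : T ⊆ Cm G A g c0 q b v := by
        rw [← h2]
        exact Finset.inter_subset_right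
      have h4 : T = Cm G A g c0 q b v := Finset.eq_of_subset_of_card_le h3 (by rw [hc]; exact hP _ _ _ _ _ _ h0')
      apply hcon
      rw [h4, ← ag_cls hag hqa hqb]
      exact cf_clo_a
    have h2 : 2 ≤ (T ∩ Cm G A g c0 q b v).card := by
      rw [← Finset.card_pair hvw]
      refine Finset.card_le_card fun t ht => ?_
      rcases Finset.mem_insert.1 ht with rfl | ht
      · exact hvC
      · rw [Finset.mem_singleton.1 ht]
        exact hwC
    obtain ⟨n, hn⟩ := hodd
    refine ⟨by omega, T ∩ Cm G A g c0 q b v, Finset.inter_subset_left, by omega, hvC, hwC, hclo⟩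
  -- roots at `v`
  have hv' : v ∈ Cm G A e c a b x := by
    rw [← hT]
    exact hv
  have hmv : ∀ g ∈ kmp A e c a b, ∀ w, G.joins g v w →
      ∃ c0, Cf G d A g c0 v w a b ∧ Cm G A g c0 a b v = T ∧ Ag A e c g c0 a b ∧ kmp A g c0 a b = kmp A e c a b := by
    intro g hg w hj
    obtain ⟨c0, h1, h2, h3, h4, _⟩ := move h hg hj hv'
    exact ⟨c0, h1, by rw [hT]; exact h4, h2, h3⟩
  have hdv := cf_deg h hv'
  obtain ⟨g0, hg0⟩ := Finset.card_pos.1 (show 0 < G.deg (kmp A e c a b) v by rw [hdv]; omega)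
  obtain ⟨hg1, hg2⟩ := Finset.mem_filter.1 hg0
  obtain ⟨w0, hw0⟩ := count_inc_joins hg2
  obtain ⟨c0, h0, hT0, hag0, hk0⟩ := hmv g0 hg1 w0 hw0
  obtain ⟨hP', C, hCT, hC3, hvC, hwC, hCb⟩ := key g0 c0 w0 h0 hT0 hag0
  have hT5 : T.card = 5 := by rw [hc, hP']
  -- the set `C` is the same for all configurations
  have huniq : ∀ (g : E) (c1 : E → Fin k) (w : V), Cf G d A g c1 v w a b → Cm G A g c1 a b v = T →
      kmp A g c1 a b = kmp A e c a b → ∀ C' : Finset V, C' ⊆ T → C'.card = 3 → v ∈ C' → w ∈ C' →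
      Clo G (cls (A.erase g) c1 b) C' → C = C' := by
    intro g c1 w h1 hT1 hk1 C' hC' hC3' hvC' hwC' hCb'
    obtain ⟨i1, i2, i3⟩ := cset h0 (by rw [hT0, hT5]) (by rw [hT0]; exact hCT) hC3 hvC hwC hCb
    obtain ⟨j1, j2, j3⟩ := cset h1 (by rw [hT1, hT5]) (by rw [hT1]; exact hC') hC3' hvC' hwC' hCb'
    rw [hT0] at i3
    rw [hT1] at j3
    rw [hk0] at i1 i2 i3
    rw [hk1] at j1 j2 j3
    refine cuniq (d := d) (num G (kmp A e c a b)) (fun u w => num_comm _ _ _) (fun u => num_self _ _) hT5 ?_ hCT hC' hC3 hC3'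
      hvC hvC' i1 i2 i3 j1 j2 j3
    intro u hu
    rw [hT] at hu ⊢
    rw [← num_sum cf_clo hu]
    exact cf_deg h hu
  obtain ⟨c2, h2, hk2, hag2, hncl⟩ := five hd hd3 h0 (by rw [hT0, hT5]) (by rw [hT0]; exact hCT) hC3 hvC hwC (by
    intro g hg w hj
    rw [hk0] at hg
    obtain ⟨c1, h1, hT1, hag1, hk1⟩ := hmv g hg w hj
    obtain ⟨_, C', hC', hC3', hvC', hwC', hCb'⟩ := key g c1 w h1 hT1 hag1
    rw [huniq g c1 w h1 hT1 hk1 C' hC' hC3' hvC' hwC' hCb']
    exact hwC') hCb
  have hT2 : Cm G A g0 c2 a b v = T := by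
    rw [← hT0]
    unfold Cm
    rw [hk2]
  obtain ⟨_, C', hC', hC3', hvC', hwC', hCb'⟩ := key g0 c2 w0 h2 hT2 (ag_trans hag0 hag2)
  apply hncl
  rw [huniq g0 c2 w0 h2 hT2 (by rw [hk2, hk0]) C' hC' hC3' hvC' hwC' hCb']
  exact hCb'

end Pool.Agent.H58.DG
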