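import Pool.Agent.H77.Df.Fin

/-!
# Defective Goldberg theorem (MP_8dcef0_co): configurations

`Cf G d A e c x y a b`: critical state (`A` not colourable, `e ∈ A` joins `x` and `y`, `c` is valid on `A` without `e`), the colour
`a` is missing at `x` and the colour `b` is missing at `y`.  `Cm`: vertex set of the component of the root in the
graph `kmp A e c a b` (the edge `e` and all edges coloured `a` or `b`).  `Ag`: the two coloured states `(e, c)`, `(e', c')`
have the same edges in every colour other than `a`, `b`.
-/

set_option autoImplicit false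

open Finset
open scoped Classical

namespace Pool.Agent.H58.DG

open Pool.Agent.H77.Df

noncomputable section

variable {V E : Type}

/-- configuration -/
structure Cf (G : MG V E) {k : ℕ} (d : ℕ) (A : Finset E) (e : E) (c : E → Fin k) (x y : V) (a b : Fin k) : Prop where
  st : G.St d A e c x y
  ha : a ∈ G.miss d c (A.erase e) x
  hb : b ∈ G.miss d c (A.erase e) y

/-- vertex set of the component of `x` in the graph of `e` and the colours `a`, `b` -/
def Cm [Fintype V] (G : MG V E) {k : ℕ} (A : Finset E) (e : E) (c : E → Fin k) (a b : Fin k) (x : V) : Finset V :=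
  Finset.univ.filter (fun v => G.Reach (kmp A e c a b) x v)

/-- the same edges in every colour other than `a`, `b` -/
def Ag {k : ℕ} (A : Finset E) (e : E) (c : E → Fin k) (e' : E) (c' : E → Fin k) (a b : Fin k) : Prop :=
  ∀ q, q ≠ a → q ≠ b → ∀ g, ((g ∈ A.erase e' ∧ c' g = q) ↔ (g ∈ A.erase e ∧ c g = q))

/-- edges of `B` with colour `a` or `b` -/
def two {k : ℕ} (B : Finset E) (c : E → Fin k) (a b : Fin k) : Finset E := B.filter (fun g => c g = a ∨ c g = b)

/-- number of edges of the set `F` between `u` and `v` -/
def num (G : MG V E) (F : Finset E) (u v : V) : ℕ := (F.filter (fun g => G.joins g u v)).card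

/-- edges of colour `q` in `B` -/
def cls {k : ℕ} (B : Finset E) (c : E → Fin k) (q : Fin k) : Finset E := B.filter (fun g => c g = q)

/-- `T` is closed under the edge set `F`: no edge of `F` has exactly one end in `T` -/
def Clo (G : MG V E) (F : Finset E) (T : Finset V) : Prop := ∀ g ∈ F, (G.s g ∈ T ↔ G.t g ∈ T)

end

end Pool.Agent.H58.DG
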