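import Pool.Agent.H58.DG.Basic

/-!
# Two point lemma

Let `c` be valid on `B`, `al ≠ ga`, `K` the set of the edges of `two B c al ga` whose first end is reachable (in
`two B c al ga`) from `q1`.  `q1 ≠ q2` have degree at most `2 d - 1` in the two colours, and so has the third vertex
`z`; all three are in the same component.  Let `G'` be the multigraph on the edge type `Option E` with the additional edge
`none` joining `q1` and `q2`, and `K' = insert none (K.map some)`.  All degrees in `K'` are at most `2 d`, that of `z` at most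
`2 d - 1`.  `balance` for `K'` and `z` gives `f` with true and false degrees at most `d` everywhere (`balance_card`); after
negation `f none = true`.  Let `c' g = al` if `f (some g)` is true, `ga` otherwise, for `g ∈ K`; `c' g = c g` otherwise.  Then the
degree of `al` at `q1`, `q2` is at most `d - 1`.
`two_point_cf`: for a configuration and `al, ga` different from `a, b`.
-/

set_option autoImplicit false

open Finset
open scoped Classical

namespace Pool.Agent.H58.DG

open Pool.Agent.H77.Df

variable {V E : Type} [Fintype V] [Fintype E] {G : MG V E} {k d : ℕ} {A : Finset E} {e : E} {c : E → Fin k}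
  {x y : V} {a b : Fin k}

/-- the multigraph with an additional edge -/
private def tpG (G : MG V E) {q1 q2 : V} (h : q1 ≠ q2) : MG V (Option E) where
  s o := o.elim q1 G.s
  t o := o.elim q2 G.t
  ne o := by
    cases o with
    | none => exact h
    | some g => exact G.ne g

/-- the edges of `K` and the additional edge -/
private noncomputable def tpK (K : Finset E) : Finset (Option E) := insert none (K.map Function.Embedding.some)

omit [Fintype V] [Fintype E] in
private theorem tp_deg (K : Finset E) {q1 q2 : V} (h : q1 ≠ q2) (P : Option E → Prop) [DecidablePred P] (v : V) :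
    (tpG G h).deg ((tpK K).filter P) v = (K.filter (fun g => P (some g) ∧ G.inc g v)).card +
      (if P none ∧ (q1 = v ∨ q2 = v) then 1 else 0) := by
  have h1 : ((K.map Function.Embedding.some).filter (fun o => P o ∧ (tpG G h).inc o v)).card =
      (K.filter (fun g => P (some g) ∧ G.inc g v)).card := by
    rw [Finset.filter_map, Finset.card_map]
    rfl
  have h2 : (tpG G h).inc none v ↔ (q1 = v ∨ q2 = v) := Iff.rfl
  unfold MG.deg tpK
  rw [Finset.filter_filter, Finset.filter_insert]
  by_cases h3 : P none ∧ (q1 = v ∨ q2 = v)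
  · rw [if_pos h3, if_pos (by rw [h2]; exact h3), Finset.card_insert_of_notMem (by simp), h1]
  · rw [if_neg h3, if_neg (by rw [h2]; exact h3), h1, add_zero]

omit [Fintype V] [Fintype E] in
private theorem tp_joins {g : E} {u w : V} (h : G.joins g u w) : (G.s g = u ∧ G.t g = w) ∨ (G.s g = w ∧ G.t g = u) := h

omit [Fintype V] [Fintype E] in
private theorem tp_reach {F : Finset E} {q1 q2 : V} (h12 : q1 ≠ q2) {v : V} (h : G.Reach F q1 v) :
    (tpG G h12).Reach (tpK (F.filter (fun g => G.Reach F q1 (G.s g)))) q1 v := by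
  induction h with
  | refl => exact Relation.ReflTransGen.refl
  | @tail u w h1 h2 ih =>
    obtain ⟨g, hg, hj⟩ := h2
    have h3 : G.Reach F q1 (G.s g) := by
      rcases tp_joins hj with h4 | h4
      · rw [h4.1]; exact h1
      · rw [h4.1]; exact h1.tail ⟨g, hg, hj⟩
    refine ih.tail ⟨some g, ?_, hj⟩
    unfold tpK
    simp [hg, h3]

omit [Fintype V] [Fintype E] in
private theorem tp_dg {B : Finset E} {c : E → Fin k} (q : Fin k) (v : V) :
    G.dg c B q v = (B.filter (fun g => c g = q ∧ G.inc g v)).card := by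
  unfold MG.dg MG.deg
  rw [Finset.filter_filter]

theorem two_point {B : Finset E} (hval : G.Valid d B c) {al ga : Fin k} (hne : al ≠ ga) {q1 q2 z : V} (h12 : q1 ≠ q2)
    (h1z : z ≠ q1) (h2z : z ≠ q2) (h1 : G.dg c B al q1 + G.dg c B ga q1 < 2 * d)
    (h2 : G.dg c B al q2 + G.dg c B ga q2 < 2 * d) (hz : G.dg c B al z + G.dg c B ga z < 2 * d)
    (r2 : G.Reach (two B c al ga) q1 q2) (rz : G.Reach (two B c al ga) q1 z) :
    ∃ c', G.Valid d B c' ∧ al ∈ G.miss d c' B q1 ∧ al ∈ G.miss d c' B q2 ∧
      (∀ q, q ≠ al → q ≠ ga → ∀ g, (c' g = q ↔ c g = q)) := by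
  obtain ⟨F, hF⟩ : ∃ F, F = two B c al ga := ⟨_, rfl⟩
  rw [← hF] at r2 rz
  have hFm : ∀ g, g ∈ F ↔ g ∈ B ∧ (c g = al ∨ c g = ga) := fun g => by
    rw [hF]; unfold two; exact Finset.mem_filter
  obtain ⟨K, hK⟩ : ∃ K, K = F.filter (fun g => G.Reach F q1 (G.s g)) := ⟨_, rfl⟩
  have hKm : ∀ g, g ∈ K ↔ g ∈ F ∧ G.Reach F q1 (G.s g) := fun g => by
    rw [hK]; exact Finset.mem_filter
  -- both ends of an edge of `F` are reachable or none
  have hend : ∀ g ∈ F, (G.Reach F q1 (G.s g) ↔ G.Reach F q1 (G.t g)) := fun g hg =>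
    ⟨fun h => h.tail ⟨g, hg, Or.inl ⟨rfl, rfl⟩⟩, fun h => h.tail ⟨g, hg, Or.inr ⟨rfl, rfl⟩⟩⟩
  have hinc : ∀ g ∈ F, ∀ v, G.inc g v → (G.Reach F q1 (G.s g) ↔ G.Reach F q1 v) := by
    intro g hg v hv
    rcases hv with h | h
    · rw [h]
    · rw [hend g hg, h]
  -- balance
  have hreach : ∀ v, G.Reach F q1 v → (tpG G h12).Reach (tpK K) q1 v := fun v hv => by
    rw [hK]; exact tp_reach h12 hv
  have hzq : (tpG G h12).Reach (tpK K) z q1 := reach_symm (hreach z rz)
  obtain ⟨f, hf1, hf2⟩ := balance (G := tpG G h12) (tpK K) z (by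
    intro o ho
    cases o with
    | none => exact hzq
    | some g =>
      have hg : g ∈ K := by
        unfold tpK at ho
        simpa using ho
      exact Relation.ReflTransGen.trans hzq (hreach _ ((hKm g).1 hg).2))
  -- degrees in the augmented component
  have hdK : ∀ v, G.Reach F q1 v → (K.filter (fun g => G.inc g v)).card = G.dg c B al v + G.dg c B ga v := by
    intro v hv
    rw [tp_dg, tp_dg, ← Finset.card_union_of_disjoint]
    · congr 1
      ext g
      simp only [Finset.mem_filter, Finset.mem_union, hKm, hFm]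
      constructor
      · rintro ⟨⟨⟨h3, h4⟩, _⟩, h5⟩
        rcases h4 with h4 | h4
        · exact Or.inl ⟨h3, h4, h5⟩
        · exact Or.inr ⟨h3, h4, h5⟩
      · rintro (⟨h3, h4, h5⟩ | ⟨h3, h4, h5⟩)
        · exact ⟨⟨⟨h3, Or.inl h4⟩, (hinc g ((hFm g).2 ⟨h3, Or.inl h4⟩) v h5).2 hv⟩, h5⟩
        · exact ⟨⟨⟨h3, Or.inr h4⟩, (hinc g ((hFm g).2 ⟨h3, Or.inr h4⟩) v h5).2 hv⟩, h5⟩
    · rw [Finset.disjoint_left]
      intro g hg hg'
      simp only [Finset.mem_filter] at hg hg'
      exact hne (hg.2.1.symm.trans hg'.2.1)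
  have hdeg : ∀ v, G.Reach F q1 v → (tpG G h12).deg (tpK K) v ≤ 2 * d ∧
      (v = z → (tpG G h12).deg (tpK K) v + 1 ≤ 2 * d) := by
    intro v hv
    have h3 := tp_deg (G := G) K h12 (fun _ => True) v
    simp only [true_and, Finset.filter_true] at h3
    rw [h3, hdK v hv]
    have h4 := hval al v
    have h5 := hval ga v
    constructor
    · split_ifs with h6
      · rcases h6 with rfl | rfl
        · omega
        · omega
      · omega
    · rintro rfl
      rw [if_neg (by rintro (h | h); exacts [h1z h.symm, h2z h.symm])]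
      omega
  have hhalf : ∀ β : Bool, ∀ v, G.Reach F q1 v → (tpG G h12).deg ((tpK K).filter (fun o => f o = β)) v ≤ d := by
    intro β v hv
    obtain ⟨h3, h4⟩ := balance_card (G := tpG G h12) (tpK K) f v
    obtain ⟨h5, h6⟩ := hdeg v hv
    by_cases hvz : v = z
    · have h7 := h6 hvz
      have h8 : |(tpG G h12).exc (tpK K) f v| ≤ 2 := by rw [hvz]; exact hf2
      rw [abs_le] at h8
      cases β <;> omega
    · have h8 := hf1 v hvz
      rw [abs_le] at h8
      cases β <;> omega
  -- the new colouring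
  obtain ⟨c', hc'⟩ : ∃ c' : E → Fin k, c' = fun g => if g ∈ K then (if f (some g) = f none then al else ga) else c g :=
    ⟨_, rfl⟩
  have hcK : ∀ g ∈ K, c' g = if f (some g) = f none then al else ga := fun g hg => by
    rw [hc']; exact if_pos hg
  have hcN : ∀ g, g ∉ K → c' g = c g := fun g hg => by
    rw [hc']; exact if_neg hg
  have hother : ∀ q, q ≠ al → q ≠ ga → ∀ g, (c' g = q ↔ c g = q) := by
    intro q hq1 hq2 g
    by_cases hg : g ∈ K
    · rw [hcK g hg]
      have h3 := ((hFm g).1 ((hKm g).1 hg).1).2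
      constructor
      · intro h4
        split_ifs at h4
        · exact absurd h4.symm hq1
        · exact absurd h4.symm hq2
      · intro h4
        rcases h3 with h3 | h3
        · exact absurd (h4.symm.trans h3) hq1
        · exact absurd (h4.symm.trans h3) hq2
    · rw [hcN g hg]
  have hun : ∀ v, ¬ G.Reach F q1 v → ∀ q, G.dg c' B q v = G.dg c B q v := by
    intro v hv q
    rw [tp_dg, tp_dg]
    congr 1
    apply Finset.filter_congr
    intro g _
    constructor
    · rintro ⟨h3, h4⟩
      refine ⟨?_, h4⟩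
      rwa [hcN g (fun hg => hv ((hinc g ((hKm g).1 hg).1 v h4).1 ((hKm g).1 hg).2))] at h3
    · rintro ⟨h3, h4⟩
      refine ⟨?_, h4⟩
      rwa [hcN g (fun hg => hv ((hinc g ((hKm g).1 hg).1 v h4).1 ((hKm g).1 hg).2))]
  -- the edges of `K` at a reachable vertex
  have hmemK : ∀ v, G.Reach F q1 v → ∀ g ∈ B, G.inc g v → (c' g = al ∨ c' g = ga) → g ∈ K := by
    intro v hv g hg hi hcg
    by_contra hgK
    rw [hcN g hgK] at hcg
    have h3 : g ∈ F := (hFm g).2 ⟨hg, hcg⟩
    exact hgK ((hKm g).2 ⟨h3, (hinc g h3 v hi).2 hv⟩)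
  have hKB : ∀ g ∈ K, g ∈ B := fun g hg => ((hFm g).1 ((hKm g).1 hg).1).1
  have hal : ∀ v, G.Reach F q1 v → G.dg c' B al v + (if q1 = v ∨ q2 = v then 1 else 0) ≤ d := by
    intro v hv
    have h3 := hhalf (f none) v hv
    rw [tp_deg K h12 (fun o => f o = f none) v] at h3
    simp only [true_and] at h3
    have h4 : G.dg c' B al v = (K.filter (fun g => f (some g) = f none ∧ G.inc g v)).card := by
      rw [tp_dg]
      congr 1
      ext g
      rw [Finset.mem_filter, Finset.mem_filter]
      constructor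
      · rintro ⟨h5, h6, h7⟩
        have h8 := hmemK v hv g h5 h7 (Or.inl h6)
        rw [hcK g h8] at h6
        refine ⟨h8, ?_, h7⟩
        by_contra h9
        rw [if_neg h9] at h6
        exact hne h6.symm
      · rintro ⟨h5, h6, h7⟩
        exact ⟨hKB g h5, by rw [hcK g h5, if_pos h6], h7⟩
    rw [h4]
    exact h3
  have hga : ∀ v, G.Reach F q1 v → G.dg c' B ga v ≤ d := by
    intro v hv
    have h3 := hhalf (!f none) v hv
    rw [tp_deg K h12 (fun o => f o = !f none) v] at h3
    have h4 : G.dg c' B ga v = (K.filter (fun g => f (some g) = (!f none) ∧ G.inc g v)).card := by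
      rw [tp_dg]
      congr 1
      ext g
      rw [Finset.mem_filter, Finset.mem_filter]
      constructor
      · rintro ⟨h5, h6, h7⟩
        have h8 := hmemK v hv g h5 h7 (Or.inr h6)
        rw [hcK g h8] at h6
        refine ⟨h8, ?_, h7⟩
        by_contra h9
        have h10 : f (some g) = f none := by
          cases h11 : f (some g) <;> cases h12' : f none <;> simp_all
        rw [if_pos h10] at h6
        exact hne h6
      · rintro ⟨h5, h6, h7⟩
        refine ⟨hKB g h5, ?_, h7⟩
        rw [hcK g h5, if_neg]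
        rw [h6]
        cases f none <;> simp
    rw [h4]
    omega
  have hqo : ∀ q, q ≠ al → q ≠ ga → ∀ v, G.dg c' B q v = G.dg c B q v := by
    intro q hq1 hq2 v
    rw [tp_dg, tp_dg]
    congr 1
    apply Finset.filter_congr
    intro g _
    rw [hother q hq1 hq2 g]
  refine ⟨c', ?_, ?_, ?_, hother⟩
  · intro q v
    by_cases hv : G.Reach F q1 v
    · by_cases hq1 : q = al
      · have := hal v hv
        rw [hq1]
        omega
      · by_cases hq2 : q = ga
        · rw [hq2]
          exact hga v hv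
        · rw [hqo q hq1 hq2 v]
          exact hval q v
    · rw [hun v hv q]
      exact hval q v
  · rw [miss_iff]
    have := hal q1 Relation.ReflTransGen.refl
    rw [if_pos (Or.inl rfl)] at this
    omega
  · rw [miss_iff]
    have := hal q2 r2
    rw [if_pos (Or.inr rfl)] at this
    omega

theorem two_point_cf (h : Cf G d A e c x y a b) {al ga : Fin k} (hne : al ≠ ga) (i1 : al ≠ a) (i2 : al ≠ b)
    (i3 : ga ≠ a) (i4 : ga ≠ b) {q1 q2 z : V} (h12 : q1 ≠ q2) (h1z : z ≠ q1) (h2z : z ≠ q2)
    (h1 : G.dg c (A.erase e) al q1 + G.dg c (A.erase e) ga q1 < 2 * d)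
    (h2 : G.dg c (A.erase e) al q2 + G.dg c (A.erase e) ga q2 < 2 * d)
    (hz : G.dg c (A.erase e) al z + G.dg c (A.erase e) ga z < 2 * d)
    (r2 : G.Reach (two (A.erase e) c al ga) q1 q2) (rz : G.Reach (two (A.erase e) c al ga) q1 z) :
    ∃ c', Cf G d A e c' x y a b ∧ kmp A e c' a b = kmp A e c a b ∧ Ag A e c e c' al ga ∧
      al ∈ G.miss d c' (A.erase e) q1 ∧ al ∈ G.miss d c' (A.erase e) q2 := by
  obtain ⟨c', hv, m1, m2, ho⟩ := two_point h.st.val hne h12 h1z h2z h1 h2 hz r2 rz
  have hdg : ∀ q, q ≠ al → q ≠ ga → ∀ v, G.dg c' (A.erase e) q v = G.dg c (A.erase e) q v := by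
    intro q hq1 hq2 v
    rw [tp_dg, tp_dg]
    congr 1
    apply Finset.filter_congr
    intro g _
    rw [ho q hq1 hq2 g]
  refine ⟨c', ⟨⟨h.st.not, h.st.mem, h.st.jn, hv⟩, ?_, ?_⟩, ?_, ?_, m1, m2⟩
  · rw [miss_iff, hdg a i1.symm i3.symm]
    exact miss_iff.1 h.ha
  · rw [miss_iff, hdg b i2.symm i4.symm]
    exact miss_iff.1 h.hb
  · unfold kmp
    congr 1
    apply Finset.filter_congr
    intro g _
    rw [ho a i1.symm i3.symm g, ho b i2.symm i4.symm g]
  · intro q hq1 hq2 g
    rw [ho q hq1 hq2 g]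

end Pool.Agent.H58.DG
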