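import Pool.Agent.H58.DG.Move
import Pool.Agent.H58.DG.TwoPoint

/-!
# The component is elementary

`step`: the key step, used here and in `Union`.  `h` a configuration, `al ≠ ga` colours different from `a`, `b`; `u` misses `al`
and not `ga`, `q` misses `ga` and not `al`, `r` misses `ga` and not `al`; `u`, `q`, `r` distinct; all missing colours simple
where needed.  Then one of the following holds (three alternatives):
(i) there is a configuration with the same root, ends, `kmp`, in which `u` and `q` both miss `al`, obtained by `two_point_cf`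
(case: `q` and `r` are both in the `al, ga`-component of `u`; third vertex `r`),
(ii) the Kempe exchange (`cf_swap`) on the component of `q` (not containing `u`): `q` and `u` miss `al`,
(iii) the Kempe exchange on the component of `r` (not containing `u`): `r` and `u` miss `al`.
In all cases there is a configuration `(e, c')` with the same `kmp` in which `u` and one of `q`, `r` miss `al`.

`elem`: no two different vertices `q`, `r` of `T = Cm` miss the same colour.  Let `ga` be missing at both.  `ga ≠ a`: `a` is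
missing in `T` only at `x` (`cf_root`, `cf_other`), and `ga ≠ b` likewise.  Take a walk `q = q_0, q_1, ..., q_l = r` in the graph
`kmp` (induction on the length `l`, for all configurations at the same time, `walk l` below).
`l = 1`: move the root to an edge joining `q` and `r` (`move`): both ends miss `ga` (`ag_miss`), against `cf_root` for the pair
`ga, b` (`Cf` with `a` replaced by `ga`: then `b` replaced by `ga` too gives `a = b` contradiction; simply: `Cf G d A e' c' x' y' ga ga`
contradicts `cf_root.1`).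
`l ≥ 2`: if `q_1 = q` or `q_1 = r` use the induction hypothesis.  There is `al ≠ a, b` missing at `q_1`: if `q_1` is not an end of the
root by `miss_ne` and `cf_other`; if it is, by `miss_two` (the missing colours at the ends are simple by `cf_root`).  By the
induction hypothesis (distance `1`, distance `l - 1`) `al` is not missing at `q` or `r`, and `ga` is not missing at `q_1`.
Apply `step` with `u = q_1`: a clash at distance `1` or `l - 1`, contradiction.
`elem_simple`: a missing colour `ga` at `v ∈ T` has degree exactly `d - 1`: if `v` is an end this is `cf_root` (with `ga` in the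
place of `a` or `b`); otherwise `ga ≠ a, b`; there is an edge of `kmp` at `v` (degree `2 d > 0`), move the root there.
-/

set_option autoImplicit false

open Finset
open scoped Classical

namespace Pool.Agent.H58.DG

open Pool.Agent.H77.Df

variable {V E : Type} [Fintype V] [Fintype E] {G : MG V E} {k d : ℕ} {A : Finset E} {e : E} {c : E → Fin k}
  {x y : V} {a b : Fin k}

theorem elem_simple (h : Cf G d A e c x y a b) {v : V} (hv : v ∈ Cm G A e c a b x) {ga : Fin k}
    (hga : ga ∈ G.miss d c (A.erase e) v) : G.dg c (A.erase e) ga v + 1 = d := by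
  by_cases hvx : v = x
  · subst hvx
    have h' : Cf G d A e c v y ga b := ⟨h.st, hga, h.hb⟩
    exact (cf_root h').2.1
  by_cases hvy : v = y
  · subst hvy
    have h' : Cf G d A e c x v a ga := ⟨h.st, h.ha, hga⟩
    exact (cf_root h').2.2.2.1
  have hlt : G.dg c (A.erase e) ga v < d := miss_iff.1 hga
  obtain ⟨hda, hdb⟩ := cf_other h hvx hvy hv
  have hga_a : ga ≠ a := by
    rintro rfl
    omega
  have hga_b : ga ≠ b := by
    rintro rfl
    omega
  have hdeg := cf_deg h hv
  have hpos : 0 < G.deg (kmp A e c a b) v := by omega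
  obtain ⟨e', he'⟩ := Finset.card_pos.1 (show 0 < ((kmp A e c a b).filter (fun e => G.inc e v)).card from hpos)
  obtain ⟨he'K, hinc⟩ := Finset.mem_filter.1 he'
  have hj : ∃ w, G.joins e' v w := by
    rcases hinc with h1 | h1
    · exact ⟨G.t e', Or.inl ⟨h1, rfl⟩⟩
    · exact ⟨G.s e', Or.inr ⟨rfl, h1⟩⟩
  obtain ⟨w, hj⟩ := hj
  obtain ⟨c', hc', hag, -⟩ := move h he'K hj hv
  have h1 : ga ∈ G.miss d c' (A.erase e') v := (ag_miss hag hga_a hga_b v).2 hga
  have h2 : Cf G d A e' c' v w ga b := ⟨hc'.st, h1, hc'.hb⟩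
  have h3 := (cf_root h2).2.1
  rwa [ag_dg hag hga_a hga_b v] at h3

theorem step (h : Cf G d A e c x y a b) {al ga : Fin k} (hne : al ≠ ga) (i1 : al ≠ a) (i2 : al ≠ b)
    (i3 : ga ≠ a) (i4 : ga ≠ b) {u q r : V} (huq : u ≠ q) (hur : u ≠ r) (hqr : q ≠ r)
    (h1 : al ∈ G.miss d c (A.erase e) u) (h2 : ga ∈ G.miss d c (A.erase e) q) (h3 : ga ∈ G.miss d c (A.erase e) r) :
    ∃ c', Cf G d A e c' x y a b ∧ kmp A e c' a b = kmp A e c a b ∧ Ag A e c e c' al ga ∧
      al ∈ G.miss d c' (A.erase e) u ∧ (al ∈ G.miss d c' (A.erase e) q ∨ al ∈ G.miss d c' (A.erase e) r) := by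
  have g1 := miss_iff.1 h1
  have g2 := miss_iff.1 h2
  have g3 := miss_iff.1 h3
  have v1 := h.st.val ga u
  have v2 := h.st.val al q
  have v3 := h.st.val al r
  -- the exchange on the component of a vertex `p` which misses `ga`
  have key : ∀ p : V, ga ∈ G.miss d c (A.erase e) p → ¬ G.Reach (two (A.erase e) c al ga) u p →
      ∃ c', Cf G d A e c' x y a b ∧ kmp A e c' a b = kmp A e c a b ∧ Ag A e c e c' al ga ∧
        al ∈ G.miss d c' (A.erase e) u ∧ al ∈ G.miss d c' (A.erase e) p := by
    intro p hp hn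
    obtain ⟨c', w1, w2, w3, w4, w5⟩ := cf_swap h hne i1 i2 i3 i4 p
    refine ⟨c', w1, w2, w3, ?_, ?_⟩
    · rw [miss_iff, w5 u (fun hr => hn (reach_symm hr)) al]
      exact g1
    · rw [miss_iff, (w4 p Relation.ReflTransGen.refl).1]
      exact miss_iff.1 hp
  by_cases hq : G.Reach (two (A.erase e) c al ga) u q
  · by_cases hr : G.Reach (two (A.erase e) c al ga) u r
    · obtain ⟨c', w1, w2, w3, w4, w5⟩ := two_point_cf h hne i1 i2 i3 i4 (q1 := u) (q2 := q) (z := r) huq (Ne.symm hur)
        (Ne.symm hqr) (by omega) (by omega) (by omega) hq hr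
      exact ⟨c', w1, w2, w3, w4, Or.inl w5⟩
    · obtain ⟨c', w1, w2, w3, w4, w5⟩ := key r h3 hr
      exact ⟨c', w1, w2, w3, w4, Or.inr w5⟩
  · obtain ⟨c', w1, w2, w3, w4, w5⟩ := key q h2 hq
    exact ⟨c', w1, w2, w3, w4, Or.inl w5⟩

/-- a colour missing at two vertices of the component is not `a` -/
private theorem Elem_ne_a (h : Cf G d A e c x y a b) {v : V} (hv : v ∈ Cm G A e c a b x) (hvx : v ≠ x) {ga : Fin k}
    (hga : ga ∈ G.miss d c (A.erase e) v) : ga ≠ a := by
  rintro rfl
  have h1 := miss_iff.1 hga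
  by_cases hvy : v = y
  · subst hvy
    have := (cf_root h).2.2.2.2
    omega
  · have := (cf_other h hvx hvy hv).1
    omega

private theorem Elem_ne_b (h : Cf G d A e c x y a b) {v : V} (hv : v ∈ Cm G A e c a b x) (hvy : v ≠ y) {ga : Fin k}
    (hga : ga ∈ G.miss d c (A.erase e) v) : ga ≠ b := by
  rintro rfl
  have h1 := miss_iff.1 hga
  by_cases hvx : v = x
  · subst hvx
    have := (cf_root h).2.2.1
    omega
  · have := (cf_other h hvx hvy hv).2
    omega

private theorem Elem_ne (h : Cf G d A e c x y a b) {q r : V} (hq : q ∈ Cm G A e c a b x) (hr : r ∈ Cm G A e c a b x)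
    (hqr : q ≠ r) {ga : Fin k} (h1 : ga ∈ G.miss d c (A.erase e) q) (h2 : ga ∈ G.miss d c (A.erase e) r) :
    ga ≠ a ∧ ga ≠ b := by
  constructor
  · by_cases hqx : q = x
    · exact Elem_ne_a h hr (fun hrx => hqr (hqx.trans hrx.symm)) h2
    · exact Elem_ne_a h hq hqx h1
  · by_cases hqy : q = y
    · exact Elem_ne_b h hr (fun hry => hqr (hqy.trans hry.symm)) h2
    · exact Elem_ne_b h hq hqy h1

/-- adjacent vertices -/
private theorem Elem_adj (h : Cf G d A e c x y a b) {q r : V} (hq : q ∈ Cm G A e c a b x) {g : E}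
    (hg : g ∈ kmp A e c a b) (hj : G.joins g q r) {ga : Fin k} (h1 : ga ∈ G.miss d c (A.erase e) q)
    (h2 : ga ∈ G.miss d c (A.erase e) r) : False := by
  have hqr : q ≠ r := by
    rintro rfl
    rcases hj with ⟨h3, h4⟩ | ⟨h3, h4⟩
    · exact G.ne g (h3.trans h4.symm)
    · exact G.ne g (h3.trans h4.symm)
  have hr : r ∈ Cm G A e c a b x := mem_cm.2 ((mem_cm.1 hq).tail ⟨g, hg, hj⟩)
  obtain ⟨i1, i2⟩ := Elem_ne h hq hr hqr h1 h2
  obtain ⟨c', hc', hag, -⟩ := move h hg hj hq
  have h3 : Cf G d A g c' q r ga ga := ⟨hc'.st, (ag_miss hag i1 i2 q).2 h1, (ag_miss hag i1 i2 r).2 h2⟩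
  exact (cf_root h3).1 rfl

/-- walks of length `l` -/
private def Elem_walk (G : MG V E) (K : Finset E) : ℕ → V → V → Prop
  | 0, q, r => q = r
  | l + 1, q, r => ∃ q1, (∃ g ∈ K, G.joins g q q1) ∧ Elem_walk G K l q1 r

private theorem Elem_exists_walk {K : Finset E} {q r : V} (h : G.Reach K q r) : ∃ l, Elem_walk G K l q r := by
  unfold MG.Reach at h
  induction h using Relation.ReflTransGen.head_induction_on with
  | refl => exact ⟨0, rfl⟩
  | head h1 _ ih =>
    obtain ⟨l, hl⟩ := ih
    exact ⟨l + 1, _, h1, hl⟩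

/-- a missing colour other than `a`, `b` -/
private theorem Elem_exists_al (hdeg : ∀ v, G.deg A v + 1 ≤ k * d) (h : Cf G d A e c x y a b) {v : V}
    (hv : v ∈ Cm G A e c a b x) : ∃ al, al ≠ a ∧ al ≠ b ∧ al ∈ G.miss d c (A.erase e) v := by
  by_cases hvx : v = x
  · subst hvx
    obtain ⟨al, h1, h2⟩ := miss_two h.st (hdeg v) (fun q hq => elem_simple h hv hq) a
    refine ⟨al, h1, ?_, h2⟩
    rintro rfl
    have h3 := miss_iff.1 h2
    have h4 := (cf_root h).2.2.1
    omega
  by_cases hvy : v = y
  · subst hvy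
    obtain ⟨al, h1, h2⟩ := miss_two (cf_symm h).st (hdeg v) (fun q hq => elem_simple h hv hq) b
    refine ⟨al, ?_, h1, h2⟩
    rintro rfl
    have h3 := miss_iff.1 h2
    have h4 := (cf_root h).2.2.2.2
    omega
  · obtain ⟨al, h2⟩ := miss_ne h.st v (hdeg v)
    exact ⟨al, Elem_ne_a h hv hvx h2, Elem_ne_b h hv hvy h2, h2⟩

private theorem Elem_main (hdeg : ∀ v, G.deg A v + 1 ≤ k * d) (K : Finset E) (l : ℕ) :
    ∀ (c : E → Fin k), Cf G d A e c x y a b → kmp A e c a b = K → ∀ q r : V, q ∈ Cm G A e c a b x → q ≠ r →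
      Elem_walk G K l q r → ∀ ga, ga ∈ G.miss d c (A.erase e) q → ga ∈ G.miss d c (A.erase e) r → False := by
  induction l with
  | zero =>
    intro c _ _ q r _ hqr hw
    exact absurd hw hqr
  | succ l ih =>
    intro c h hK q r hq hqr hw ga h1 h2
    obtain ⟨q1, ⟨g, hg, hj⟩, hw⟩ := hw
    subst hK
    have hq1 : q1 ∈ Cm G A e c a b x := mem_cm.2 ((mem_cm.1 hq).tail ⟨g, hg, hj⟩)
    by_cases hq1r : q1 = r
    · subst hq1r
      exact Elem_adj h hq hg hj h1 h2
    by_cases hq1q : q1 = q
    · subst hq1q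
      exact ih c h rfl q1 r hq hqr hw ga h1 h2
    have hr : r ∈ Cm G A e c a b x := by
      have h3 : ∀ (m : ℕ) (p : V), p ∈ Cm G A e c a b x → Elem_walk G (kmp A e c a b) m p r → r ∈ Cm G A e c a b x := by
        intro m
        induction m with
        | zero =>
          intro p hp hpr
          have h4 : p = r := hpr
          rwa [← h4]
        | succ m ihm =>
          intro p hp hpr
          obtain ⟨p1, hp1, hpr1⟩ := hpr
          exact ihm p1 (mem_cm.2 ((mem_cm.1 hp).tail hp1)) hpr1
      exact h3 l q1 hq1 hw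
    obtain ⟨i3, i4⟩ := Elem_ne h hq hr hqr h1 h2
    obtain ⟨al, i1, i2, hal⟩ := Elem_exists_al hdeg h hq1
    have hne : al ≠ ga := by
      rintro rfl
      exact Elem_adj h hq hg hj h1 hal
    obtain ⟨c', hc', hK', -, hu, hor⟩ := step h hne i1 i2 i3 i4 hq1q hq1r hqr hal h1 h2
    have hcm : Cm G A e c' a b x = Cm G A e c a b x := by
      unfold Cm
      rw [hK']
    rcases hor with h3 | h3
    · have hg' : g ∈ kmp A e c' a b := by
        rw [hK']
        exact hg
      exact Elem_adj hc' (by rw [hcm]; exact hq) hg' hj h3 hu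
    · exact ih c' hc' hK' q1 r (by rw [hcm]; exact hq1) hq1r hw al hu h3

theorem elem (hdeg : ∀ v, G.deg A v + 1 ≤ k * d) (h : Cf G d A e c x y a b) {q r : V} (hq : q ∈ Cm G A e c a b x)
    (hr : r ∈ Cm G A e c a b x) (hqr : q ≠ r) {ga : Fin k} (h1 : ga ∈ G.miss d c (A.erase e) q)
    (h2 : ga ∈ G.miss d c (A.erase e) r) : False := by
  have h3 : G.Reach (kmp A e c a b) q r := Relation.ReflTransGen.trans (reach_symm (mem_cm.1 hq)) (mem_cm.1 hr)
  obtain ⟨l, hl⟩ := Elem_exists_walk h3
  exact Elem_main hdeg _ l c h rfl q r hq hqr hl ga h1 h2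

end Pool.Agent.H58.DG
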