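import Pool.Agent.H58.DG.Flip
import Pool.Agent.H58.DG.Elem
import Pool.Agent.H58.DG.ExitA

/-!
# The exit lemma

Let `h : Cf G d A e c x y a b`, `T = Cm`.  Suppose `T` is closed under every colour which is missing at a vertex of `T`, the
colour `ga` is missing nowhere in `T`, and at least two edges `g1 ≠ g2` of colour `ga` leave `T`.  Then there is a
configuration `(e', c', x', y', a, b)` with the same vertex set `T` in which `ga` is missing at some `u ∈ T` and an
edge of colour `ga` leaves `T`.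
Proof.  `ga ≠ a, b`.  (1)-(3) `exit_trail` gives `u ∈ T`, `w ∉ T`, the edge `g` of colour `ga` from `u` to `w1 ∉ T`, and the trail `g :: L`
in the colours `a`, `ga`, the edges of `L` have no end in `T`.
(4) Choose an edge `e1 ∈ kmp` with both ends in `T` and different from `u` (if all edges of `kmp` in `T` were at `u`, then the degree sum
`2 d |T|` would be `2 · 2 d`, so `|T| = 2`, against `cm_odd`), move the root there (`move`): the new colouring `c1` has the same
edges in all colours except `a`, `b`, and agrees with `c` on all edges with an end outside `T`.  Now `u` is not an end of the root; there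
is `be ≠ a, b` missing at `u` (`miss_ne`, `cf_other`); `be ≠ ga`, and no edge of colour `be` leaves `T` (same edges as in `c`).
(5) `c2`: exchange the colours `a` and `be` on all edges with no end in `T` (edges of these two colours do not leave `T`; use
`swp` with the complement of `T`, `swap_st`, `swap_dg`).  The trail from `g` on is now alternating in the colours `be`, `ga`.
(6) `c3`: flip the trail (`flip_dg` for the colours `be`, `ga`).  Valid: at `u` the colour `be` was missing and gets one more edge; at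
the end `w ∉ T` by the last two statements of `exit_trail` (in `c2` the degree of `be` at `w ∉ T` is that of `a` in `c1`, hence in `c`).
So `ga` is now missing at `u`.  At least one of `g1`, `g2` is different from `g` and is not in the flipped part (the other edges
of the flipped part have no end in `T`), so it still has the colour `ga` and leaves `T`.  The edges of colours `a`, `b`
with an end in `T` are those of `c1`, so the component is `T` again.
-/

set_option autoImplicit false

open Finset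
open scoped Classical

namespace Pool.Agent.H58.DG

open Pool.Agent.H77.Df

variable {V E : Type} [Fintype V] [Fintype E] {G : MG V E} {k d : ℕ} {A : Finset E} {e : E} {c : E → Fin k}
  {x y : V} {a b : Fin k}

omit [Fintype V] [Fintype E] in
theorem Exit_tr_congr {B B' : Finset E} {f f' : E → Bool} {u v : V} {s t : Bool} {L : List E}
    (h : G.Tr B f u v s t L) (hh : ∀ g ∈ L, g ∈ B' ∧ f' g = f g) : G.Tr B' f' u v s t L := by
  induction h with
  | one g u v hg hj =>
    obtain ⟨h1, h2⟩ := hh g (List.mem_cons_self)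
    rw [← h2]
    exact MG.Tr.one g u v h1 hj
  | cons g u w v t L hg hj hgL _ ih =>
    obtain ⟨h1, h2⟩ := hh g (List.mem_cons_self)
    rw [← h2]
    refine MG.Tr.cons g u w v t L h1 hj hgL ?_
    rw [h2]
    exact ih fun g' hg' => hh g' (List.mem_cons_of_mem _ hg')

omit [Fintype V] [Fintype E] in
theorem Exit_reach {F F' : Finset E} {T : Finset V} (hc : Clo G F T)
    (hh : ∀ g ∈ F, G.s g ∈ T → G.t g ∈ T → g ∈ F') {p q : V} (hp : p ∈ T) (h : G.Reach F p q) :
    q ∈ T ∧ G.Reach F' p q := by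
  induction h with
  | refl => exact ⟨hp, Relation.ReflTransGen.refl⟩
  | tail _ h2 ih =>
    obtain ⟨g, hg, hj⟩ := h2
    obtain ⟨ih1, ih2⟩ := ih
    have hcl := hc g hg
    rcases hj with ⟨j1, j2⟩ | ⟨j1, j2⟩
    · rw [j1, j2] at hcl
      have hq := hcl.1 ih1
      refine ⟨hq, Relation.ReflTransGen.tail ih2 ⟨g, hh g hg ?_ ?_, Or.inl ⟨j1, j2⟩⟩⟩
      · rw [j1]; exact ih1
      · rw [j2]; exact hq
    · rw [j1, j2] at hcl
      have hq := hcl.2 ih1
      refine ⟨hq, Relation.ReflTransGen.tail ih2 ⟨g, hh g hg ?_ ?_, Or.inr ⟨j1, j2⟩⟩⟩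
      · rw [j1]; exact hq
      · rw [j2]; exact ih1

omit [Fintype V] [Fintype E] in
theorem Exit_dg_congr {B B' : Finset E} {c c' : E → Fin k} {q : Fin k} {v : V}
    (hh : ∀ g, G.inc g v → ((g ∈ B ∧ c g = q) ↔ (g ∈ B' ∧ c' g = q))) :
    G.dg c B q v = G.dg c' B' q v := by
  unfold MG.dg MG.deg
  congr 1
  ext g
  simp only [Finset.mem_filter]
  constructor
  · rintro ⟨h1, h2⟩
    exact ⟨(hh g h2).1 h1, h2⟩
  · rintro ⟨h1, h2⟩
    exact ⟨(hh g h2).2 h1, h2⟩

/-- an edge of `kmp` inside the component which avoids `u` -/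
theorem Exit_edge (hd : Odd d) (h : Cf G d A e c x y a b) {u : V} (hu : u ∈ Cm G A e c a b x) :
    ∃ e1 ∈ kmp A e c a b, G.s e1 ∈ Cm G A e c a b x ∧ G.s e1 ≠ u ∧ G.t e1 ≠ u := by
  by_contra hcon
  push Not at hcon
  set T := Cm G A e c a b x with hT
  set K := kmp A e c a b with hK
  have h1 : ∑ v ∈ T, G.deg K v = 2 * (K.filter (fun g => G.s g ∈ T)).card := hand_closed cf_clo
  have h2 : ∑ v ∈ T, G.deg K v = T.card * (2 * d) := by
    rw [Finset.sum_congr rfl fun v hv => cf_deg h hv, Finset.sum_const, smul_eq_mul]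
  have h3 : (K.filter (fun g => G.s g ∈ T)).card ≤ G.deg K u := by
    unfold MG.deg
    refine Finset.card_le_card fun g hg => ?_
    rw [Finset.mem_filter] at hg ⊢
    refine ⟨hg.1, ?_⟩
    by_cases hs : G.s g = u
    · exact Or.inl hs
    · exact Or.inr (hcon g hg.1 hg.2 hs)
  rw [cf_deg h hu] at h3
  have hd0 : 0 < d := hd.pos
  have h4 : T.card * (2 * d) ≤ 2 * (2 * d) := by
    rw [← h2, h1]
    exact Nat.mul_le_mul_left 2 h3
  have h5 : T.card ≤ 2 := Nat.le_of_mul_le_mul_right h4 (by omega)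
  have h6 : Odd (d * T.card) := cm_odd h
  have h7 : Odd T.card := (Nat.odd_mul.1 h6).2
  have hxy : x ≠ y := by
    have hne := G.ne e
    rcases h.st.jn with ⟨j1, j2⟩ | ⟨j1, j2⟩
    · rw [j1, j2] at hne; exact hne
    · rw [j1, j2] at hne; exact hne.symm
  have h8 : 2 ≤ T.card := by
    rw [← Finset.card_pair hxy]
    refine Finset.card_le_card fun v hv => ?_
    rw [Finset.mem_insert, Finset.mem_singleton] at hv
    rcases hv with rfl | rfl
    · exact cf_x h
    · exact cf_y h
  have h9 : T.card = 2 := le_antisymm h5 h8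
  rw [h9] at h7
  exact absurd h7 (by decide)

theorem exit (hd : Odd d) (hdeg : ∀ v, G.deg A v + 1 ≤ k * d) (h : Cf G d A e c x y a b)
    (hclo : ∀ v ∈ Cm G A e c a b x, ∀ q ∈ G.miss d c (A.erase e) v, Clo G (cls (A.erase e) c q) (Cm G A e c a b x))
    {ga : Fin k} (hga : ∀ v ∈ Cm G A e c a b x, ga ∉ G.miss d c (A.erase e) v) {g1 g2 : E} (h12 : g1 ≠ g2)
    (m1 : g1 ∈ cls (A.erase e) c ga) (m2 : g2 ∈ cls (A.erase e) c ga)
    (l1 : ¬ (G.s g1 ∈ Cm G A e c a b x ↔ G.t g1 ∈ Cm G A e c a b x))
    (l2 : ¬ (G.s g2 ∈ Cm G A e c a b x ↔ G.t g2 ∈ Cm G A e c a b x)) :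
    ∃ (e' : E) (c' : E → Fin k) (x' y' : V), Cf G d A e' c' x' y' a b ∧ Cm G A e' c' a b x' = Cm G A e c a b x ∧
      ∃ u ∈ Cm G A e c a b x, ga ∈ G.miss d c' (A.erase e') u ∧ ¬ Clo G (cls (A.erase e') c' ga) (Cm G A e c a b x) := by
  have hgaa : ga ≠ a := by
    rintro rfl
    exact hga x (cf_x h) h.ha
  have hgab : ga ≠ b := by
    rintro rfl
    exact hga y (cf_y h) h.hb
  have hab : a ≠ b := (cf_root h).1
  obtain ⟨u, w, w1, g, L, t, hu, hw, hw1, hj, hg, hTr, hL, ht1, ht2⟩ := exit_trail h hga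
  obtain ⟨e1, he1, hs1, hs1u, ht1u⟩ := Exit_edge hd h hu
  have htT : G.t e1 ∈ Cm G A e c a b x := (cf_clo e1 he1).1 hs1
  obtain ⟨c1, hc1, hag, hkm, hcm, hout⟩ :=
    move h he1 (Or.inl ⟨rfl, rfl⟩ : G.joins e1 (G.s e1) (G.t e1)) hs1
  have hroot : G.s e ∈ Cm G A e c a b x ∧ G.t e ∈ Cm G A e c a b x := by
    rcases h.st.jn with ⟨j1, j2⟩ | ⟨j1, j2⟩
    · rw [j1, j2]; exact ⟨cf_x h, cf_y h⟩
    · rw [j1, j2]; exact ⟨cf_y h, cf_x h⟩
  have hcloa : Clo G (cls (A.erase e1) c1 a) (Cm G A e c a b x) := by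
    have := cf_clo_a (G := G) (A := A) (e := e1) (c := c1) (a := a) (b := b) (x := G.s e1)
    rwa [hcm] at this
  have hclob : Clo G (cls (A.erase e1) c1 b) (Cm G A e c a b x) := by
    have := cf_clo_b (G := G) (A := A) (e := e1) (c := c1) (a := a) (b := b) (x := G.s e1)
    rwa [hcm] at this
  obtain ⟨be, hbe⟩ := miss_ne hc1.st u (hdeg u)
  have hu1 : u ∈ Cm G A e1 c1 a b (G.s e1) := by rw [hcm]; exact hu
  obtain ⟨o1, o2⟩ := cf_other hc1 (Ne.symm hs1u) (Ne.symm ht1u) hu1
  have hbe' : G.dg c1 (A.erase e1) be u < d := miss_iff.1 hbe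
  have hbea : be ≠ a := by
    rintro rfl
    omega
  have hbeb : be ≠ b := by
    rintro rfl
    omega
  have hbec : be ∈ G.miss d c (A.erase e) u := (ag_miss hag hbea hbeb u).1 hbe
  have hbega : be ≠ ga := by
    rintro rfl
    exact hga u hu hbec
  have hclobe : Clo G (cls (A.erase e1) c1 be) (Cm G A e c a b x) := by
    rw [ag_cls hag hbea hbeb]
    exact hclo u hu be hbec
  have hgac : ∀ v, G.dg c1 (A.erase e1) ga v = G.dg c (A.erase e) ga v := ag_dg hag hgaa hgab
  -- the name of the component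
  generalize hTdef : Cm G A e c a b x = T at *
  have hcl1 : ∀ g', g' ∈ A.erase e1 → (c1 g' = a ∨ c1 g' = b ∨ c1 g' = be) → (G.s g' ∈ T ↔ G.t g' ∈ T) := by
    intro g' hg' hcol
    rcases hcol with hcol | hcol | hcol
    · exact hcloa g' (Finset.mem_filter.2 ⟨hg', hcol⟩)
    · exact hclob g' (Finset.mem_filter.2 ⟨hg', hcol⟩)
    · exact hclobe g' (Finset.mem_filter.2 ⟨hg', hcol⟩)
  -- step 5
  set C : Set V := {v | v ∉ T} with hC
  have hmC : ∀ v, v ∈ C ↔ v ∉ T := fun v => Iff.rfl
  have hswC : ∀ g' ∈ A.erase e1, c1 g' = a ∨ c1 g' = be → (G.s g' ∈ C ↔ G.t g' ∈ C) := by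
    intro g' hg' hcol
    rw [hmC, hmC]
    exact not_congr (hcl1 g' hg' (by tauto))
  have hst2 : G.St d A e1 (swp G c1 C a be) (G.s e1) (G.t e1) := swap_st hc1.st (Ne.symm hbea) hswC
  have hsd := fun v => swap_dg (G := G) (B := A.erase e1) (c := c1) (C := C) (Ne.symm hbea) hswC v
  obtain ⟨c2, hc2⟩ : ∃ c2, c2 = swp G c1 C a be := ⟨_, rfl⟩
  rw [← hc2] at hst2 hsd
  have hc2in : ∀ g', G.s g' ∈ T → G.t g' ∈ T → c2 g' = c1 g' := by
    intro g' i1 i2
    rw [hc2, swp, if_neg]
    rw [hmC, hmC]
    tauto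
  have hc2out : ∀ g', (G.s g' ∉ T ∨ G.t g' ∉ T) →
      c2 g' = if c1 g' = a then be else if c1 g' = be then a else c1 g' := by
    intro g' i1
    rw [hc2, swp, if_pos]
    rw [hmC, hmC]
    exact i1
  -- the trail
  have hgout : ∀ g' ∈ g :: L, (G.s g' ∉ T ∨ G.t g' ∉ T) := by
    intro g' hg'
    rcases List.mem_cons.1 hg' with rfl | hg'
    · rcases hj with ⟨j1, j2⟩ | ⟨j1, j2⟩
      · right; rw [j2]; exact hw1
      · left; rw [j1]; exact hw1
    · exact Or.inl (hL g' hg').1
  have hne1 : ∀ g', (G.s g' ∉ T ∨ G.t g' ∉ T) → g' ≠ e1 := by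
    rintro g' i1 rfl
    rcases i1 with i1 | i1
    · exact i1 hs1
    · exact i1 htT
  have hne0 : ∀ g', (G.s g' ∉ T ∨ G.t g' ∉ T) → g' ≠ e := by
    rintro g' i1 rfl
    rcases i1 with i1 | i1
    · exact i1 hroot.1
    · exact i1 hroot.2
  have hTr2 : G.Tr (two (A.erase e1) c2 be ga) (fun g => decide (c2 g = be)) u w false t (g :: L) := by
    refine Exit_tr_congr hTr fun g' hg' => ?_
    have i1 := hgout g' hg'
    have i2 := tr_sub hTr g' hg'
    unfold two at i2
    rw [Finset.mem_filter, Finset.mem_erase] at i2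
    have i3 : c1 g' = c g' := hout g' i1
    have i4 := hc2out g' i1
    rw [i3] at i4
    unfold two
    rw [Finset.mem_filter, Finset.mem_erase]
    rcases i2.2 with i5 | i5
    · rw [i5, if_pos rfl] at i4
      refine ⟨⟨⟨hne1 g' i1, i2.1.2⟩, Or.inl i4⟩, ?_⟩
      simp only [i4, i5]
    · rw [i5, if_neg hgaa, if_neg (Ne.symm hbega)] at i4
      refine ⟨⟨⟨hne1 g' i1, i2.1.2⟩, Or.inr i4⟩, ?_⟩
      simp only [i4, i5, decide_eq_false (Ne.symm hbega), decide_eq_false hgaa]
  have hfd := fun v => flip_dg hbega hTr2 v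
  obtain ⟨c3, hc3⟩ : ∃ c3, c3 = flp c2 be ga (g :: L) := ⟨_, rfl⟩
  rw [← hc3] at hfd
  have hc3n : ∀ g', g' ∉ g :: L → c3 g' = c2 g' := by
    intro g' hg'
    rw [hc3, flp, if_neg hg']
  have huw : u ≠ w := by
    rintro rfl
    exact hw hu
  have huC : u ∉ C := fun hh => hh hu
  have hd2u : G.dg c2 (A.erase e1) be u = G.dg c1 (A.erase e1) be u := (hsd u).2.1 huC be
  have hgaw : G.dg c2 (A.erase e1) ga w = G.dg c (A.erase e) ga w := by
    rw [(hsd w).2.2 ga hgaa (Ne.symm hbega), hgac]
  have hbew : G.dg c2 (A.erase e1) be w = G.dg c (A.erase e) a w := by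
    rw [((hsd w).1 hw).2]
    refine Exit_dg_congr fun g' hinc => ?_
    have i1 : G.s g' ∉ T ∨ G.t g' ∉ T := by
      rcases hinc with hinc | hinc
      · left; rw [hinc]; exact hw
      · right; rw [hinc]; exact hw
    rw [hout g' i1, Finset.mem_erase, Finset.mem_erase]
    have i2 := hne1 g' i1
    have i3 := hne0 g' i1
    tauto
  have hval : G.Valid d (A.erase e1) c3 := by
    intro q v
    obtain ⟨f1, f2, f3⟩ := hfd v
    by_cases hqb : q = be
    · rw [hqb]
      by_cases hvu : v = u
      · rw [if_pos hvu, if_neg (by rw [hvu]; exact huw)] at f1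
        rw [hvu] at f1 ⊢
        simp only [sgn] at f1
        rw [hd2u] at f1
        have : (G.dg c3 (A.erase e1) be u : ℤ) ≤ d := by
          rw [f1]
          have : (G.dg c1 (A.erase e1) be u : ℤ) < d := by exact_mod_cast hbe'
          simp only [Bool.false_eq_true, if_false, add_zero]
          omega
        exact_mod_cast this
      · rw [if_neg hvu, zero_add] at f1
        by_cases hvw : v = w
        · rw [if_pos hvw] at f1
          rw [hvw] at f1 ⊢
          have hv0 : (G.dg c2 (A.erase e1) be w : ℤ) ≤ d := by exact_mod_cast hst2.val be w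
          cases t with
          | true =>
            simp only [sgn, if_true] at f1
            have : (G.dg c3 (A.erase e1) be w : ℤ) ≤ d := by omega
            exact_mod_cast this
          | false =>
            simp only [sgn, Bool.false_eq_true, if_false] at f1
            have h5 : (G.dg c2 (A.erase e1) be w : ℤ) < d := by
              rw [hbew]
              exact_mod_cast ht2 rfl
            have : (G.dg c3 (A.erase e1) be w : ℤ) ≤ d := by omega
            exact_mod_cast this
        · rw [if_neg hvw, sub_zero] at f1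
          have h6 : G.dg c3 (A.erase e1) be v = G.dg c2 (A.erase e1) be v := by exact_mod_cast f1
          rw [h6]
          exact hst2.val be v
    · by_cases hqg : q = ga
      · rw [hqg]
        have hv0 : (G.dg c2 (A.erase e1) ga v : ℤ) ≤ d := by exact_mod_cast hst2.val ga v
        by_cases hvu : v = u
        · rw [if_pos hvu, if_neg (by rw [hvu]; exact huw)] at f2
          simp only [sgn, Bool.false_eq_true, if_false, add_zero] at f2
          have : (G.dg c3 (A.erase e1) ga v : ℤ) ≤ d := by omega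
          exact_mod_cast this
        · rw [if_neg hvu, zero_add] at f2
          by_cases hvw : v = w
          · rw [if_pos hvw] at f2
            cases t with
            | true =>
              simp only [sgn, if_true] at f2
              have h5 : (G.dg c2 (A.erase e1) ga v : ℤ) < d := by
                rw [hvw, hgaw]
                exact_mod_cast ht1 rfl
              have : (G.dg c3 (A.erase e1) ga v : ℤ) ≤ d := by omega
              exact_mod_cast this
            | false =>
              simp only [sgn, Bool.false_eq_true, if_false] at f2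
              have : (G.dg c3 (A.erase e1) ga v : ℤ) ≤ d := by omega
              exact_mod_cast this
          · rw [if_neg hvw, add_zero] at f2
            have h6 : G.dg c3 (A.erase e1) ga v = G.dg c2 (A.erase e1) ga v := by exact_mod_cast f2
            rw [h6]
            exact hst2.val ga v
      · rw [f3 q hqb hqg]
        exact hst2.val q v
  have hst3 : G.St d A e1 c3 (G.s e1) (G.t e1) := ⟨hst2.not, hst2.mem, hst2.jn, hval⟩
  have ha3 : a ∈ G.miss d c3 (A.erase e1) (G.s e1) := by
    rw [miss_iff, (hfd (G.s e1)).2.2 a (Ne.symm hbea) (Ne.symm hgaa),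
      (hsd (G.s e1)).2.1 (fun hh => hh hs1) a]
    exact miss_iff.1 hc1.ha
  have hb3 : b ∈ G.miss d c3 (A.erase e1) (G.t e1) := by
    rw [miss_iff, (hfd (G.t e1)).2.2 b (Ne.symm hbeb) (Ne.symm hgab),
      (hsd (G.t e1)).2.1 (fun hh => hh htT) b]
    exact miss_iff.1 hc1.hb
  have h3 : Cf G d A e1 c3 (G.s e1) (G.t e1) a b := ⟨hst3, ha3, hb3⟩
  -- edges with an end in T
  have hin3 : ∀ g', G.s g' ∈ T → G.t g' ∈ T → c3 g' = c1 g' := by
    intro g' i1 i2
    rw [hc3n g', hc2in g' i1 i2]
    intro hmem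
    rcases hgout g' hmem with i3 | i3
    · exact i3 i1
    · exact i3 i2
  -- leaving edges
  have hleave : ∀ g' ∈ A.erase e1, ¬ (G.s g' ∈ T ↔ G.t g' ∈ T) → c3 g' ≠ a ∧ c3 g' ≠ b := by
    intro g' hg' hl
    have i1 : c1 g' ≠ a := fun hh => hl (hcl1 g' hg' (Or.inl hh))
    have i2 : c1 g' ≠ b := fun hh => hl (hcl1 g' hg' (Or.inr (Or.inl hh)))
    have i3 : c1 g' ≠ be := fun hh => hl (hcl1 g' hg' (Or.inr (Or.inr hh)))
    have i4 : G.s g' ∉ T ∨ G.t g' ∉ T := by tauto
    have i5 := hc2out g' i4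
    rw [if_neg i1, if_neg i3] at i5
    by_cases hmem : g' ∈ g :: L
    · have i6 := tr_sub hTr2 g' hmem
      unfold two at i6
      rw [Finset.mem_filter] at i6
      have i7 : c2 g' = ga := by
        rcases i6.2 with i7 | i7
        · exact absurd (i5.symm.trans i7) i3
        · exact i7
      have i8 : c3 g' = be := by
        rw [hc3, flp, if_pos hmem, i7, if_neg (Ne.symm hbega)]
      rw [i8]
      exact ⟨hbea, hbeb⟩
    · rw [hc3n g' hmem, i5]
      exact ⟨i1, i2⟩
  have hclK : Clo G (kmp A e1 c3 a b) T := by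
    intro g' hg'
    unfold kmp at hg'
    rw [Finset.mem_insert, Finset.mem_filter] at hg'
    rcases hg' with rfl | hg'
    · exact ⟨fun _ => htT, fun _ => hs1⟩
    · by_contra hcon
      obtain ⟨i1, i2⟩ := hleave g' hg'.1 hcon
      rcases hg'.2 with i3 | i3
      · exact i1 i3
      · exact i2 i3
  have hclK1 : Clo G (kmp A e1 c1 a b) T := by
    have := cf_clo (G := G) (A := A) (e := e1) (c := c1) (a := a) (b := b) (x := G.s e1)
    rwa [hcm] at this
  have hcm3 : Cm G A e1 c3 a b (G.s e1) = T := by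
    rw [← hcm]
    ext v
    rw [mem_cm, mem_cm]
    constructor
    · intro hr
      refine (Exit_reach hclK (fun g' hg' i1 i2 => ?_) hs1 hr).2
      unfold kmp at hg' ⊢
      rw [Finset.mem_insert, Finset.mem_filter] at hg' ⊢
      rw [hin3 g' i1 i2] at hg'
      exact hg'
    · intro hr
      refine (Exit_reach hclK1 (fun g' hg' i1 i2 => ?_) hs1 hr).2
      unfold kmp at hg' ⊢
      rw [Finset.mem_insert, Finset.mem_filter] at hg' ⊢
      rw [hin3 g' i1 i2]
      exact hg'
  refine ⟨e1, c3, G.s e1, G.t e1, h3, hcm3, u, hu, ?_, ?_⟩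
  · rw [miss_iff]
    have f2 := (hfd u).2.1
    rw [if_pos rfl, if_neg huw] at f2
    simp only [sgn, Bool.false_eq_true, if_false, add_zero] at f2
    have hv0 : (G.dg c2 (A.erase e1) ga u : ℤ) ≤ d := by exact_mod_cast hst2.val ga u
    have : (G.dg c3 (A.erase e1) ga u : ℤ) < d := by omega
    exact_mod_cast this
  · have hfinal : ∀ g0, g0 ∈ cls (A.erase e) c ga → ¬ (G.s g0 ∈ T ↔ G.t g0 ∈ T) → g0 ≠ g →
        ¬ Clo G (cls (A.erase e1) c3 ga) T := by
      intro g0 i1 i2 i3 hcl
      unfold cls at i1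
      rw [Finset.mem_filter, Finset.mem_erase] at i1
      have i4 : G.s g0 ∉ T ∨ G.t g0 ∉ T := by tauto
      have i5 : g0 ∉ g :: L := by
        intro hmem
        rcases List.mem_cons.1 hmem with i6 | i6
        · exact i3 i6
        · obtain ⟨i7, i8⟩ := hL g0 i6
          exact i2 ⟨fun hh => absurd hh i7, fun hh => absurd hh i8⟩
      have i6 := hc2out g0 i4
      rw [hout g0 i4, i1.2, if_neg hgaa, if_neg (Ne.symm hbega)] at i6
      refine i2 (hcl g0 ?_)
      unfold cls
      rw [Finset.mem_filter, Finset.mem_erase]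
      exact ⟨⟨hne1 g0 i4, i1.1.2⟩, by rw [hc3n g0 i5, i6]⟩
    by_cases hg1 : g1 = g
    · exact hfinal g2 m2 l2 (fun hh => h12 (hg1.trans hh.symm))
    · exact hfinal g1 m1 l1 hg1

end Pool.Agent.H58.DG
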