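import Pool.Agent.H58.DG.Exit
import Pool.Agent.H58.DG.Closed

/-!
# The theorem

`colour_seven`: suppose not; take a minimal non-colourable edge set `A` (`fin_min`, `fin_empty` as in `colour_local`), an edge `e ∈ A`,
a colouring `c` of `A.erase e`, ends `x`, `y`, missing colours `a`, `b` (`miss_ne`): a configuration.  Among all configurations for
`A` choose one with the largest component, `P = |T|` (`Nat.find` or `Finset.exists_max_image` on the bounded set of sizes).
By `closed` `P` is `3` or `5` and all missing colours are closed on `T`.  Count the edges of `A` with both ends in `T`: the root `1`; each colour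
`q` missing in `T` is missing at exactly one vertex of `T` (`elem`) and simple (`elem_simple`), closed: `hand_closed` gives `(d P - 1) / 2`
edges; a colour `q` missing nowhere in `T` has degree `d` on `T`: `hand_sum` gives `2 · (inner edges) + (leaving edges) = d P`, odd.  If
for all such `q` the number of leaving edges is `1` then the total is `1 + k (d P - 1) / 2`, against `hden` for `T` (`d * P / 2 = (d P - 1) / 2`).
So some `q` has two leaving edges; `exit` gives a configuration with the same component in which a missing colour is not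
closed, against `closed`.
`matrix_seven`: transfer to matrices, as in `matrix_local` (`finG`, `fin_deg`, `fin_joins`).  For even `d` a
colouring exists already when all degrees are at most `k d` (Euler splitting): NOT needed, the theorem is stated for odd `d`.
-/

set_option autoImplicit false

open Finset
open scoped Classical

namespace Pool.Agent.H58.DG

open Pool.Agent.H77.Df

/-- a configuration with the largest component -/
private theorem final_max {V E : Type} [Fintype V] [Fintype E] {G : MG V E} {k d : ℕ} {A : Finset E} {e : E}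
    {c : E → Fin k} {x y : V} {a b : Fin k} (h : Cf G d A e c x y a b) :
    ∃ (P : ℕ) (e : E) (c : E → Fin k) (x y : V) (a b : Fin k), Cf G d A e c x y a b ∧ (Cm G A e c a b x).card = P ∧
      ∀ (e : E) (c : E → Fin k) (x y : V) (a b : Fin k), Cf G d A e c x y a b → (Cm G A e c a b x).card ≤ P := by
  let S : Set ℕ := {n | ∃ (e : E) (c : E → Fin k) (x y : V) (a b : Fin k), Cf G d A e c x y a b ∧
    (Cm G A e c a b x).card = n}
  have h1 : S.Nonempty := ⟨_, e, c, x, y, a, b, h, rfl⟩
  have h2 : BddAbove S := ⟨Fintype.card V, by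
    rintro n ⟨e, c, x, y, a, b, _, rfl⟩
    exact Finset.card_le_univ _⟩
  obtain ⟨e1, c1, x1, y1, a1, b1, h3, h4⟩ := Nat.sSup_mem h1 h2
  exact ⟨sSup S, e1, c1, x1, y1, a1, b1, h3, h4,
    fun e c x y a b h5 => le_csSup h2 ⟨e, c, x, y, a, b, h5, rfl⟩⟩

theorem colour_seven {V E : Type} [Fintype V] [Fintype E] (G : MG V E) (d k s : ℕ) (hd : Odd d) (hd3 : 3 ≤ d)
    (hs1 : 1 ≤ s) (hs : k ≤ 7 * s + 1) (hdeg : ∀ v, G.deg Finset.univ v + s ≤ k * d)
    (hden : ∀ X : Finset V, (X.card = 3 ∨ X.card = 5) →
      (Finset.univ.filter (fun g : E => G.s g ∈ X ∧ G.t g ∈ X)).card ≤ k * (d * X.card / 2)) :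
    G.Colourable d k Finset.univ := by
  by_contra hcon
  obtain ⟨A, hA, hmin⟩ := fin_min G d k _ Finset.univ rfl hcon
  have hdegA : ∀ v, G.deg A v + s ≤ k * d := fun v =>
    (Nat.add_le_add_right (fin_deg_mono G A v) s).trans (hdeg v)
  have hdeg1 : ∀ v, G.deg A v + 1 ≤ k * d := fun v => by have := hdegA v; omega
  have hne : A.Nonempty := by
    rw [Finset.nonempty_iff_ne_empty]
    rintro rfl
    exact hA (fin_empty G d k (fun v => by have := hdeg v; omega))
  obtain ⟨e0, he0⟩ := hne
  obtain ⟨c0, hc0⟩ := hmin e0 he0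
  have hst0 : G.St d A e0 c0 (G.s e0) (G.t e0) := ⟨hA, he0, Or.inl ⟨rfl, rfl⟩, hc0⟩
  obtain ⟨a0, ha0⟩ := miss_ne hst0 (G.s e0) (hdeg1 _)
  obtain ⟨b0, hb0⟩ := miss_ne hst0 (G.t e0) (hdeg1 _)
  obtain ⟨P, e, c, x, y, a, b, h, hc, hP⟩ := final_max (⟨hst0, ha0, hb0⟩ : Cf G d A e0 c0 _ _ a0 b0)
  obtain ⟨hP35, hclo⟩ := closed hs1 hs hdegA hd hd3 hP h hc
  set T := Cm G A e c a b x with hT
  have hdP : Odd (d * P) := by
    rw [← hc]
    exact cm_odd h
  obtain ⟨N, hN⟩ := hdP
  have hN2 : d * P / 2 = N := by omega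
  -- every colour has at least `N` edges in `T`
  have hq : ∀ q : Fin k, N ≤ ((cls (A.erase e) c q).filter (fun g => G.s g ∈ T ∧ G.t g ∈ T)).card := by
    intro q
    have hsum := hand_sum (G := G) (cls (A.erase e) c q) T
    have hdgq : ∀ v, G.deg (cls (A.erase e) c q) v = G.dg c (A.erase e) q v := fun _ => rfl
    by_cases hm : ∃ v ∈ T, q ∈ G.miss d c (A.erase e) v
    · obtain ⟨v, hv, hqv⟩ := hm
      have h1 := hclo v hv q hqv
      have h2 : ((cls (A.erase e) c q).filter (fun g => ¬ (G.s g ∈ T ↔ G.t g ∈ T))).card = 0 := by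
        rw [Finset.card_eq_zero, Finset.filter_eq_empty_iff]
        intro g hg h3
        exact h3 (h1 g hg)
      have h3 : ∑ u ∈ T, G.deg (cls (A.erase e) c q) u + 1 = d * T.card := by
        rw [← Finset.add_sum_erase T _ hv]
        have h4 : ∑ u ∈ T.erase v, G.deg (cls (A.erase e) c q) u = ∑ u ∈ T.erase v, d := by
          refine Finset.sum_congr rfl fun u hu => ?_
          rw [hdgq]
          by_contra hne
          have h5 : q ∈ G.miss d c (A.erase e) u := miss_iff.2 (lt_of_le_of_ne (h.st.val q u) hne)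
          exact elem hdeg1 h hv (Finset.mem_of_mem_erase hu) (Finset.ne_of_mem_erase hu).symm hqv h5
        rw [h4, Finset.sum_const, smul_eq_mul, Finset.card_erase_of_mem hv]
        have h5 : G.deg (cls (A.erase e) c q) v + 1 = d := elem_simple h hv hqv
        have h6 : 1 ≤ T.card := Finset.card_pos.2 ⟨v, hv⟩
        obtain ⟨n, hn⟩ := Nat.exists_eq_add_of_le h6
        rw [hn]
        have h7 : 1 + n - 1 = n := by omega
        rw [h7]
        nlinarith
      rw [hc] at h3
      omega
    · push Not at hm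
      have h3 : ∑ u ∈ T, G.deg (cls (A.erase e) c q) u = d * T.card := by
        have h4 : ∑ u ∈ T, G.deg (cls (A.erase e) c q) u = ∑ u ∈ T, d := by
          refine Finset.sum_congr rfl fun u hu => ?_
          rw [hdgq]
          by_contra hne
          exact hm u hu (miss_iff.2 (lt_of_le_of_ne (h.st.val q u) hne))
        rw [h4, Finset.sum_const, smul_eq_mul, mul_comm]
      rw [hc] at h3
      have h5 : ((cls (A.erase e) c q).filter (fun g => ¬ (G.s g ∈ T ↔ G.t g ∈ T))).card ≤ 1 := by
        by_contra hlt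
        obtain ⟨g1, hg1, g2, hg2, h12⟩ := Finset.one_lt_card.1 (not_le.1 hlt)
        rw [Finset.mem_filter] at hg1 hg2
        obtain ⟨e', c', x', y', h', hT', u, hu, hqu, hncl⟩ := exit hd hdeg1 h hclo hm h12 hg1.1 hg2.1 hg1.2 hg2.2
        have h6 := (closed hs1 hs hdegA hd hd3 hP h' (by rw [hT', hc])).2 u (by rw [hT']; exact hu) q hqu
        rw [hT'] at h6
        exact hncl h6
      omega
  -- counting
  have hin : (A.filter (fun g => G.s g ∈ T ∧ G.t g ∈ T)).card =
      ((A.erase e).filter (fun g => G.s g ∈ T ∧ G.t g ∈ T)).card + 1 := by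
    have h1 : e ∈ A.filter (fun g => G.s g ∈ T ∧ G.t g ∈ T) := by
      refine Finset.mem_filter.2 ⟨h.st.mem, ?_⟩
      rcases h.st.jn with ⟨h2, h3⟩ | ⟨h2, h3⟩
      · rw [h2, h3]
        exact ⟨cf_x h, cf_y h⟩
      · rw [h2, h3]
        exact ⟨cf_y h, cf_x h⟩
    rw [← Finset.card_erase_add_one h1, ← Finset.filter_erase]
  have hcol : ((A.erase e).filter (fun g => G.s g ∈ T ∧ G.t g ∈ T)).card =
      ∑ q : Fin k, ((cls (A.erase e) c q).filter (fun g => G.s g ∈ T ∧ G.t g ∈ T)).card := by
    rw [Finset.card_eq_sum_card_fiberwise (f := c) (s := (A.erase e).filter (fun g => G.s g ∈ T ∧ G.t g ∈ T))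
      (t := Finset.univ) (fun _ _ => Finset.mem_coe.2 (Finset.mem_univ _))]
    refine Finset.sum_congr rfl fun q _ => ?_
    unfold cls
    rw [Finset.filter_comm]
  have hge : k * N ≤ ∑ q : Fin k, ((cls (A.erase e) c q).filter (fun g => G.s g ∈ T ∧ G.t g ∈ T)).card := by
    calc k * N = ∑ q : Fin k, N := by rw [Finset.sum_const, Finset.card_univ, Fintype.card_fin, smul_eq_mul]
      _ ≤ _ := Finset.sum_le_sum fun q _ => hq q
  have hle := hden T (by rw [hc]; exact hP35)
  rw [hc, hN2] at hle
  have hmono : (A.filter (fun g => G.s g ∈ T ∧ G.t g ∈ T)).card ≤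
      (Finset.univ.filter (fun g : E => G.s g ∈ T ∧ G.t g ∈ T)).card :=
    Finset.card_le_card (Finset.filter_subset_filter _ (Finset.subset_univ A))
  omega

theorem matrix_seven (d n : ℕ) (m : Fin n → Fin n → ℕ) (hsym : ∀ i j, m i j = m j i) (h0 : ∀ i, m i i = 0) (k s : ℕ)
    (hd : Odd d) (hd3 : 3 ≤ d) (hs1 : 1 ≤ s) (hs : k ≤ 7 * s + 1) (hdeg : ∀ v : Fin n, (∑ u, m v u) + s ≤ k * d)
    (hden : ∀ X : Finset (Fin n), (X.card = 3 ∨ X.card = 5) → (∑ i ∈ X, ∑ j ∈ X, m i j) ≤ 2 * (k * (d * X.card / 2))) :
    ∃ c : Fin n → Fin n → Fin k → ℕ,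
      (∀ i j a, c i j a = c j i a) ∧ (∀ i j, ∑ a, c i j a = m i j) ∧ (∀ v a, ∑ u, c v u a ≤ d) := by
  have hdg := fin_deg n m hsym h0
  obtain ⟨f, hf⟩ := colour_seven (finG n m) d k s hd hd3 hs1 hs (fun v => by rw [hdg v]; exact hdeg v) (by
    intro X hX
    have h1 := hden X hX
    set F : Finset (FinE n m) := Finset.univ.filter (fun g => (finG n m).s g ∈ X ∧ (finG n m).t g ∈ X) with hF
    have hcl : Clo (finG n m) F X := by
      intro g hg
      have h2 := (Finset.mem_filter.1 hg).2
      exact ⟨fun _ => h2.2, fun _ => h2.1⟩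
    have h2 := hand_closed hcl
    have h3 : ∑ v ∈ X, (finG n m).deg F v = 2 * F.card := by
      refine h2.trans ?_
      congr 2
      ext g
      simp only [Finset.mem_filter, and_iff_left_iff_imp]
      intro h
      exact (Finset.mem_filter.1 h).2.1
    have h4 : ∑ v ∈ X, (finG n m).deg F v = ∑ v ∈ X, ∑ u ∈ X, m v u := by
      refine Finset.sum_congr rfl fun v hv => ?_
      rw [num_sum hcl hv]
      refine Finset.sum_congr rfl fun u hu => ?_
      rw [← fin_joins n m hsym h0 v u]
      unfold num
      congr 1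
      ext g
      simp only [hF, Finset.mem_filter, Finset.mem_univ, true_and]
      constructor
      · rintro ⟨_, h5⟩
        exact h5
      · intro h5
        refine ⟨?_, h5⟩
        rcases h5 with ⟨h6, h7⟩ | ⟨h6, h7⟩
        · rw [h6, h7]
          exact ⟨hv, hu⟩
        · rw [h6, h7]
          exact ⟨hu, hv⟩
    rw [h4] at h3
    have h5 : F.card ≤ k * (d * X.card / 2) := by omega
    refine le_trans (le_of_eq ?_) h5
    exact fin_card_inst _ _ _)
  refine ⟨fun i j a => (Finset.univ.filter
    (fun e : FinE n m => (finG n m).joins e i j ∧ f e = a)).card, ?_, ?_, ?_⟩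
  · intro i j a
    show (Finset.univ.filter (fun e : FinE n m => (finG n m).joins e i j ∧ f e = a)).card =
      (Finset.univ.filter (fun e : FinE n m => (finG n m).joins e j i ∧ f e = a)).card
    congr 1
    apply Finset.filter_congr
    intro e _
    rw [fin_joins_symm]
  · intro i j
    show ∑ a, (Finset.univ.filter
      (fun e : FinE n m => (finG n m).joins e i j ∧ f e = a)).card = m i j
    rw [← fin_joins n m hsym h0 i j]
    rw [Finset.card_eq_sum_card_fiberwise (f := f)
      (s := Finset.univ.filter (fun e : FinE n m => (finG n m).joins e i j))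
      (t := Finset.univ) (fun _ _ => Finset.mem_coe.2 (Finset.mem_univ _))]
    apply Finset.sum_congr rfl
    intro a _
    rw [Finset.filter_filter]
  · intro v a
    show ∑ u, (Finset.univ.filter
      (fun e : FinE n m => (finG n m).joins e v u ∧ f e = a)).card ≤ d
    have h1 := hf a v
    unfold MG.dg MG.deg at h1
    rw [fin_count] at h1
    refine le_trans (le_of_eq ?_) h1
    apply Finset.sum_congr rfl
    intro u _
    rw [Finset.filter_filter]
    congr 1
    apply Finset.filter_congr
    intro e _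
    exact and_comm

end Pool.Agent.H58.DG
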