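import Pool.Agent.H58.DG.Exit
import Pool.Agent.H58.DG.ClosedR

/-!
# The theorem with cores

`colour_core`, `matrix_core`: as `colour_seven`, `matrix_seven` (Final.lean); the conditions on sets of `3` or `5` vertices and on sets of at
least `7` vertices are only needed for cores: vertex sets, of odd order, of connected `2 d`-regular submultigraphs.
-/

set_option autoImplicit false

open Finset
open scoped Classical

namespace Pool.Agent.H58.DG

open Pool.Agent.H77.Df

/-- a configuration with the largest component -/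
private theorem finalr_max {V E : Type} [Fintype V] [Fintype E] {G : MG V E} {k d : ℕ} {A : Finset E} {e : E}
    {c : E → Fin k} {x y : V} {a b : Fin k} (h : Cf G d A e c x y a b) :
    ∃ (P : ℕ) (e : E) (c : E → Fin k) (x y : V) (a b : Fin k), Cf G d A e c x y a b ∧ (Cm G A e c a b x).card = P ∧
      ∀ (e : E) (c : E → Fin k) (x y : V) (a b : Fin k), Cf G d A e c x y a b → (Cm G A e c a b x).card ≤ P := by
  let S : Set ℕ := {n | ∃ (e : E) (c : E → Fin k) (x y : V) (a b : Fin k), Cf G d A e c x y a b ∧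
    (Cm G A e c a b x).card = n}
  have h1 : S.Nonempty := ⟨_, e, c, x, y, a, b, h, rfl⟩
  have h2 : BddAbove S := ⟨Fintype.card V, by
    rintro n ⟨e, c, x, y, a, b, _, rfl⟩
    exact Finset.card_le_univ _⟩
  obtain ⟨e1, c1, x1, y1, a1, b1, h3, h4⟩ := Nat.sSup_mem h1 h2
  exact ⟨sSup S, e1, c1, x1, y1, a1, b1, h3, h4,
    fun e c x y a b h5 => le_csSup h2 ⟨e, c, x, y, a, b, h5, rfl⟩⟩

theorem colour_core {V E : Type} [Fintype V] [Fintype E] (G : MG V E) (d k : ℕ) (hd : Odd d) (hd3 : 3 ≤ d)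
    (hdeg : ∀ v, G.deg Finset.univ v + 1 ≤ k * d)
    (hden : ∀ X : Finset V, Core G d Finset.univ X → (X.card = 3 ∨ X.card = 5) →
      (inn G Finset.univ X).card ≤ k * (d * X.card / 2))
    (hbig : ∀ X : Finset V, Core G d Finset.univ X → 7 ≤ X.card →
      k ≤ (∑ v ∈ X, (k * d - G.deg Finset.univ v)) + 1) :
    G.Colourable d k Finset.univ := by
  by_contra hcon
  obtain ⟨A, hA, hmin⟩ := fin_min G d k _ Finset.univ rfl hcon
  have hdeg1 : ∀ v, G.deg A v + 1 ≤ k * d := fun v =>
    (Nat.add_le_add_right (fin_deg_mono G A v) 1).trans (hdeg v)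
  have hC : ∀ X : Finset V, 7 ≤ X.card → Core G d A X → k ≤ (∑ v ∈ X, (k * d - G.deg A v)) + 1 := by
    intro X h7 hX
    refine (hbig X (core_mono (Finset.subset_univ A) hX) h7).trans ?_
    exact Nat.add_le_add_right (Finset.sum_le_sum fun v _ => Nat.sub_le_sub_left (fin_deg_mono G A v) _) 1
  have hne : A.Nonempty := by
    rw [Finset.nonempty_iff_ne_empty]
    rintro rfl
    exact hA (fin_empty G d k hdeg)
  obtain ⟨e0, he0⟩ := hne
  obtain ⟨c0, hc0⟩ := hmin e0 he0
  have hst0 : G.St d A e0 c0 (G.s e0) (G.t e0) := ⟨hA, he0, Or.inl ⟨rfl, rfl⟩, hc0⟩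
  obtain ⟨a0, ha0⟩ := miss_ne hst0 (G.s e0) (hdeg1 _)
  obtain ⟨b0, hb0⟩ := miss_ne hst0 (G.t e0) (hdeg1 _)
  obtain ⟨P, e, c, x, y, a, b, h, hc, hP⟩ := finalr_max (⟨hst0, ha0, hb0⟩ : Cf G d A e0 c0 _ _ a0 b0)
  obtain ⟨hP35, hclo⟩ := closedr hdeg1 hC hd hd3 hP h hc
  set T := Cm G A e c a b x with hT
  have hdP : Odd (d * P) := by
    rw [← hc]
    exact cm_odd h
  obtain ⟨N, hN⟩ := hdP
  have hN2 : d * P / 2 = N := by omega
  -- every colour has at least `N` edges in `T`
  have hq : ∀ q : Fin k, N ≤ ((cls (A.erase e) c q).filter (fun g => G.s g ∈ T ∧ G.t g ∈ T)).card := by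
    intro q
    have hsum := hand_sum (G := G) (cls (A.erase e) c q) T
    have hdgq : ∀ v, G.deg (cls (A.erase e) c q) v = G.dg c (A.erase e) q v := fun _ => rfl
    by_cases hm : ∃ v ∈ T, q ∈ G.miss d c (A.erase e) v
    · obtain ⟨v, hv, hqv⟩ := hm
      have h1 := hclo v hv q hqv
      have h2 : ((cls (A.erase e) c q).filter (fun g => ¬ (G.s g ∈ T ↔ G.t g ∈ T))).card = 0 := by
        rw [Finset.card_eq_zero, Finset.filter_eq_empty_iff]
        intro g hg h3
        exact h3 (h1 g hg)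
      have h3 : ∑ u ∈ T, G.deg (cls (A.erase e) c q) u + 1 = d * T.card := by
        rw [← Finset.add_sum_erase T _ hv]
        have h4 : ∑ u ∈ T.erase v, G.deg (cls (A.erase e) c q) u = ∑ u ∈ T.erase v, d := by
          refine Finset.sum_congr rfl fun u hu => ?_
          rw [hdgq]
          by_contra hne
          have h5 : q ∈ G.miss d c (A.erase e) u := miss_iff.2 (lt_of_le_of_ne (h.st.val q u) hne)
          exact elem hdeg1 h hv (Finset.mem_of_mem_erase hu) (Finset.ne_of_mem_erase hu).symm hqv h5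
        rw [h4, Finset.sum_const, smul_eq_mul, Finset.card_erase_of_mem hv]
        have h5 : G.deg (cls (A.erase e) c q) v + 1 = d := elem_simple h hv hqv
        have h6 : 1 ≤ T.card := Finset.card_pos.2 ⟨v, hv⟩
        obtain ⟨n, hn⟩ := Nat.exists_eq_add_of_le h6
        rw [hn]
        have h7 : 1 + n - 1 = n := by omega
        rw [h7]
        nlinarith
      rw [hc] at h3
      omega
    · push Not at hm
      have h3 : ∑ u ∈ T, G.deg (cls (A.erase e) c q) u = d * T.card := by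
        have h4 : ∑ u ∈ T, G.deg (cls (A.erase e) c q) u = ∑ u ∈ T, d := by
          refine Finset.sum_congr rfl fun u hu => ?_
          rw [hdgq]
          by_contra hne
          exact hm u hu (miss_iff.2 (lt_of_le_of_ne (h.st.val q u) hne))
        rw [h4, Finset.sum_const, smul_eq_mul, mul_comm]
      rw [hc] at h3
      have h5 : ((cls (A.erase e) c q).filter (fun g => ¬ (G.s g ∈ T ↔ G.t g ∈ T))).card ≤ 1 := by
        by_contra hlt
        obtain ⟨g1, hg1, g2, hg2, h12⟩ := Finset.one_lt_card.1 (not_le.1 hlt)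
        rw [Finset.mem_filter] at hg1 hg2
        obtain ⟨e', c', x', y', h', hT', u, hu, hqu, hncl⟩ := exit hd hdeg1 h hclo hm h12 hg1.1 hg2.1 hg1.2 hg2.2
        have h6 := (closedr hdeg1 hC hd hd3 hP h' (by rw [hT', hc])).2 u (by rw [hT']; exact hu) q hqu
        rw [hT'] at h6
        exact hncl h6
      omega
  -- counting
  have hin : (A.filter (fun g => G.s g ∈ T ∧ G.t g ∈ T)).card =
      ((A.erase e).filter (fun g => G.s g ∈ T ∧ G.t g ∈ T)).card + 1 := by
    have h1 : e ∈ A.filter (fun g => G.s g ∈ T ∧ G.t g ∈ T) := by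
      refine Finset.mem_filter.2 ⟨h.st.mem, ?_⟩
      rcases h.st.jn with ⟨h2, h3⟩ | ⟨h2, h3⟩
      · rw [h2, h3]
        exact ⟨cf_x h, cf_y h⟩
      · rw [h2, h3]
        exact ⟨cf_y h, cf_x h⟩
    rw [← Finset.card_erase_add_one h1, ← Finset.filter_erase]
  have hcol : ((A.erase e).filter (fun g => G.s g ∈ T ∧ G.t g ∈ T)).card =
      ∑ q : Fin k, ((cls (A.erase e) c q).filter (fun g => G.s g ∈ T ∧ G.t g ∈ T)).card := by
    rw [Finset.card_eq_sum_card_fiberwise (f := c) (s := (A.erase e).filter (fun g => G.s g ∈ T ∧ G.t g ∈ T))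
      (t := Finset.univ) (fun _ _ => Finset.mem_coe.2 (Finset.mem_univ _))]
    refine Finset.sum_congr rfl fun q _ => ?_
    unfold cls
    rw [Finset.filter_comm]
  have hge : k * N ≤ ∑ q : Fin k, ((cls (A.erase e) c q).filter (fun g => G.s g ∈ T ∧ G.t g ∈ T)).card := by
    calc k * N = ∑ q : Fin k, N := by rw [Finset.sum_const, Finset.card_univ, Fintype.card_fin, smul_eq_mul]
      _ ≤ _ := Finset.sum_le_sum fun q _ => hq q
  have hle := hden T (core_mono (Finset.subset_univ A) (core_cm h)) (by rw [hc]; exact hP35)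
  rw [hc, hN2] at hle
  have hmono : (A.filter (fun g => G.s g ∈ T ∧ G.t g ∈ T)).card ≤
      (inn G Finset.univ T).card :=
    Finset.card_le_card (Finset.filter_subset_filter _ (Finset.subset_univ A))
  omega

theorem inn_deg (n : ℕ) (m : Fin n → Fin n → ℕ) (hsym : ∀ i j, m i j = m j i) (h0 : ∀ i, m i i = 0) (X : Finset (Fin n))
    {v : Fin n} (hv : v ∈ X) : (finG n m).deg (inn (finG n m) Finset.univ X) v = ∑ u ∈ X, m v u := by
  rw [inn_num hv]
  refine Finset.sum_congr rfl fun u _ => ?_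
  rw [← fin_joins n m hsym h0 v u]
  rfl

theorem inn_card (n : ℕ) (m : Fin n → Fin n → ℕ) (hsym : ∀ i j, m i j = m j i) (h0 : ∀ i, m i i = 0)
    (X : Finset (Fin n)) : 2 * (inn (finG n m) Finset.univ X).card = ∑ i ∈ X, ∑ j ∈ X, m i j := by
  rw [← inn_hand]
  exact Finset.sum_congr rfl fun v hv => inn_deg n m hsym h0 X hv

/-- cores of a multiplicity matrix -/
def MCore (d : ℕ) {n : ℕ} (m : Fin n → Fin n → ℕ) (X : Finset (Fin n)) : Prop :=
  Odd X.card ∧ ∃ r : Fin n → Fin n → ℕ, (∀ i j, r i j = r j i) ∧ (∀ i j, r i j ≤ m i j) ∧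
    (∀ i ∈ X, ∑ j ∈ X, r i j = 2 * d) ∧ ∀ Y ⊆ X, Y.Nonempty → Y ≠ X → ∃ i ∈ Y, ∃ j ∈ X, j ∉ Y ∧ r i j ≠ 0

theorem core_mat (d n : ℕ) (m : Fin n → Fin n → ℕ) (hsym : ∀ i j, m i j = m j i) (h0 : ∀ i, m i i = 0)
    {X : Finset (Fin n)} (h : Core (finG n m) d Finset.univ X) : MCore d m X := by
  obtain ⟨h1, K, _, h3, h4, h5⟩ := h
  refine ⟨h1, num (finG n m) K, fun i j => num_comm _ _ _, fun i j => ?_, fun i hi => ?_, fun Y hY hn hne => ?_⟩
  · rw [← fin_joins n m hsym h0 i j]
    exact Finset.card_le_card (Finset.filter_subset_filter _ (Finset.subset_univ K))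
  · rw [← num_sum h4 hi]
    exact h3 i hi
  · obtain ⟨i, hi, j, hj, hj2, g, hg, hij⟩ := h5 Y hY hn hne
    exact ⟨i, hi, j, hj, hj2, (num_pos.2 ⟨g, hg, hij⟩).ne'⟩

theorem matrix_core (d n : ℕ) (m : Fin n → Fin n → ℕ) (hsym : ∀ i j, m i j = m j i) (h0 : ∀ i, m i i = 0) (k : ℕ)
    (hd : Odd d) (hd3 : 3 ≤ d) (hdeg : ∀ v : Fin n, (∑ u, m v u) + 1 ≤ k * d)
    (hden : ∀ X : Finset (Fin n), MCore d m X → (X.card = 3 ∨ X.card = 5) →
      (∑ i ∈ X, ∑ j ∈ X, m i j) ≤ 2 * (k * (d * X.card / 2)))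
    (hbig : ∀ X : Finset (Fin n), MCore d m X → 7 ≤ X.card → k ≤ (∑ v ∈ X, (k * d - ∑ u, m v u)) + 1) :
    ∃ c : Fin n → Fin n → Fin k → ℕ,
      (∀ i j a, c i j a = c j i a) ∧ (∀ i j, ∑ a, c i j a = m i j) ∧ (∀ v a, ∑ u, c v u a ≤ d) := by
  have hdg := fin_deg n m hsym h0
  obtain ⟨f, hf⟩ := colour_core (finG n m) d k hd hd3 (fun v => by rw [hdg v]; exact hdeg v) (by
    intro X hX h35
    have h1 := hden X (core_mat d n m hsym h0 hX) h35
    have h2 := inn_card n m hsym h0 X
    omega) (by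
    intro X hX h7
    refine (hbig X (core_mat d n m hsym h0 hX) h7).trans (le_of_eq ?_)
    congr 1
    exact Finset.sum_congr rfl fun v _ => by rw [hdg v])
  refine ⟨fun i j a => (Finset.univ.filter
    (fun e : FinE n m => (finG n m).joins e i j ∧ f e = a)).card, ?_, ?_, ?_⟩
  · intro i j a
    show (Finset.univ.filter (fun e : FinE n m => (finG n m).joins e i j ∧ f e = a)).card =
      (Finset.univ.filter (fun e : FinE n m => (finG n m).joins e j i ∧ f e = a)).card
    congr 1
    apply Finset.filter_congr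
    intro e _
    rw [fin_joins_symm]
  · intro i j
    show ∑ a, (Finset.univ.filter
      (fun e : FinE n m => (finG n m).joins e i j ∧ f e = a)).card = m i j
    rw [← fin_joins n m hsym h0 i j]
    rw [Finset.card_eq_sum_card_fiberwise (f := f)
      (s := Finset.univ.filter (fun e : FinE n m => (finG n m).joins e i j))
      (t := Finset.univ) (fun _ _ => Finset.mem_coe.2 (Finset.mem_univ _))]
    apply Finset.sum_congr rfl
    intro a _
    rw [Finset.filter_filter]
  · intro v a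
    show ∑ u, (Finset.univ.filter
      (fun e : FinE n m => (finG n m).joins e v u ∧ f e = a)).card ≤ d
    have h1 := hf a v
    unfold MG.dg MG.deg at h1
    rw [fin_count] at h1
    refine le_trans (le_of_eq ?_) h1
    apply Finset.sum_congr rfl
    intro u _
    rw [Finset.filter_filter]
    congr 1
    apply Finset.filter_congr
    intro e _
    exact and_comm

end Pool.Agent.H58.DG
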