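import Pool.Agent.H58.DG.Elem

/-!
# Unions of two components

Two configurations with the same root `e`, colouring `c`, ends `x`, `y`: pairs `a, b` and `a', b` (`a ≠ a'`), and a colour `al`
different from `a, a', b` missing at `x` or at `y`.  Then no colour is missing at two different vertices of `Cm a b ∪ Cm a' b`.
Proof: let `ga` be missing at `q ≠ r`.  If both are in `Cm a b` or both in `Cm a' b` use `elem`.  So let `q ∈ Cm a b`,
`q ∉ Cm a' b`, `r ∈ Cm a' b`, `r ∉ Cm a b` (or exchange).  Then `q, r ≠ x, y`; `ga ≠ a, b` by `cf_other` at `q`, `ga ≠ a', b` by `cf_other` at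
`r`.  Let `o ∈ {x, y}` be the owner of `al`.  By `elem` `ga` is not missing at `o` and `al` is not missing at `q`, `r` (not needed),
so `al ≠ ga`.  `step` for the configuration `(a, b)` gives `c'` with `al` missing at `o` and at `q` or at `r`.  As `c'` has the same
edges as `c` in all colours except `al`, `ga`, it is also a configuration for the pair `a', b` with the same
`kmp A e c' a' b = kmp A e c a' b`.  Now `elem` for `(a, b)` (`o, q`) or for `(a', b)` (`o, r`) gives a contradiction.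
-/

set_option autoImplicit false

open Finset
open scoped Classical

namespace Pool.Agent.H58.DG

open Pool.Agent.H77.Df

variable {V E : Type} [Fintype V] [Fintype E] {G : MG V E} {k d : ℕ} {A : Finset E} {e : E} {c : E → Fin k}
  {x y : V} {a a' b : Fin k}

/-- transfer of a configuration to a colouring which agrees in all colours except `al`, `ga` -/
theorem cf_transfer (h : Cf G d A e c x y a b) {c' : E → Fin k} {al ga : Fin k} (hv : G.Valid d (A.erase e) c')
    (hag : Ag A e c e c' al ga) (h1 : a ≠ al) (h2 : a ≠ ga) (h3 : b ≠ al) (h4 : b ≠ ga) :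
    Cf G d A e c' x y a b ∧ kmp A e c' a b = kmp A e c a b := by
  refine ⟨⟨⟨h.st.not, h.st.mem, h.st.jn, hv⟩, (ag_miss hag h1 h2 x).2 h.ha, (ag_miss hag h3 h4 y).2 h.hb⟩, ?_⟩
  unfold kmp
  congr 1
  ext g
  simp only [Finset.mem_filter]
  have ea := hag a h1 h2 g
  have eb := hag b h3 h4 g
  tauto

private theorem union_cm {c' : E → Fin k} (hk : kmp A e c' a b = kmp A e c a b) (v : V) :
    v ∈ Cm G A e c' a b x ↔ v ∈ Cm G A e c a b x := by
  rw [mem_cm, mem_cm, hk]

private theorem union_aux (hdeg : ∀ v, G.deg A v + 1 ≤ k * d) (h : Cf G d A e c x y a b)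
    (h' : Cf G d A e c x y a' b) {al : Fin k} (h1 : al ≠ a) (h2 : al ≠ a') (h3 : al ≠ b)
    (hal : al ∈ G.miss d c (A.erase e) x ∨ al ∈ G.miss d c (A.erase e) y) {q r : V}
    (hq : q ∈ Cm G A e c a b x) (hq' : q ∉ Cm G A e c a' b x) (hr : r ∈ Cm G A e c a' b x)
    (hr' : r ∉ Cm G A e c a b x) (hqr : q ≠ r)
    {ga : Fin k} (g1 : ga ∈ G.miss d c (A.erase e) q) (g2 : ga ∈ G.miss d c (A.erase e) r) : False := by
  have hqx : q ≠ x := by intro hc; rw [hc] at hq'; exact hq' (cf_x h')
  have hqy : q ≠ y := by intro hc; rw [hc] at hq'; exact hq' (cf_y h')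
  have hrx : r ≠ x := by intro hc; rw [hc] at hr'; exact hr' (cf_x h)
  have hry : r ≠ y := by intro hc; rw [hc] at hr'; exact hr' (cf_y h)
  obtain ⟨oq1, oq2⟩ := cf_other h hqx hqy hq
  obtain ⟨or1, or2⟩ := cf_other h' hrx hry hr
  rw [miss_iff] at g1 g2
  have hga : ga ≠ a := by rintro rfl; omega
  have hgb : ga ≠ b := by rintro rfl; omega
  have hga' : ga ≠ a' := by rintro rfl; omega
  rw [← miss_iff] at g1 g2
  obtain ⟨o, ho, ho', hoq, hor, hmo⟩ : ∃ o, o ∈ Cm G A e c a b x ∧ o ∈ Cm G A e c a' b x ∧ o ≠ q ∧ o ≠ r ∧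
      al ∈ G.miss d c (A.erase e) o := by
    rcases hal with hal | hal
    · exact ⟨x, cf_x h, cf_x h', hqx.symm, hrx.symm, hal⟩
    · exact ⟨y, cf_y h, cf_y h', hqy.symm, hry.symm, hal⟩
  have hne : al ≠ ga := by
    rintro rfl
    exact elem hdeg h ho hq hoq hmo g1
  obtain ⟨c', hc1, hk, hag, hm1, hm2⟩ := step h hne h1 h3 hga hgb hoq hor hqr hmo g1 g2
  rcases hm2 with hm2 | hm2
  · exact elem hdeg hc1 ((union_cm hk o).2 ho) ((union_cm hk q).2 hq) hoq hm1 hm2
  · obtain ⟨hc2, hk2⟩ := cf_transfer h' hc1.st.val hag h2.symm hga'.symm h3.symm hgb.symm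
    exact elem hdeg hc2 ((union_cm hk2 o).2 ho') ((union_cm hk2 r).2 hr) hor hm1 hm2

theorem union (hdeg : ∀ v, G.deg A v + 1 ≤ k * d) (h : Cf G d A e c x y a b) (h' : Cf G d A e c x y a' b)
    (haa : a ≠ a') {al : Fin k} (h1 : al ≠ a) (h2 : al ≠ a') (h3 : al ≠ b)
    (hal : al ∈ G.miss d c (A.erase e) x ∨ al ∈ G.miss d c (A.erase e) y) {q r : V}
    (hq : q ∈ Cm G A e c a b x ∪ Cm G A e c a' b x) (hr : r ∈ Cm G A e c a b x ∪ Cm G A e c a' b x) (hqr : q ≠ r)
    {ga : Fin k} (g1 : ga ∈ G.miss d c (A.erase e) q) (g2 : ga ∈ G.miss d c (A.erase e) r) : False := by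
  have _ := haa
  by_cases q1 : q ∈ Cm G A e c a b x
  · by_cases r1 : r ∈ Cm G A e c a b x
    · exact elem hdeg h q1 r1 hqr g1 g2
    · have r2 : r ∈ Cm G A e c a' b x := by
        rcases Finset.mem_union.1 hr with h0 | h0
        · exact absurd h0 r1
        · exact h0
      by_cases q2 : q ∈ Cm G A e c a' b x
      · exact elem hdeg h' q2 r2 hqr g1 g2
      · exact union_aux hdeg h h' h1 h2 h3 hal q1 q2 r2 r1 hqr g1 g2
  · have q2 : q ∈ Cm G A e c a' b x := by
      rcases Finset.mem_union.1 hq with h0 | h0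
      · exact absurd h0 q1
      · exact h0
    by_cases r2 : r ∈ Cm G A e c a' b x
    · exact elem hdeg h' q2 r2 hqr g1 g2
    · have r1 : r ∈ Cm G A e c a b x := by
        rcases Finset.mem_union.1 hr with h0 | h0
        · exact h0
        · exact absurd h0 r2
      exact union_aux hdeg h h' h1 h2 h3 hal r1 r2 q2 q1 hqr.symm g2 g1

/-- the intersection of the two components has odd order -/
theorem inter_odd (h : Cf G d A e c x y a b) (h' : Cf G d A e c x y a' b) :
    Odd (d * (Cm G A e c a b x ∩ Cm G A e c a' b x).card) := by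
  apply clo_odd h Finset.inter_subset_left (Finset.mem_inter.2 ⟨cf_y h, cf_y h'⟩)
  intro g hg
  have i1 := (cf_clo_b (G := G) (A := A) (e := e) (c := c) (x := x) (a := a) (b := b)) g hg
  have i2 := (cf_clo_b (G := G) (A := A) (e := e) (c := c) (x := x) (a := a') (b := b)) g hg
  rw [Finset.mem_inter, Finset.mem_inter, i1, i2]

end Pool.Agent.H58.DG
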