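import Pool.Agent.H58.DG.Flip
import Pool.Agent.H58.DG.Union

/-!
# Five vertices: a crossing edge of colour `b`

Let `d ≥ 3` be odd, `h : Cf G d A e c x y a b`, `T = Cm` with `5` elements, `I ⊆ T` with `3` elements, `x, y ∈ I`.  Suppose all edges of
`kmp` at `x` stay in `I` and `I` is closed under the colour `b`.  Then there is a configuration `(e, c', x, y, a, b)` with the same
`kmp`, the same edges in all colours except `a`, `b`, such that `I` is not closed under the colour `b`.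
Proof.  `I = {x, y, j}`, `T = I ∪ {r, r'}`.  All numbers of edges are `num G (cls (A.erase e) c a) u v` etc. (`num_sum` for the closed
set `T`, and for the closed set `I` and colour `b`), degrees by `cf_root`, `cf_other`.
Colour `b`: in `I`: `b(xy) + b(xj) = d`, `b(xy) + b(yj) = d - 1`, `b(xj) + b(yj) = d`, so `b(yj) = b(xy) = (d - 1) / 2 ≥ 1`, `b(xj) ≥ 1`;
`b(rr') = d`.
Colour `a`: no edge between `x` and `{r, r'}`; `a(xy) + a(xj) = d - 1`; `a(ry) + a(rj) + a(rr') = d`, `a(r'y) + a(r'j) + a(rr') = d`;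
`a(yx) + a(yj) + a(yr) + a(yr') = d`, `a(jx) + a(jy) + a(jr) + a(jr') = d`.  `T` is connected in `kmp`, so there is an edge of
`kmp` between `I` and `{r, r'}`; it has colour `a`; so `a(ry) + a(rj) = a(r'y) + a(r'j) ≥ 1`.
Case 1: `a(yr) ≥ 1` and `a(jr') ≥ 1` (or with `r`, `r'` exchanged): closed trail `y -a- r -b- r' -a- j -b- y`.
Case 2: otherwise all edges of colour `a` between `I` and `{r, r'}` are at one `w ∈ {y, j}`, with `a(wr) = a(wr') ≥ 1`; let `w'` be the other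
one; then `a(w'x) ≥ 1` by the equations; closed trail `w -a- r -b- r' -a- w -b- w' -a- x -b- w`.
Flip it (`flip_closed`): an edge of `I × {r, r'}` gets the colour `b`.
-/

set_option autoImplicit false

open Finset
open scoped Classical

namespace Pool.Agent.H58.DG

open Pool.Agent.H77.Df

variable {V E : Type} [Fintype V] [Fintype E] {G : MG V E} {k d : ℕ} {A : Finset E} {e : E} {c : E → Fin k}
  {x y : V} {a b : Fin k}

omit [Fintype V] [Fintype E] in
private theorem Five_ne {g g' : E} {u v u' v' : V} (hg : G.joins g u v) (hg' : G.joins g' u' v') (h1 : u ≠ u') (h2 : u ≠ v') : g ≠ g' := by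
  rintro rfl
  have h3 : G.inc g u := (joins_inc hg).2 (Or.inl rfl)
  rcases (joins_inc hg').1 h3 with h4 | h4
  · exact h1 h4
  · exact h2 h4

omit [Fintype V] [Fintype E] in
private theorem Five_cons {F : Finset E} {f : E → Bool} {u w v : V} {s b' : Bool} {L : List E} {g : E} (hg : g ∈ F) (hj : G.joins g u w)
    (hL : g ∉ L) (hs : f g = s) (h : G.Tr F f w v (!s) b' L) : G.Tr F f u v s b' (g :: L) := by
  subst hs
  exact MG.Tr.cons g u w v b' L hg hj hL h

omit [Fintype V] [Fintype E] in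
private theorem Five_one {F : Finset E} {f : E → Bool} {u v : V} {s : Bool} {g : E} (hg : g ∈ F) (hj : G.joins g u v) (hs : f g = s) :
    G.Tr F f u v s s [g] := by
  subst hs
  exact MG.Tr.one g u v hg hj

omit [Fintype V] [Fintype E] in
private theorem Five_cls {B : Finset E} {q : Fin k} {g : E} : g ∈ cls B c q ↔ g ∈ B ∧ c g = q := by
  unfold cls
  rw [mem_filter]

omit [Fintype V] [Fintype E] in
private theorem Five_two {B : Finset E} {g : E} : g ∈ two B c a b ↔ g ∈ B ∧ (c g = a ∨ c g = b) := by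
  unfold two
  rw [mem_filter]

/-- the conclusion from a closed trail -/
private theorem Five_fin (h : Cf G d A e c x y a b) {I : Finset V} {u w : V} {L : List E} {g : E}
    (hL : G.Tr (two (A.erase e) c a b) (fun g => decide (c g = a)) u u true false (g :: L)) (hg : g ∈ cls (A.erase e) c a)
    (hj : G.joins g u w) (hu : u ∈ I) (hw : w ∉ I) :
    ∃ c', Cf G d A e c' x y a b ∧ kmp A e c' a b = kmp A e c a b ∧ Ag A e c e c' a b ∧
      ¬ Clo G (cls (A.erase e) c' b) I := by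
  have h1 := flip_closed h (s := true) hL
  refine ⟨_, h1.1, h1.2.1, h1.2.2, fun hc => ?_⟩
  have h2 : g ∈ cls (A.erase e) (flp c a b (g :: L)) b := by
    rw [Five_cls] at hg ⊢
    refine ⟨hg.1, ?_⟩
    unfold flp
    rw [if_pos List.mem_cons_self, if_pos hg.2]
  have h3 := hc g h2
  rcases hj with ⟨h4, h5⟩ | ⟨h4, h5⟩
  · rw [h4, h5] at h3
    exact hw (h3.1 hu)
  · rw [h4, h5] at h3
    exact hw (h3.2 hu)

private theorem Five_four (h : Cf G d A e c x y a b) {I : Finset V} {p j r r' : V} (hr : r ≠ r') (hrj : r ≠ j) (hrp : r ≠ p)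
    (hp : p ∈ I) (hrI : r ∉ I) (h1 : 0 < num G (cls (A.erase e) c a) p r) (h2 : 0 < num G (cls (A.erase e) c b) r r')
    (h3 : 0 < num G (cls (A.erase e) c a) r' j) (h4 : 0 < num G (cls (A.erase e) c b) j p) :
    ∃ c', Cf G d A e c' x y a b ∧ kmp A e c' a b = kmp A e c a b ∧ Ag A e c e c' a b ∧
      ¬ Clo G (cls (A.erase e) c' b) I := by
  have hab : b ≠ a := (cf_root h).1.symm
  obtain ⟨g1, m1, j1⟩ := num_pos.1 h1
  obtain ⟨g2, m2, j2⟩ := num_pos.1 h2
  obtain ⟨g3, m3, j3⟩ := num_pos.1 h3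
  obtain ⟨g4, m4, j4⟩ := num_pos.1 h4
  have m1' := m1
  rw [Five_cls] at m1 m2 m3 m4
  have n12 : g1 ≠ g2 := fun h0 => hab (by rw [← m1.2, ← m2.2, h0])
  have n14 : g1 ≠ g4 := fun h0 => hab (by rw [← m1.2, ← m4.2, h0])
  have n23 : g2 ≠ g3 := fun h0 => hab (by rw [← m2.2, ← m3.2, h0])
  have n34 : g3 ≠ g4 := fun h0 => hab (by rw [← m3.2, ← m4.2, h0])
  have n13 : g1 ≠ g3 := Five_ne (joins_symm j1) j3 hr hrj
  have n24 : g2 ≠ g4 := Five_ne j2 j4 hrj hrp
  refine Five_fin h (L := [g2, g3, g4]) (g := g1) (u := p) (w := r) ?_ m1' j1 hp hrI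
  refine Five_cons (Five_two.2 ⟨m1.1, Or.inl m1.2⟩) j1 (by simp [n12, n13, n14]) (by simp [m1.2]) ?_
  refine Five_cons (Five_two.2 ⟨m2.1, Or.inr m2.2⟩) j2 (by simp [n23, n24]) (by simp [m2.2, hab]) ?_
  refine Five_cons (Five_two.2 ⟨m3.1, Or.inl m3.2⟩) j3 (by simp [n34]) (by simp [m3.2]) ?_
  exact Five_one (Five_two.2 ⟨m4.1, Or.inr m4.2⟩) j4 (by simp [m4.2, hab])

private theorem Five_six (h : Cf G d A e c x y a b) {I : Finset V} {w w' z r r' : V} (hr : r ≠ r') (hrw : r ≠ w) (hrw' : r ≠ w')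
    (hrz : r ≠ z) (hrw2 : r' ≠ w') (hrz2 : r' ≠ z) (hww : w' ≠ w) (hwz : w' ≠ z)
    (hw : w ∈ I) (hrI : r ∉ I) (h1 : 0 < num G (cls (A.erase e) c a) w r) (h2 : 0 < num G (cls (A.erase e) c b) r r')
    (h3 : 0 < num G (cls (A.erase e) c a) r' w) (h4 : 0 < num G (cls (A.erase e) c b) w w')
    (h5 : 0 < num G (cls (A.erase e) c a) w' z) (h6 : 0 < num G (cls (A.erase e) c b) z w) :
    ∃ c', Cf G d A e c' x y a b ∧ kmp A e c' a b = kmp A e c a b ∧ Ag A e c e c' a b ∧
      ¬ Clo G (cls (A.erase e) c' b) I := by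
  have hab : b ≠ a := (cf_root h).1.symm
  obtain ⟨g1, m1, j1⟩ := num_pos.1 h1
  obtain ⟨g2, m2, j2⟩ := num_pos.1 h2
  obtain ⟨g3, m3, j3⟩ := num_pos.1 h3
  obtain ⟨g4, m4, j4⟩ := num_pos.1 h4
  obtain ⟨g5, m5, j5⟩ := num_pos.1 h5
  obtain ⟨g6, m6, j6⟩ := num_pos.1 h6
  have m1' := m1
  rw [Five_cls] at m1 m2 m3 m4 m5 m6
  have n12 : g1 ≠ g2 := fun h0 => hab (by rw [← m1.2, ← m2.2, h0])
  have n14 : g1 ≠ g4 := fun h0 => hab (by rw [← m1.2, ← m4.2, h0])
  have n16 : g1 ≠ g6 := fun h0 => hab (by rw [← m1.2, ← m6.2, h0])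
  have n23 : g2 ≠ g3 := fun h0 => hab (by rw [← m2.2, ← m3.2, h0])
  have n25 : g2 ≠ g5 := fun h0 => hab (by rw [← m2.2, ← m5.2, h0])
  have n34 : g3 ≠ g4 := fun h0 => hab (by rw [← m3.2, ← m4.2, h0])
  have n36 : g3 ≠ g6 := fun h0 => hab (by rw [← m3.2, ← m6.2, h0])
  have n45 : g4 ≠ g5 := fun h0 => hab (by rw [← m4.2, ← m5.2, h0])
  have n56 : g5 ≠ g6 := fun h0 => hab (by rw [← m5.2, ← m6.2, h0])
  have n13 : g1 ≠ g3 := Five_ne (joins_symm j1) j3 hr hrw
  have n15 : g1 ≠ g5 := Five_ne (joins_symm j1) j5 hrw' hrz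
  have n35 : g3 ≠ g5 := Five_ne j3 j5 hrw2 hrz2
  have n24 : g2 ≠ g4 := Five_ne j2 j4 hrw hrw'
  have n26 : g2 ≠ g6 := Five_ne j2 j6 hrz hrw
  have n46 : g4 ≠ g6 := Five_ne (joins_symm j4) j6 hwz hww
  refine Five_fin h (L := [g2, g3, g4, g5, g6]) (g := g1) (u := w) (w := r) ?_ m1' j1 hw hrI
  refine Five_cons (Five_two.2 ⟨m1.1, Or.inl m1.2⟩) j1 (by simp [n12, n13, n14, n15, n16]) (by simp [m1.2]) ?_
  refine Five_cons (Five_two.2 ⟨m2.1, Or.inr m2.2⟩) j2 (by simp [n23, n24, n25, n26]) (by simp [m2.2, hab]) ?_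
  refine Five_cons (Five_two.2 ⟨m3.1, Or.inl m3.2⟩) j3 (by simp [n34, n35, n36]) (by simp [m3.2]) ?_
  refine Five_cons (Five_two.2 ⟨m4.1, Or.inr m4.2⟩) j4 (by simp [n45, n46]) (by simp [m4.2, hab]) ?_
  refine Five_cons (Five_two.2 ⟨m5.1, Or.inl m5.2⟩) j5 (by simp [n56]) (by simp [m5.2]) ?_
  exact Five_one (Five_two.2 ⟨m6.1, Or.inr m6.2⟩) j6 (by simp [m6.2, hab])

omit [Fintype V] [Fintype E] in
/-- a path which leaves the set `I` -/
private theorem Five_leave {F : Finset E} {I : Finset V} {u v : V} (h : G.Reach F u v) (hu : u ∈ I) (hv : v ∉ I) :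
    ∃ g ∈ F, ∃ p q, G.joins g p q ∧ p ∈ I ∧ q ∉ I ∧ G.Reach F u q := by
  induction h with
  | refl => exact absurd hu hv
  | @tail p q hp hpq ih =>
    by_cases hpI : p ∈ I
    · obtain ⟨g, hg, hj⟩ := hpq
      exact ⟨g, hg, p, q, hj, hpI, hv, Relation.ReflTransGen.tail hp ⟨g, hg, hj⟩⟩
    · exact ih hpI

private theorem Five_b {d xy xj yj rx ry rj sx sy sj rs : ℕ} (hd3 : 3 ≤ d) (i1 : d = xy + xj) (i2 : d = xy + yj + 1) (i3 : d = xj + yj)
    (b1 : d = xy + xj + (rx + sx)) (b2 : d = xy + yj + (ry + sy) + 1) (b3 : d = xj + yj + (rj + sj)) (b4 : d = rx + ry + rj + rs) :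
    0 < yj ∧ 0 < xy ∧ 0 < xj ∧ 0 < rs := by
  omega

private theorem Five_a {d xy xj yj yr ys jr js rs : ℕ} (a1 : d = xy + xj + 1) (a2 : d = xy + yj + (yr + ys))
    (a3 : d = xj + yj + (jr + js)) (a4 : d = yr + jr + rs) (a5 : d = ys + js + rs) (hc : 0 < yr ∨ 0 < ys ∨ 0 < jr ∨ 0 < js) :
    (0 < yr ∧ 0 < js) ∨ (0 < ys ∧ 0 < jr) ∨ (0 < jr ∧ 0 < js ∧ 0 < xy) ∨ (0 < yr ∧ 0 < ys ∧ 0 < xj) := by
  omega

theorem five (hd : Odd d) (hd3 : 3 ≤ d) (h : Cf G d A e c x y a b) (hT : (Cm G A e c a b x).card = 5)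
    {I : Finset V} (hIT : I ⊆ Cm G A e c a b x) (hI : I.card = 3) (hx : x ∈ I) (hy : y ∈ I)
    (hxI : ∀ g ∈ kmp A e c a b, ∀ w, G.joins g x w → w ∈ I)
    (hb : Clo G (cls (A.erase e) c b) I) :
    ∃ c', Cf G d A e c' x y a b ∧ kmp A e c' a b = kmp A e c a b ∧ Ag A e c e c' a b ∧
      ¬ Clo G (cls (A.erase e) c' b) I := by
  obtain ⟨hab, hax, hbx, hby, hay⟩ := cf_root h
  have hxy : x ≠ y := joins_ne h.st.jn
  have hxT : x ∈ Cm G A e c a b x := cf_x h
  have hyT : y ∈ Cm G A e c a b x := cf_y h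
  -- the five vertices
  obtain ⟨j, hj⟩ : ∃ j, (I.erase x).erase y = {j} := by
    rw [← Finset.card_eq_one, Finset.card_erase_of_mem (Finset.mem_erase.2 ⟨hxy.symm, hy⟩), Finset.card_erase_of_mem hx, hI]
  have hjm : j ∈ (I.erase x).erase y := by
    rw [hj]
    exact Finset.mem_singleton_self j
  have hjy : j ≠ y := (Finset.mem_erase.1 hjm).1
  have hjx : j ≠ x := (Finset.mem_erase.1 (Finset.mem_erase.1 hjm).2).1
  have hjI : j ∈ I := (Finset.mem_erase.1 (Finset.mem_erase.1 hjm).2).2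
  have hIs : ∀ f : V → ℕ, ∑ v ∈ I, f v = f x + f y + f j := by
    intro f
    rw [← Finset.add_sum_erase I f hx, ← Finset.add_sum_erase (I.erase x) f (Finset.mem_erase.2 ⟨hxy.symm, hy⟩), hj,
      Finset.sum_singleton, add_assoc]
  obtain ⟨r, r', hrr, hR⟩ : ∃ r r', r ≠ r' ∧ Cm G A e c a b x \ I = {r, r'} := by
    rw [← Finset.card_eq_two, Finset.card_sdiff_of_subset hIT, hT, hI]
  have hr0 : r ∈ Cm G A e c a b x \ I := by
    rw [hR]
    simp
  have hr0' : r' ∈ Cm G A e c a b x \ I := by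
    rw [hR]
    simp
  rw [Finset.mem_sdiff] at hr0 hr0'
  have hTs : ∀ f : V → ℕ, ∑ v ∈ Cm G A e c a b x, f v = f x + f y + f j + (f r + f r') := by
    intro f
    rw [← Finset.sum_sdiff hIT, hR, Finset.sum_pair hrr, hIs, add_comm]
  have hrx : r ≠ x := fun h0 => hr0.2 (h0 ▸ hx)
  have hry : r ≠ y := fun h0 => hr0.2 (h0 ▸ hy)
  have hrj : r ≠ j := fun h0 => hr0.2 (h0 ▸ hjI)
  have hrx' : r' ≠ x := fun h0 => hr0'.2 (h0 ▸ hx)
  have hry' : r' ≠ y := fun h0 => hr0'.2 (h0 ▸ hy)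
  have hrj' : r' ≠ j := fun h0 => hr0'.2 (h0 ▸ hjI)
  -- degrees
  have dj := cf_other h hjx hjy (hIT hjI)
  have dr := cf_other h hrx hry hr0.1
  have dr' := cf_other h hrx' hry' hr0'.1
  have hTa : ∀ v ∈ Cm G A e c a b x, G.dg c (A.erase e) a v = num G (cls (A.erase e) c a) v x + num G (cls (A.erase e) c a) v y +
      num G (cls (A.erase e) c a) v j + (num G (cls (A.erase e) c a) v r + num G (cls (A.erase e) c a) v r') := by
    intro v hv
    rw [← hTs]
    exact num_sum cf_clo_a hv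
  have hTb : ∀ v ∈ Cm G A e c a b x, G.dg c (A.erase e) b v = num G (cls (A.erase e) c b) v x + num G (cls (A.erase e) c b) v y +
      num G (cls (A.erase e) c b) v j + (num G (cls (A.erase e) c b) v r + num G (cls (A.erase e) c b) v r') := by
    intro v hv
    rw [← hTs]
    exact num_sum cf_clo_b hv
  have hIb : ∀ v ∈ I, G.dg c (A.erase e) b v = num G (cls (A.erase e) c b) v x + num G (cls (A.erase e) c b) v y +
      num G (cls (A.erase e) c b) v j := by
    intro v hv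
    rw [← hIs]
    exact num_sum hb hv
  have hnoa : ∀ w, w ∉ I → num G (cls (A.erase e) c a) x w = 0 := by
    intro w hw
    by_contra h0
    obtain ⟨g, hg, hgj⟩ := num_pos.1 (Nat.pos_of_ne_zero h0)
    rw [Five_cls] at hg
    refine hw (hxI g ?_ w hgj)
    unfold kmp
    exact Finset.mem_insert_of_mem (Finset.mem_filter.2 ⟨hg.1, Or.inl hg.2⟩)
  -- the numbers of edges
  obtain ⟨na, hna⟩ : ∃ na : V → V → ℕ, na = num G (cls (A.erase e) c a) := ⟨_, rfl⟩
  obtain ⟨nb, hnb⟩ : ∃ nb : V → V → ℕ, nb = num G (cls (A.erase e) c b) := ⟨_, rfl⟩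
  have hnaS : ∀ u v, na u v = na v u := fun u v => by rw [hna]; exact num_comm _ _ _
  have hnbS : ∀ u v, nb u v = nb v u := fun u v => by rw [hnb]; exact num_comm _ _ _
  have hna0 : ∀ v, na v v = 0 := fun v => by rw [hna]; exact num_self _ _
  have hnb0 : ∀ v, nb v v = 0 := fun v => by rw [hnb]; exact num_self _ _
  have a1 : d = na x y + na x j + 1 := by
    have h1 := hTa x hxT
    rw [← hna, hna0, hna, hnoa r hr0.2, hnoa r' hr0'.2, ← hna, zero_add, add_zero, add_zero] at h1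
    rw [← h1]
    exact hax.symm
  have a2 : d = na x y + na y j + (na y r + na y r') := by
    have h1 := hTa y hyT
    rw [hay, ← hna, hna0, hnaS y x, add_zero] at h1
    exact h1
  have a3 : d = na x j + na y j + (na j r + na j r') := by
    have h1 := hTa j (hIT hjI)
    rw [dj.1, ← hna, hna0, hnaS j x, hnaS j y, add_zero] at h1
    exact h1
  have hxr : na x r = 0 := by rw [hna]; exact hnoa r hr0.2
  have hxr' : na x r' = 0 := by rw [hna]; exact hnoa r' hr0'.2
  have a4 : d = na y r + na j r + na r r' := by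
    have h1 := hTa r hr0.1
    rw [dr.1, ← hna, hna0, hnaS r x, hnaS r y, hnaS r j, hxr, zero_add, zero_add] at h1
    exact h1
  have a5 : d = na y r' + na j r' + na r r' := by
    have h1 := hTa r' hr0'.1
    rw [dr'.1, ← hna, hna0, hnaS r' x, hnaS r' y, hnaS r' j, hnaS r' r, hxr', zero_add, add_zero] at h1
    exact h1
  have i1 : d = nb x y + nb x j := by
    have h1 := hIb x hx
    rw [hbx, ← hnb, hnb0, zero_add] at h1
    exact h1
  have i2 : d = nb x y + nb y j + 1 := by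
    have h1 := hIb y hy
    rw [← hnb, hnb0, hnbS y x, add_zero] at h1
    rw [← h1]
    exact hby.symm
  have i3 : d = nb x j + nb y j := by
    have h1 := hIb j hjI
    rw [dj.2, ← hnb, hnb0, hnbS j x, hnbS j y, add_zero] at h1
    exact h1
  have b1 : d = nb x y + nb x j + (nb x r + nb x r') := by
    have h1 := hTb x hxT
    rw [hbx, ← hnb, hnb0, zero_add] at h1
    exact h1
  have b2 : d = nb x y + nb y j + (nb y r + nb y r') + 1 := by
    have h1 := hTb y hyT
    rw [← hnb, hnb0, hnbS y x, add_zero] at h1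
    rw [← h1]
    exact hby.symm
  have b3 : d = nb x j + nb y j + (nb j r + nb j r') := by
    have h1 := hTb j (hIT hjI)
    rw [dj.2, ← hnb, hnb0, hnbS j x, hnbS j y, add_zero] at h1
    exact h1
  have b4 : d = nb x r + nb y r + nb j r + nb r r' := by
    have h1 := hTb r hr0.1
    rw [dr.2, ← hnb, hnb0, hnbS r x, hnbS r y, hnbS r j, zero_add] at h1
    exact h1
  -- an edge between `I` and `r, r'`
  have hcross : 0 < na y r ∨ 0 < na y r' ∨ 0 < na j r ∨ 0 < na j r' := by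
    have hreach : G.Reach (kmp A e c a b) x r := mem_cm.1 hr0.1
    obtain ⟨g, hg, p, q, hgj, hp, hq, hreach'⟩ := Five_leave hreach hx hr0.2
    have hqT : q ∈ Cm G A e c a b x := mem_cm.2 hreach'
    have hqR : q ∈ ({r, r'} : Finset V) := by
      rw [← hR]
      exact Finset.mem_sdiff.2 ⟨hqT, hq⟩
    have hge : g ≠ e := by
      rintro rfl
      have h1 : G.inc g q := (joins_inc hgj).2 (Or.inr rfl)
      rcases (joins_inc h.st.jn).1 h1 with h2 | h2
      · exact hq (h2 ▸ hx)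
      · exact hq (h2 ▸ hy)
    have hg2 : g ∈ A.erase e ∧ (c g = a ∨ c g = b) := by
      unfold kmp at hg
      rcases Finset.mem_insert.1 hg with h1 | h1
      · exact absurd h1 hge
      · exact Finset.mem_filter.1 h1
    have hga : c g = a := by
      rcases hg2.2 with h1 | h1
      · exact h1
      · exfalso
        have h2 := hb g (Five_cls.2 ⟨hg2.1, h1⟩)
        rcases hgj with ⟨h3, h4⟩ | ⟨h3, h4⟩
        · rw [h3, h4] at h2
          exact hq (h2.1 hp)
        · rw [h3, h4] at h2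
          exact hq (h2.2 hp)
    have hpos : 0 < na p q := by
      rw [hna]
      exact num_pos.2 ⟨g, Five_cls.2 ⟨hg2.1, hga⟩, hgj⟩
    have hpx : p ≠ x := by
      rintro rfl
      rw [hna, hnoa q hq] at hpos
      exact absurd hpos (lt_irrefl 0)
    have hp3 : p = y ∨ p = j := by
      by_cases hpy : p = y
      · exact Or.inl hpy
      · right
        have h1 : p ∈ (I.erase x).erase y := Finset.mem_erase.2 ⟨hpy, Finset.mem_erase.2 ⟨hpx, hp⟩⟩
        rw [hj] at h1
        exact Finset.mem_singleton.1 h1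
    rw [Finset.mem_insert, Finset.mem_singleton] at hqR
    rcases hp3 with rfl | rfl <;> rcases hqR with rfl | rfl
    · exact Or.inl hpos
    · exact Or.inr (Or.inl hpos)
    · exact Or.inr (Or.inr (Or.inl hpos))
    · exact Or.inr (Or.inr (Or.inr hpos))
  obtain ⟨hyj, hxy', hxj, hbr⟩ := Five_b hd3 i1 i2 i3 b1 b2 b3 b4
  have hbr' : 0 < nb r' r := by
    rw [hnbS]
    exact hbr
  rcases Five_a a1 a2 a3 a4 a5 hcross with c1 | c2 | ⟨e1, e3, e4⟩ | ⟨e1, e3, e5⟩
  · refine Five_four h (p := y) (j := j) (r := r) (r' := r') hrr hrj hry hy hr0.2 ?_ ?_ ?_ ?_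
    · rw [← hna]
      exact c1.1
    · rw [← hnb]
      exact hbr
    · rw [← hna, hnaS]
      exact c1.2
    · rw [← hnb, hnbS]
      exact hyj
  · refine Five_four h (p := y) (j := j) (r := r') (r' := r) hrr.symm hrj' hry' hy hr0'.2 ?_ ?_ ?_ ?_
    · rw [← hna]
      exact c2.1
    · rw [← hnb]
      exact hbr'
    · rw [← hna, hnaS]
      exact c2.2
    · rw [← hnb, hnbS]
      exact hyj
  · -- `w = j`, `w' = y`
    refine Five_six h (w := j) (w' := y) (z := x) (r := r) (r' := r') hrr hrj hry hrx hry' hrx' hjy.symm hxy.symm hjI hr0.2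
      ?_ ?_ ?_ ?_ ?_ ?_
    · rw [← hna]
      exact e1
    · rw [← hnb]
      exact hbr
    · rw [← hna, hnaS]
      exact e3
    · rw [← hnb, hnbS]
      exact hyj
    · rw [← hna, hnaS]
      exact e4
    · rw [← hnb]
      exact hxj
  · -- `w = y`, `w' = j`
    refine Five_six h (w := y) (w' := j) (z := x) (r := r) (r' := r') hrr hry hrj hrx hrj' hrx' hjy hjx hy hr0.2
      ?_ ?_ ?_ ?_ ?_ ?_
    · rw [← hna]
      exact e1
    · rw [← hnb]
      exact hbr
    · rw [← hna, hnaS]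
      exact e3
    · rw [← hnb]
      exact hyj
    · rw [← hna, hnaS]
      exact e5
    · rw [← hnb]
      exact hxy'

end Pool.Agent.H58.DG
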