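import Pool.Agent.H58.DG.Basic

/-!
# Exchange along an alternating trail

`c` valid on `B`, colours `a ≠ b`, `L` an alternating trail in `two B c a b` for the two-colouring `fun g => decide (c g = a)`.
`flp c a b L` exchanges `a` and `b` on `L`.  `flip_dg`: the change of the degrees (from `exc_flip` and `balance_card` for the set
`two B c a b`; the true edges of `two B c a b` are the edges of colour `a`, the false ones those of colour `b`).
`flip_closed`: for a configuration and a closed trail (`u = v`, last colour different from the first) nothing changes in the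
degrees, and `kmp` is the same.
-/

set_option autoImplicit false

open Finset
open scoped Classical

namespace Pool.Agent.H58.DG

open Pool.Agent.H77.Df

variable {V E : Type} [Fintype V] [Fintype E] {G : MG V E} {k d : ℕ} {A : Finset E} {e : E} {c : E → Fin k}
  {x y : V} {a b : Fin k}

/-- exchange of `a` and `b` on the edges of the list `L` -/
noncomputable def flp (c : E → Fin k) (a b : Fin k) (L : List E) (g : E) : Fin k :=
  if g ∈ L then (if c g = a then b else a) else c g

private theorem Flip_mem {B : Finset E} {u v : V} {s t : Bool} {L : List E}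
    (hL : G.Tr (two B c a b) (fun g => decide (c g = a)) u v s t L) {g : E} (hg : g ∈ L) :
    g ∈ B ∧ (c g = a ∨ c g = b) :=
  Finset.mem_filter.1 (tr_sub hL g hg)

private theorem Flip_filter_a {B : Finset E} (hab : a ≠ b) {u v : V} {s t : Bool} {L : List E}
    (hL : G.Tr (two B c a b) (fun g => decide (c g = a)) u v s t L) :
    B.filter (fun g => flp c a b L g = a) =
      (two B c a b).filter (fun g => flipL (fun g => decide (c g = a)) L g = true) := by
  ext g
  unfold two flp flipL
  rw [Finset.mem_filter, Finset.mem_filter, Finset.mem_filter]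
  by_cases hg : g ∈ L
  · obtain ⟨h1, h2⟩ := Flip_mem hL hg
    rw [if_pos hg, if_pos hg]
    by_cases h3 : c g = a
    · rw [if_pos h3]
      simp only [h3, decide_true, Bool.not_true, Bool.false_eq_true, and_false, iff_false]
      exact fun h => hab h.2.symm
    · rw [if_neg h3]
      simp only [h3, decide_false, Bool.not_false, and_true]
      exact ⟨fun h => ⟨h, Or.inr (h2.resolve_left h3)⟩, fun h => h.1⟩
  · rw [if_neg hg, if_neg hg]
    rw [decide_eq_true_iff]
    exact ⟨fun h => ⟨⟨h.1, Or.inl h.2⟩, h.2⟩, fun h => ⟨h.1.1, h.2⟩⟩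

private theorem Flip_filter_b {B : Finset E} (hab : a ≠ b) {u v : V} {s t : Bool} {L : List E}
    (hL : G.Tr (two B c a b) (fun g => decide (c g = a)) u v s t L) :
    B.filter (fun g => flp c a b L g = b) =
      (two B c a b).filter (fun g => flipL (fun g => decide (c g = a)) L g = false) := by
  ext g
  unfold two flp flipL
  rw [Finset.mem_filter, Finset.mem_filter, Finset.mem_filter]
  by_cases hg : g ∈ L
  · obtain ⟨h1, h2⟩ := Flip_mem hL hg
    rw [if_pos hg, if_pos hg]
    by_cases h3 : c g = a
    · rw [if_pos h3]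
      simp only [h3, decide_true, Bool.not_true, and_true]
      exact ⟨fun h => ⟨h, Or.inl trivial⟩, fun h => h.1⟩
    · rw [if_neg h3]
      simp only [h3, decide_false, Bool.not_false, Bool.true_eq_false, and_false, iff_false]
      exact fun h => hab h.2
  · rw [if_neg hg, if_neg hg]
    rw [decide_eq_false_iff_not]
    constructor
    · rintro ⟨h1, h2⟩
      exact ⟨⟨h1, Or.inr h2⟩, fun h => hab (h.symm.trans h2)⟩
    · rintro ⟨⟨h1, h2⟩, h3⟩
      exact ⟨h1, h2.resolve_left h3⟩

private theorem Flip_filter_ta {B : Finset E} :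
    B.filter (fun g => c g = a) =
      (two B c a b).filter (fun g => (fun g => decide (c g = a)) g = true) := by
  ext g
  unfold two
  rw [Finset.mem_filter, Finset.mem_filter, Finset.mem_filter, decide_eq_true_iff]
  exact ⟨fun h => ⟨⟨h.1, Or.inl h.2⟩, h.2⟩, fun h => ⟨h.1.1, h.2⟩⟩

private theorem Flip_filter_tb {B : Finset E} (hab : a ≠ b) :
    B.filter (fun g => c g = b) =
      (two B c a b).filter (fun g => (fun g => decide (c g = a)) g = false) := by
  ext g
  unfold two
  rw [Finset.mem_filter, Finset.mem_filter, Finset.mem_filter, decide_eq_false_iff_not]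
  constructor
  · rintro ⟨h1, h2⟩
    exact ⟨⟨h1, Or.inr h2⟩, fun h => hab (h.symm.trans h2)⟩
  · rintro ⟨⟨h1, h2⟩, h3⟩
    exact ⟨h1, h2.resolve_left h3⟩

private theorem Flip_other {B : Finset E} {u v : V} {s t : Bool} {L : List E}
    (hL : G.Tr (two B c a b) (fun g => decide (c g = a)) u v s t L) {q : Fin k} (hqa : q ≠ a)
    (hqb : q ≠ b) (g : E) : flp c a b L g = q ↔ c g = q := by
  unfold flp
  by_cases hg : g ∈ L
  · obtain ⟨_, h2⟩ := Flip_mem hL hg
    rw [if_pos hg]
    constructor
    · intro h
      split_ifs at h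
      · exact absurd h.symm hqb
      · exact absurd h.symm hqa
    · intro h
      rcases h2 with h2 | h2
      · exact absurd (h.symm.trans h2) hqa
      · exact absurd (h.symm.trans h2) hqb
  · rw [if_neg hg]

theorem flip_dg {B : Finset E} (hab : a ≠ b) {u v : V} {s t : Bool} {L : List E}
    (hL : G.Tr (two B c a b) (fun g => decide (c g = a)) u v s t L) (w : V) :
    ((G.dg (flp c a b L) B a w : ℤ) = G.dg c B a w - ((if w = u then sgn s else 0) + (if w = v then sgn t else 0))) ∧
    ((G.dg (flp c a b L) B b w : ℤ) = G.dg c B b w + ((if w = u then sgn s else 0) + (if w = v then sgn t else 0))) ∧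
    (∀ q, q ≠ a → q ≠ b → G.dg (flp c a b L) B q w = G.dg c B q w) := by
  obtain ⟨h1, h2⟩ := balance_card (G := G) (two B c a b) (flipL (fun g => decide (c g = a)) L) w
  obtain ⟨h3, h4⟩ := balance_card (G := G) (two B c a b) (fun g => decide (c g = a)) w
  rw [exc_flip hL w] at h1 h2
  rw [← Flip_filter_a hab hL] at h1
  rw [← Flip_filter_b hab hL] at h2
  rw [← Flip_filter_ta] at h3
  rw [← Flip_filter_tb hab] at h4
  refine ⟨?_, ?_, fun q hqa hqb => ?_⟩
  · unfold MG.dg
    linarith
  · unfold MG.dg
    linarith
  · unfold MG.dg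
    rw [Finset.filter_congr fun g _ => Flip_other hL hqa hqb g]

theorem flip_closed (h : Cf G d A e c x y a b) {u : V} {s : Bool} {L : List E}
    (hL : G.Tr (two (A.erase e) c a b) (fun g => decide (c g = a)) u u s (!s) L) :
    Cf G d A e (flp c a b L) x y a b ∧ kmp A e (flp c a b L) a b = kmp A e c a b ∧
      Ag A e c e (flp c a b L) a b := by
  have hab := (cf_root h).1
  have hdg : ∀ (q : Fin k) (w : V),
      G.dg (flp c a b L) (A.erase e) q w = G.dg c (A.erase e) q w := by
    intro q w
    obtain ⟨h1, h2, h3⟩ := flip_dg hab hL w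
    have h0 : (if w = u then sgn s else 0) + (if w = u then sgn (!s) else 0) = 0 := by
      by_cases hw : w = u
      · rw [if_pos hw, if_pos hw]
        cases s <;> simp [sgn]
      · rw [if_neg hw, if_neg hw, add_zero]
    rw [h0, sub_zero] at h1
    rw [h0, add_zero] at h2
    by_cases hqa : q = a
    · rw [hqa]
      exact_mod_cast h1
    · by_cases hqb : q = b
      · rw [hqb]
        exact_mod_cast h2
      · exact h3 q hqa hqb
  refine ⟨⟨⟨h.st.not, h.st.mem, h.st.jn, fun q w => ?_⟩, ?_, ?_⟩, ?_, ?_⟩
  · rw [hdg]
    exact h.st.val q w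
  · have h1 := h.ha
    rw [miss_iff] at h1 ⊢
    rw [hdg]
    exact h1
  · have h1 := h.hb
    rw [miss_iff] at h1 ⊢
    rw [hdg]
    exact h1
  · have hc : ∀ g, (flp c a b L g = a ∨ flp c a b L g = b) ↔ (c g = a ∨ c g = b) := by
      intro g
      by_cases hg : g ∈ L
      · obtain ⟨_, h2⟩ := Flip_mem hL hg
        unfold flp
        rw [if_pos hg]
        refine ⟨fun _ => h2, fun _ => ?_⟩
        split_ifs
        · exact Or.inr rfl
        · exact Or.inl rfl
      · unfold flp
        rw [if_neg hg]
    unfold kmp
    rw [Finset.filter_congr fun g _ => hc g]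
  · intro q hqa hqb g
    rw [Flip_other hL hqa hqb g]

end Pool.Agent.H58.DG
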