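import Pool.Agent.H58.DG.Defs

/-!
# Hand shaking

`hand_sum`: `∑ v ∈ T, deg F v = 2 · #(edges of F with both ends in T) + #(edges of F with exactly one end in T)` (double
counting: every edge `g` contributes `[s g ∈ T] + [t g ∈ T]`, as `s g ≠ t g`).
`hand_closed`: for a closed set the second number is zero.
`num_sum`: if `F` is closed on `T` and `v ∈ T` then `deg F v = ∑ u ∈ T, num F v u` (the term `u = v` is zero); `num` is
symmetric.
-/

set_option autoImplicit false

open Finset
open scoped Classical

namespace Pool.Agent.H58.DG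

open Pool.Agent.H77.Df

variable {V E : Type} {G : MG V E}

private theorem hd_in (G : MG V E) (T : Finset V) (g : E) :
    (∑ v ∈ T, if G.inc g v then 1 else 0) = (if G.s g ∈ T then 1 else 0) + (if G.t g ∈ T then 1 else 0) := by
  have h1 : ∀ v ∈ T, (if G.inc g v then 1 else 0) = (if G.s g = v then 1 else 0) + (if G.t g = v then 1 else 0) := by
    intro v _
    have hne := G.ne g
    unfold MG.inc
    by_cases h1 : G.s g = v
    · have h2 : G.t g ≠ v := fun h => hne (h1.trans h.symm)
      simp [h1, h2]
    · simp [h1]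
  rw [Finset.sum_congr rfl h1, Finset.sum_add_distrib, Finset.sum_ite_eq, Finset.sum_ite_eq]

theorem hand_sum (F : Finset E) (T : Finset V) :
    ∑ v ∈ T, G.deg F v = 2 * (F.filter (fun g => G.s g ∈ T ∧ G.t g ∈ T)).card +
      (F.filter (fun g => ¬ (G.s g ∈ T ↔ G.t g ∈ T))).card := by
  have h1 : ∑ v ∈ T, G.deg F v = ∑ g ∈ F, ((if G.s g ∈ T then 1 else 0) + (if G.t g ∈ T then 1 else 0)) := by
    have h2 : ∀ v ∈ T, G.deg F v = ∑ g ∈ F, if G.inc g v then 1 else 0 := by
      intro v _
      unfold MG.deg
      rw [Finset.card_filter]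
    rw [Finset.sum_congr rfl h2, Finset.sum_comm]
    exact Finset.sum_congr rfl fun g _ => hd_in G T g
  rw [h1, Finset.card_filter, Finset.card_filter, Finset.mul_sum, ← Finset.sum_add_distrib]
  refine Finset.sum_congr rfl fun g _ => ?_
  by_cases h2 : G.s g ∈ T <;> by_cases h3 : G.t g ∈ T <;> simp [h2, h3]

theorem hand_closed {F : Finset E} {T : Finset V} (h : Clo G F T) :
    ∑ v ∈ T, G.deg F v = 2 * (F.filter (fun g => G.s g ∈ T)).card := by
  rw [hand_sum]
  have h1 : F.filter (fun g => ¬ (G.s g ∈ T ↔ G.t g ∈ T)) = ∅ := by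
    rw [Finset.filter_eq_empty_iff]
    intro g hg h2
    exact h2 (h g hg)
  have h2 : F.filter (fun g => G.s g ∈ T ∧ G.t g ∈ T) = F.filter (fun g => G.s g ∈ T) := by
    refine Finset.filter_congr fun g hg => ?_
    exact ⟨fun h3 => h3.1, fun h3 => ⟨h3, (h g hg).1 h3⟩⟩
  rw [h1, h2, Finset.card_empty, add_zero]

theorem num_comm (F : Finset E) (u v : V) : num G F u v = num G F v u := by
  unfold num
  congr 1
  refine Finset.filter_congr fun g _ => ?_
  unfold MG.joins
  exact or_comm

theorem num_self (F : Finset E) (v : V) : num G F v v = 0 := by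
  unfold num
  rw [Finset.card_eq_zero, Finset.filter_eq_empty_iff]
  rintro g - (⟨h1, h2⟩ | ⟨h1, h2⟩)
  · exact G.ne g (h1.trans h2.symm)
  · exact G.ne g (h1.trans h2.symm)

theorem num_pos {F : Finset E} {u v : V} : 0 < num G F u v ↔ ∃ g ∈ F, G.joins g u v := by
  unfold num
  rw [Finset.card_pos]
  constructor
  · rintro ⟨g, hg⟩
    exact ⟨g, (Finset.mem_filter.1 hg).1, (Finset.mem_filter.1 hg).2⟩
  · rintro ⟨g, hg, h1⟩
    exact ⟨g, Finset.mem_filter.2 ⟨hg, h1⟩⟩

theorem num_sum {F : Finset E} {T : Finset V} (h : Clo G F T) {v : V} (hv : v ∈ T) :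
    G.deg F v = ∑ u ∈ T, num G F v u := by
  unfold MG.deg num
  rw [Finset.card_filter]
  have h1 : ∀ u ∈ T, (F.filter (fun g => G.joins g v u)).card = ∑ g ∈ F, if G.joins g v u then 1 else 0 :=
    fun u _ => Finset.card_filter _ _
  rw [Finset.sum_congr rfl h1, Finset.sum_comm]
  refine Finset.sum_congr rfl fun g hg => ?_
  have hne := G.ne g
  by_cases h2 : G.s g = v
  · have h3 : G.t g ∈ T := (h g hg).1 (by rw [h2]; exact hv)
    have h4 : ∀ u ∈ T, (if G.joins g v u then 1 else 0) = if G.t g = u then 1 else 0 := by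
      intro u _
      have h5 : G.joins g v u ↔ G.t g = u := by
        unfold MG.joins
        constructor
        · rintro (⟨_, h6⟩ | ⟨_, h6⟩)
          · exact h6
          · exact absurd (h2.trans h6.symm) hne
        · intro h6
          exact Or.inl ⟨h2, h6⟩
      simp only [h5]
    rw [Finset.sum_congr rfl h4, Finset.sum_ite_eq, if_pos h3, if_pos (show G.inc g v from Or.inl h2)]
  · by_cases h3 : G.t g = v
    · have h4 : G.s g ∈ T := (h g hg).2 (by rw [h3]; exact hv)
      have h5 : ∀ u ∈ T, (if G.joins g v u then 1 else 0) = if G.s g = u then 1 else 0 := by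
        intro u _
        have h6 : G.joins g v u ↔ G.s g = u := by
          unfold MG.joins
          constructor
          · rintro (⟨h7, _⟩ | ⟨h7, _⟩)
            · exact absurd h7 h2
            · exact h7
          · intro h7
            exact Or.inr ⟨h7, h3⟩
        simp only [h6]
      rw [Finset.sum_congr rfl h5, Finset.sum_ite_eq, if_pos h4, if_pos (show G.inc g v from Or.inr h3)]
    · have h4 : ¬ G.inc g v := by
        rintro (h5 | h5)
        · exact h2 h5
        · exact h3 h5
      rw [if_neg h4]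
      symm
      refine Finset.sum_eq_zero fun u _ => ?_
      rw [if_neg]
      rintro (⟨h5, _⟩ | ⟨_, h5⟩)
      · exact h2 h5
      · exact h3 h5

end Pool.Agent.H58.DG
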