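import Pool.Agent.H58.DG.Basic

/-!
# Moving the uncoloured edge

Let `h : Cf G d A e c x y a b`, `K = kmp A e c a b`, `T = Cm G A e c a b x`, and let `e' ∈ K` join `x'`, `y'` with
`x' ∈ T`.  Let `F` be the set of the edges of `K` other than `e'` whose first end is in `T` (both ends are then in `T`).
In `F` all vertices of `T` have degree `2 d`, except `x'`, `y'`, which have degree `2 d - 1` (`cf_deg`).
(1) `F` is connected on `T`: let `X` be the set of the vertices reachable from `x'` in `F`; it is closed under `F`, so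
`∑ v ∈ X, deg F v` is even (`hand_closed`); all terms are `2 d` except that of `x'` and possibly that of `y'`: so `y' ∈ X`.
Every vertex of `T` is reachable in `K` from `x'`; replace each use of `e'` by a path in `F`.
(2) `balance F x'` gives `f` with `|exc v| ≤ 1` for `v ≠ x'` and `|exc x'| ≤ 2`.  By parity (`balance_card`: `deg F v + exc v`
is even) `exc v = 0` for `v ∈ T`, `v ≠ x', y'`, and `|exc x'| = |exc y'| = 1`.
(3) `exc x' = - exc y'`: otherwise colour `e'` with the missing colour too: all edges of `A` get a valid colouring (the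
edges of `F`: `a` if `f` is true, else `b`; all others keep `c`), against `h.st.not`.
(4) After negation of `f` we may assume that `x'` has `d - 1` true edges and `d` false edges, `y'` has `d` true and `d - 1`
false edges.  Put `c' g = a` or `b` according to `f` for `g ∈ F`, and `c' g = c g` otherwise.
`resplit` is the general statement (for every `f` with the right degrees).  `cm_odd`: (degree sum of the true edges is
`d |T| - 1`, and it is even).
-/

set_option autoImplicit false

open Finset
open scoped Classical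

namespace Pool.Agent.H58.DG

open Pool.Agent.H77.Df

variable {V E : Type} [Fintype V] [Fintype E] {G : MG V E} {k d : ℕ} {A : Finset E} {e : E} {c : E → Fin k}
  {x y : V} {a b : Fin k}

private noncomputable def mF (G : MG V E) (A : Finset E) (e : E) (c : E → Fin k) (a b : Fin k) (x : V) (e' : E) :
    Finset E :=
  ((kmp A e c a b).erase e').filter (fun g => G.s g ∈ Cm G A e c a b x)

private noncomputable def mc (F : Finset E) (f : E → Bool) (c : E → Fin k) (a b : Fin k) (g : E) : Fin k :=
  if g ∈ F then (if f g = true then a else b) else c g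

private theorem mK {g : E} : g ∈ kmp A e c a b ↔ g = e ∨ ((g ≠ e ∧ g ∈ A) ∧ (c g = a ∨ c g = b)) := by
  unfold kmp
  rw [Finset.mem_insert, Finset.mem_filter, Finset.mem_erase]

private theorem mKA (h : Cf G d A e c x y a b) {g : E} (hg : g ∈ kmp A e c a b) : g ∈ A := by
  rcases mK.1 hg with rfl | h1
  · exact h.st.mem
  · exact h1.1.2

private theorem mF_mem {e' g : E} : g ∈ mF G A e c a b x e' ↔
    (g ≠ e' ∧ g ∈ kmp A e c a b) ∧ G.s g ∈ Cm G A e c a b x := by
  unfold mF
  rw [Finset.mem_filter, Finset.mem_erase]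

private theorem mF_ends {e' g : E} (hg : g ∈ mF G A e c a b x e') {v : V} (hv : G.inc g v) :
    v ∈ Cm G A e c a b x := by
  rw [mF_mem] at hg
  rcases hv with rfl | rfl
  · exact hg.2
  · exact (cf_clo g hg.1.2).1 hg.2

private theorem mF_of {e' g : E} (hg : g ∈ kmp A e c a b) (hne : g ≠ e') {v : V} (hi : G.inc g v)
    (hv : v ∈ Cm G A e c a b x) : g ∈ mF G A e c a b x e' := by
  rw [mF_mem]
  refine ⟨⟨hne, hg⟩, ?_⟩
  rcases hi with rfl | rfl
  · exact hv
  · exact (cf_clo g hg).2 hv

private theorem m_inc {e : E} {x y v : V} (h : G.joins e x y) : G.inc e v ↔ v = x ∨ v = y := by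
  unfold MG.inc
  unfold MG.joins at h
  rcases h with ⟨h1, h2⟩ | ⟨h1, h2⟩
  · rw [h1, h2]
    tauto
  · rw [h1, h2]
    tauto

private theorem m_ne {e : E} {x y : V} (h : G.joins e x y) : x ≠ y := by
  rintro rfl
  unfold MG.joins at h
  rcases h with ⟨h1, h2⟩ | ⟨h1, h2⟩
  · exact G.ne e (h1.trans h2.symm)
  · exact G.ne e (h1.trans h2.symm)

private theorem me_F (h : Cf G d A e c x y a b) {e' : E} (hne : e ≠ e') : e ∈ mF G A e c a b x e' :=
  mF_of (mK.2 (Or.inl rfl)) hne ((m_inc h.st.jn).2 (Or.inl rfl)) (cf_x h)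

private theorem m_step (h : Cf G d A e c x y a b) {e' : E} {f : E → Bool} {g : E}
    (hF : g ∉ mF G A e c a b x e') (hne : g ≠ e') : g ≠ e := by
  rintro rfl
  exact hF (me_F h hne)

private theorem m_ag (h : Cf G d A e c x y a b) {e' : E} (he' : e' ∈ kmp A e c a b) (f : E → Bool) :
    Ag A e c e' (mc (mF G A e c a b x e') f c a b) a b := by
  intro q hqa hqb g
  rw [Finset.mem_erase, Finset.mem_erase]
  unfold mc
  by_cases hF : g ∈ mF G A e c a b x e'
  · rw [if_pos hF]
    constructor
    · rintro ⟨-, h2⟩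
      by_cases hf : f g = true
      · rw [if_pos hf] at h2
        exact absurd h2.symm hqa
      · rw [if_neg hf] at h2
        exact absurd h2.symm hqb
    · rintro ⟨⟨h1, h2⟩, h3⟩
      rw [mF_mem] at hF
      rcases mK.1 hF.1.2 with h4 | h4
      · exact absurd h4 h1
      · rcases h4.2 with h5 | h5
        · exact absurd (h3.symm.trans h5) hqa
        · exact absurd (h3.symm.trans h5) hqb
  · rw [if_neg hF]
    constructor
    · rintro ⟨⟨h1, h2⟩, h3⟩
      exact ⟨⟨m_step (f := f) h hF h1, h2⟩, h3⟩
    · rintro ⟨⟨h1, h2⟩, h3⟩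
      refine ⟨⟨?_, h2⟩, h3⟩
      rintro rfl
      rcases mK.1 he' with h4 | h4
      · exact h1 h4
      · rcases h4.2 with h5 | h5
        · exact hqa (h3.symm.trans h5)
        · exact hqb (h3.symm.trans h5)

private theorem m_dga (h : Cf G d A e c x y a b) {e' : E} (f : E → Bool) {v : V}
    (hv : v ∈ Cm G A e c a b x) :
    G.dg (mc (mF G A e c a b x e') f c a b) (A.erase e') a v =
      G.deg ((mF G A e c a b x e').filter (fun g => f g = true)) v := by
  have hab : a ≠ b := (cf_root h).1
  unfold MG.dg MG.deg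
  congr 1
  ext g
  simp only [Finset.mem_filter, Finset.mem_erase]
  constructor
  · rintro ⟨⟨⟨hne, hA⟩, hc⟩, hi⟩
    unfold mc at hc
    by_cases hF : g ∈ mF G A e c a b x e'
    · rw [if_pos hF] at hc
      by_cases hf : f g = true
      · exact ⟨⟨hF, hf⟩, hi⟩
      · rw [if_neg hf] at hc
        exact absurd hc.symm hab
    · rw [if_neg hF] at hc
      exact absurd (mF_of (mK.2 (Or.inr ⟨⟨m_step (f := f) h hF hne, hA⟩, Or.inl hc⟩)) hne hi hv) hF
  · rintro ⟨⟨hF, hf⟩, hi⟩
    have h1 := mF_mem.1 hF
    refine ⟨⟨⟨h1.1.1, mKA h h1.1.2⟩, ?_⟩, hi⟩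
    unfold mc
    rw [if_pos hF, if_pos hf]

private theorem m_dgb (h : Cf G d A e c x y a b) {e' : E} (f : E → Bool) {v : V}
    (hv : v ∈ Cm G A e c a b x) :
    G.dg (mc (mF G A e c a b x e') f c a b) (A.erase e') b v =
      G.deg ((mF G A e c a b x e').filter (fun g => f g = false)) v := by
  have hab : a ≠ b := (cf_root h).1
  unfold MG.dg MG.deg
  congr 1
  ext g
  simp only [Finset.mem_filter, Finset.mem_erase]
  constructor
  · rintro ⟨⟨⟨hne, hA⟩, hc⟩, hi⟩
    unfold mc at hc
    by_cases hF : g ∈ mF G A e c a b x e'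
    · rw [if_pos hF] at hc
      by_cases hf : f g = true
      · rw [if_pos hf] at hc
        exact absurd hc hab
      · exact ⟨⟨hF, by simpa using hf⟩, hi⟩
    · rw [if_neg hF] at hc
      exact absurd (mF_of (mK.2 (Or.inr ⟨⟨m_step (f := f) h hF hne, hA⟩, Or.inr hc⟩)) hne hi hv) hF
  · rintro ⟨⟨hF, hf⟩, hi⟩
    have h1 := mF_mem.1 hF
    refine ⟨⟨⟨h1.1.1, mKA h h1.1.2⟩, ?_⟩, hi⟩
    unfold mc
    rw [if_pos hF, hf]
    simp

private theorem m_st (h : Cf G d A e c x y a b) {e' : E} {x' y' : V} (he' : e' ∈ kmp A e c a b)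
    (hj : G.joins e' x' y') (f : E → Bool)
    (hf : ∀ v ∈ Cm G A e c a b x, G.deg ((mF G A e c a b x e').filter (fun g => f g = true)) v ≤ d ∧
      G.deg ((mF G A e c a b x e').filter (fun g => f g = false)) v ≤ d) :
    G.St d A e' (mc (mF G A e c a b x e') f c a b) x' y' := by
  refine ⟨h.st.not, mKA h he', hj, fun i v => ?_⟩
  by_cases hv : v ∈ Cm G A e c a b x
  · by_cases hia : i = a
    · rw [hia, m_dga h f hv]
      exact (hf v hv).1
    · by_cases hib : i = b
      · rw [hib, m_dgb h f hv]
        exact (hf v hv).2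
      · rw [ag_dg (m_ag h he' f) hia hib]
        exact h.st.val i v
  · refine le_trans (Finset.card_le_card ?_) (h.st.val i v)
    intro g hg
    simp only [Finset.mem_filter, Finset.mem_erase] at hg ⊢
    obtain ⟨⟨⟨hne, hA⟩, hc⟩, hi⟩ := hg
    unfold mc at hc
    by_cases hF : g ∈ mF G A e c a b x e'
    · exact absurd (mF_ends hF hi) hv
    · rw [if_neg hF] at hc
      exact ⟨⟨⟨m_step (f := f) h hF hne, hA⟩, hc⟩, hi⟩

private theorem m_kmp (h : Cf G d A e c x y a b) {e' : E} (he' : e' ∈ kmp A e c a b) (f : E → Bool) :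
    kmp A e' (mc (mF G A e c a b x e') f c a b) a b = kmp A e c a b := by
  ext g
  rw [mK]
  by_cases hg : g = e'
  · subst hg
    simp [he']
  by_cases hF : g ∈ mF G A e c a b x e'
  · have h1 := mF_mem.1 hF
    refine ⟨fun _ => h1.1.2, fun _ => Or.inr ⟨⟨hg, mKA h h1.1.2⟩, ?_⟩⟩
    unfold mc
    rw [if_pos hF]
    by_cases hf : f g = true
    · exact Or.inl (if_pos hf)
    · exact Or.inr (if_neg hf)
  · have h2 := m_step (f := f) h hF hg
    have h3 : mc (mF G A e c a b x e') f c a b g = c g := by
      unfold mc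
      exact if_neg hF
    rw [h3, mK]
    constructor
    · rintro (h4 | h4)
      · exact absurd h4 hg
      · exact Or.inr ⟨⟨h2, h4.1.2⟩, h4.2⟩
    · rintro (h4 | h4)
      · exact absurd h4 h2
      · exact Or.inr ⟨⟨hg, h4.1.2⟩, h4.2⟩

private theorem m_cm (h : Cf G d A e c x y a b) {e' : E} {x' : V} (he' : e' ∈ kmp A e c a b)
    (hx' : x' ∈ Cm G A e c a b x) (f : E → Bool) :
    Cm G A e' (mc (mF G A e c a b x e') f c a b) a b x' = Cm G A e c a b x := by
  ext v
  rw [mem_cm, mem_cm, m_kmp h he' f]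
  have h1 := mem_cm.1 hx'
  exact ⟨fun h2 => h1.trans h2, fun h2 => (reach_symm h1).trans h2⟩

/-- conclusion for a good `f` -/
private theorem m_good (h : Cf G d A e c x y a b) {e' : E} {x' y' : V} (he' : e' ∈ kmp A e c a b)
    (hj : G.joins e' x' y') (hx' : x' ∈ Cm G A e c a b x) (hy' : y' ∈ Cm G A e c a b x) (f : E → Bool)
    (hf : ∀ v ∈ Cm G A e c a b x, G.deg ((mF G A e c a b x e').filter (fun g => f g = true)) v ≤ d ∧
      G.deg ((mF G A e c a b x e').filter (fun g => f g = false)) v ≤ d)
    (hfx : G.deg ((mF G A e c a b x e').filter (fun g => f g = true)) x' < d)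
    (hfy : G.deg ((mF G A e c a b x e').filter (fun g => f g = false)) y' < d) :
    ∃ c', Cf G d A e' c' x' y' a b ∧ Ag A e c e' c' a b ∧ kmp A e' c' a b = kmp A e c a b ∧
      Cm G A e' c' a b x' = Cm G A e c a b x ∧
      (∀ g, (G.s g ∉ Cm G A e c a b x ∨ G.t g ∉ Cm G A e c a b x) → c' g = c g) := by
  refine ⟨mc (mF G A e c a b x e') f c a b, ⟨m_st h he' hj f hf, ?_, ?_⟩, m_ag h he' f, m_kmp h he' f,
    m_cm h he' hx' f, ?_⟩
  · rw [miss_iff, m_dga h f hx']
    exact hfx
  · rw [miss_iff, m_dgb h f hy']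
    exact hfy
  · intro g hg
    unfold mc
    refine if_neg fun hF => ?_
    rcases hg with hg | hg
    · exact hg (mF_ends hF (Or.inl rfl))
    · exact hg (mF_ends hF (Or.inr rfl))

/-- degrees in `F` -/
private theorem m_deg (h : Cf G d A e c x y a b) {e' : E} {x' y' : V} (he' : e' ∈ kmp A e c a b)
    (hj : G.joins e' x' y') {v : V} (hv : v ∈ Cm G A e c a b x) :
    G.deg (mF G A e c a b x e') v + (if v = x' ∨ v = y' then 1 else 0) = 2 * d := by
  rw [← cf_deg h hv]
  unfold MG.deg
  have h1 : (kmp A e c a b).filter (fun g => G.inc g v) =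
      (mF G A e c a b x e').filter (fun g => G.inc g v) ∪ (if v = x' ∨ v = y' then {e'} else ∅) := by
    ext g
    rw [Finset.mem_union, Finset.mem_filter, Finset.mem_filter]
    by_cases hg : g = e'
    · subst hg
      have h2 : g ∉ mF G A e c a b x g := fun h3 => (mF_mem.1 h3).1.1 rfl
      by_cases hi : v = x' ∨ v = y'
      · rw [if_pos hi]
        simp [he', (m_inc hj).2 hi]
      · rw [if_neg hi]
        have h3 : ¬ G.inc g v := fun h4 => hi ((m_inc hj).1 h4)
        simp [h3]
    · have h2 : g ∉ (if v = x' ∨ v = y' then ({e'} : Finset E) else ∅) := by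
        by_cases hi : v = x' ∨ v = y'
        · rw [if_pos hi]
          simpa using hg
        · rw [if_neg hi]
          simp
      constructor
      · rintro ⟨h3, h4⟩
        exact Or.inl ⟨mF_of h3 hg h4 hv, h4⟩
      · rintro (h3 | h3)
        · exact ⟨(mF_mem.1 h3.1).1.2, h3.2⟩
        · exact absurd h3 h2
  rw [h1, Finset.card_union_of_disjoint]
  · by_cases hi : v = x' ∨ v = y'
    · rw [if_pos hi, if_pos hi, Finset.card_singleton]
    · rw [if_neg hi, if_neg hi, Finset.card_empty]
  · rw [Finset.disjoint_left]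
    intro g hg hg'
    have h2 := (mF_mem.1 (Finset.mem_filter.1 hg).1).1.1
    by_cases hi : v = x' ∨ v = y'
    · rw [if_pos hi, Finset.mem_singleton] at hg'
      exact h2 hg'
    · rw [if_neg hi] at hg'
      simp at hg'

/-- moving the root to the edge `e'` -/
theorem move (h : Cf G d A e c x y a b) {e' : E} {x' y' : V} (he' : e' ∈ kmp A e c a b) (hj : G.joins e' x' y')
    (hx' : x' ∈ Cm G A e c a b x) :
    ∃ c', Cf G d A e' c' x' y' a b ∧ Ag A e c e' c' a b ∧ kmp A e' c' a b = kmp A e c a b ∧
      Cm G A e' c' a b x' = Cm G A e c a b x ∧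
      (∀ g, (G.s g ∉ Cm G A e c a b x ∨ G.t g ∉ Cm G A e c a b x) → c' g = c g) := by
  have hne := m_ne hj
  have hy' : y' ∈ Cm G A e c a b x := by
    rw [mem_cm] at hx' ⊢
    exact hx'.tail ⟨e', he', hj⟩
  set F := mF G A e c a b x e' with hFdef
  have hdeg : ∀ v ∈ Cm G A e c a b x, G.deg F v + (if v = x' ∨ v = y' then 1 else 0) = 2 * d :=
    fun v hv => m_deg h he' hj hv
  -- connectedness
  have hxy : G.Reach F x' y' := by
    by_contra hcon
    set X := (Cm G A e c a b x).filter (fun v => G.Reach F x' v) with hX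
    have hclo : Clo G F X := by
      intro g hg
      rw [hX, Finset.mem_filter, Finset.mem_filter]
      have h1 := mF_ends hg (Or.inl rfl)
      have h2 := mF_ends hg (Or.inr rfl)
      constructor
      · rintro ⟨-, h3⟩
        exact ⟨h2, h3.tail ⟨g, hg, Or.inl ⟨rfl, rfl⟩⟩⟩
      · rintro ⟨-, h3⟩
        exact ⟨h1, h3.tail ⟨g, hg, Or.inr ⟨rfl, rfl⟩⟩⟩
    have h1 := hand_closed hclo
    have h2 : ∑ v ∈ X, (G.deg F v + (if v = x' then 1 else 0)) = ∑ v ∈ X, 2 * d := by
      refine Finset.sum_congr rfl fun v hv => ?_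
      rw [hX, Finset.mem_filter] at hv
      rw [← hdeg v hv.1]
      have h3 : v ≠ y' := by
        rintro rfl
        exact hcon hv.2
      simp [h3]
    have h4 : x' ∈ X := by
      rw [hX, Finset.mem_filter]
      exact ⟨hx', Relation.ReflTransGen.refl⟩
    rw [Finset.sum_add_distrib, Finset.sum_ite_eq' X x' (fun _ => 1), if_pos h4, h1, Finset.sum_const,
      smul_eq_mul] at h2
    have h5 : X.card * (2 * d) = 2 * (X.card * d) := by ring
    omega
  have hreach : ∀ v, G.Reach (kmp A e c a b) x' v → G.Reach F x' v := by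
    intro v hv
    induction hv with
    | refl => exact Relation.ReflTransGen.refl
    | tail h1 h2 ih =>
      rename_i u w
      obtain ⟨g, hg, hgj⟩ := h2
      have hu : u ∈ Cm G A e c a b x := by
        rw [mem_cm] at hx' ⊢
        exact hx'.trans h1
      by_cases hge : g = e'
      · subst hge
        rcases (m_inc hj).1 ((m_inc hgj).2 (Or.inr rfl)) with h3 | h3
        · rw [h3]
          exact Relation.ReflTransGen.refl
        · rw [h3]
          exact hxy
      · exact ih.tail ⟨g, mF_of hg hge ((m_inc hgj).2 (Or.inl rfl)) hu, hgj⟩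
  have hbal : ∀ g ∈ F, G.Reach F x' (G.s g) := by
    intro g hg
    have h1 := mF_ends hg (Or.inl rfl)
    rw [mem_cm] at h1 hx'
    exact hreach _ ((reach_symm hx').trans h1)
  obtain ⟨f, hf1, hf2⟩ := balance (G := G) F x' hbal
  have hcard := fun v => balance_card (G := G) F f v
  -- degrees of the two parts
  have hgen : ∀ v ∈ Cm G A e c a b x, G.deg (F.filter (fun g => f g = true)) v ≤ d ∧
      G.deg (F.filter (fun g => f g = false)) v ≤ d := by
    intro v hv
    have h1 := hdeg v hv
    obtain ⟨h2, h3⟩ := hcard v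
    by_cases hvx : v = x'
    · subst hvx
      rw [if_pos (Or.inl rfl)] at h1
      have h4 := abs_le.1 hf2
      constructor <;> omega
    · have h4 := abs_le.1 (hf1 v hvx)
      split_ifs at h1 <;> constructor <;> omega
  have hX := hdeg x' hx'
  have hY := hdeg y' hy'
  rw [if_pos (Or.inl rfl)] at hX
  rw [if_pos (Or.inr rfl)] at hY
  obtain ⟨hX1, hX2⟩ := hcard x'
  obtain ⟨hY1, hY2⟩ := hcard y'
  have hX3 := abs_le.1 hf2
  have hY3 := abs_le.1 (hf1 y' hne.symm)
  have hst := m_st h he' hj f hgen
  by_cases hc1 : G.deg (F.filter (fun g => f g = true)) x' < d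
  · by_cases hc2 : G.deg (F.filter (fun g => f g = false)) y' < d
    · exact m_good h he' hj hx' hy' f hgen hc1 hc2
    · exfalso
      have hc3 : G.deg (F.filter (fun g => f g = true)) y' < d := by omega
      refine (kempe hst (a := a) (b := a) ?_ ?_).1 rfl
      · rw [miss_iff, m_dga h f hx']
        exact hc1
      · rw [miss_iff, m_dga h f hy']
        exact hc3
  · have hc4 : G.deg (F.filter (fun g => f g = false)) x' < d := by omega
    by_cases hc2 : G.deg (F.filter (fun g => f g = false)) y' < d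
    · exfalso
      refine (kempe hst (a := b) (b := b) ?_ ?_).1 rfl
      · rw [miss_iff, m_dgb h f hx']
        exact hc4
      · rw [miss_iff, m_dgb h f hy']
        exact hc2
    · have hc3 : G.deg (F.filter (fun g => f g = true)) y' < d := by omega
      have e1 : ∀ v, G.deg (F.filter (fun g => (!f g) = true)) v =
          G.deg (F.filter (fun g => f g = false)) v := by
        intro v
        congr 2
        ext g
        simp
      have e2 : ∀ v, G.deg (F.filter (fun g => (!f g) = false)) v =
          G.deg (F.filter (fun g => f g = true)) v := by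
        intro v
        congr 2
        ext g
        simp
      refine m_good h he' hj hx' hy' (fun g => !f g) ?_ ?_ ?_
      · intro v hv
        exact ⟨(e1 v).le.trans (hgen v hv).2, (e2 v).le.trans (hgen v hv).1⟩
      · exact (e1 x').trans_lt hc4
      · exact (e2 y').trans_lt hc3

private theorem m_odd {F : Finset E} {I : Finset V} {z : V} (hz : z ∈ I) (hc : Clo G F I)
    (h : ∀ v ∈ I, G.deg F v + (if v = z then 1 else 0) = d) : Odd (d * I.card) := by
  have h1 := hand_closed hc
  have h2 : ∑ v ∈ I, (G.deg F v + (if v = z then 1 else 0)) = ∑ v ∈ I, d := Finset.sum_congr rfl h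
  rw [Finset.sum_add_distrib, Finset.sum_ite_eq' I z (fun _ => 1), if_pos hz, h1, Finset.sum_const,
    smul_eq_mul] at h2
  rw [mul_comm, ← h2]
  exact ⟨_, rfl⟩

theorem cm_odd (h : Cf G d A e c x y a b) : Odd (d * (Cm G A e c a b x).card) := by
  refine m_odd (cf_x h) cf_clo_a fun v hv => ?_
  change G.dg c (A.erase e) a v + _ = d
  obtain ⟨-, h1, -, -, h4⟩ := cf_root h
  by_cases hvx : v = x
  · rw [if_pos hvx, hvx]
    exact h1
  · rw [if_neg hvx]
    by_cases hvy : v = y
    · rw [hvy]
      exact h4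
    · exact (cf_other h hvx hvy hv).1

/-- a closed set of colour `b` inside the component, containing `y` -/
theorem clo_odd (h : Cf G d A e c x y a b) {I : Finset V} (hI : I ⊆ Cm G A e c a b x) (hy : y ∈ I)
    (hc : Clo G (cls (A.erase e) c b) I) : Odd (d * I.card) := by
  refine m_odd hy hc fun v hv => ?_
  change G.dg c (A.erase e) b v + _ = d
  obtain ⟨-, -, h2, h3, -⟩ := cf_root h
  by_cases hvy : v = y
  · rw [if_pos hvy, hvy]
    exact h3
  · rw [if_neg hvy]
    by_cases hvx : v = x
    · rw [hvx]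
      exact h2
    · exact (cf_other h hvx hvy (hI hv)).2

end Pool.Agent.H58.DG
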