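import Pool.Agent.H58.DG.TDefs

/-!
# Two moves in two colours

`kswap`: Kempe exchange of `al` and `ga` on the component of `w` in `two B c al ga` for a valid colouring of `B` (use `swp`, `swap_dg` of
`Pool.Agent.H77.Df.Moves` with `C = {v | G.Reach (two B c al ga) w v}`, as in `cf_swap`; validity as in `swap_st`).
The last two statements describe the new colours of the edges of `B`: an edge coloured `al` or `ga` has both ends in `C` or none.
`two_point2`: variant of `two_point` (same proof, see `TwoPoint.lean`): there is no third vertex, but the degree of `q2` is at most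
`2 d - 2`.  In the augmented multigraph (with the additional edge `none` joining `q1` and `q2`) all degrees are at most `2 d` and that of
`q2` is at most `2 d - 1`; apply `balance` with `z := q2`.
-/

set_option autoImplicit false

open Finset
open scoped Classical

namespace Pool.Agent.H58.DG

open Pool.Agent.H77.Df

variable {V E : Type} [Fintype V] [Fintype E] {G : MG V E} {k d : ℕ} {B : Finset E} {c : E → Fin k}

/-- the multigraph with an additional edge -/
private def ts2G (G : MG V E) {q1 q2 : V} (h : q1 ≠ q2) : MG V (Option E) where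
  s o := o.elim q1 G.s
  t o := o.elim q2 G.t
  ne o := by
    cases o with
    | none => exact h
    | some g => exact G.ne g

/-- the edges of `K` and the additional edge -/
private noncomputable def ts2K (K : Finset E) : Finset (Option E) := insert none (K.map Function.Embedding.some)

omit [Fintype V] [Fintype E] in
private theorem ts2_deg (K : Finset E) {q1 q2 : V} (h : q1 ≠ q2) (P : Option E → Prop) [DecidablePred P] (v : V) :
    (ts2G G h).deg ((ts2K K).filter P) v = (K.filter (fun g => P (some g) ∧ G.inc g v)).card +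
      (if P none ∧ (q1 = v ∨ q2 = v) then 1 else 0) := by
  have h1 : ((K.map Function.Embedding.some).filter (fun o => P o ∧ (ts2G G h).inc o v)).card =
      (K.filter (fun g => P (some g) ∧ G.inc g v)).card := by
    rw [Finset.filter_map, Finset.card_map]
    rfl
  have h2 : (ts2G G h).inc none v ↔ (q1 = v ∨ q2 = v) := Iff.rfl
  unfold MG.deg ts2K
  rw [Finset.filter_filter, Finset.filter_insert]
  by_cases h3 : P none ∧ (q1 = v ∨ q2 = v)
  · rw [if_pos h3, if_pos (by rw [h2]; exact h3), Finset.card_insert_of_notMem (by simp), h1]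
  · rw [if_neg h3, if_neg (by rw [h2]; exact h3), h1, add_zero]

omit [Fintype V] [Fintype E] in
private theorem ts2_joins {g : E} {u w : V} (h : G.joins g u w) : (G.s g = u ∧ G.t g = w) ∨ (G.s g = w ∧ G.t g = u) := h

omit [Fintype V] [Fintype E] in
private theorem ts2_reach {F : Finset E} {q1 q2 : V} (h12 : q1 ≠ q2) {v : V} (h : G.Reach F q1 v) :
    (ts2G G h12).Reach (ts2K (F.filter (fun g => G.Reach F q1 (G.s g)))) q1 v := by
  induction h with
  | refl => exact Relation.ReflTransGen.refl
  | @tail u w h1 h2 ih =>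
    obtain ⟨g, hg, hj⟩ := h2
    have h3 : G.Reach F q1 (G.s g) := by
      rcases ts2_joins hj with h4 | h4
      · rw [h4.1]; exact h1
      · rw [h4.1]; exact h1.tail ⟨g, hg, hj⟩
    refine ih.tail ⟨some g, ?_, hj⟩
    unfold ts2K
    simp [hg, h3]

omit [Fintype V] [Fintype E] in
private theorem ts2_dg {B : Finset E} {c : E → Fin k} (q : Fin k) (v : V) :
    G.dg c B q v = (B.filter (fun g => c g = q ∧ G.inc g v)).card := by
  unfold MG.dg MG.deg
  rw [Finset.filter_filter]

theorem kswap (hval : G.Valid d B c) {al ga : Fin k} (hne : al ≠ ga) (w : V) :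
    ∃ c' : E → Fin k, G.Valid d B c' ∧ (∀ q, q ≠ al → q ≠ ga → ∀ g, (c' g = q ↔ c g = q)) ∧
      (∀ v, G.Reach (two B c al ga) w v →
        G.dg c' B al v = G.dg c B ga v ∧ G.dg c' B ga v = G.dg c B al v) ∧
      (∀ v, ¬ G.Reach (two B c al ga) w v → ∀ q, G.dg c' B q v = G.dg c B q v) ∧
      (∀ g ∈ B, G.Reach (two B c al ga) w (G.s g) → (c g = al → c' g = ga) ∧ (c g = ga → c' g = al)) ∧
      (∀ g ∈ B, ¬ G.Reach (two B c al ga) w (G.s g) → c' g = c g) := by
  obtain ⟨C, hCd⟩ : ∃ C : Set V, C = {v | G.Reach (two B c al ga) w v} := ⟨_, rfl⟩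
  have hmem : ∀ v, v ∈ C ↔ G.Reach (two B c al ga) w v := fun v => by rw [hCd]; rfl
  have hC : ∀ g ∈ B, c g = al ∨ c g = ga → (G.s g ∈ C ↔ G.t g ∈ C) := by
    intro g hg hcg
    have hg2 : g ∈ two B c al ga := by
      unfold two
      exact Finset.mem_filter.2 ⟨hg, hcg⟩
    rw [hmem, hmem]
    constructor
    · intro h5
      exact Relation.ReflTransGen.tail h5 ⟨g, hg2, Or.inl ⟨rfl, rfl⟩⟩
    · intro h5
      exact Relation.ReflTransGen.tail h5 ⟨g, hg2, Or.inr ⟨rfl, rfl⟩⟩
  refine ⟨swp G c C al ga, ?_, ?_, ?_, ?_, ?_, ?_⟩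
  · intro q v
    by_cases hv : v ∈ C
    · obtain ⟨h1, h2⟩ := (swap_dg hne hC v).1 hv
      by_cases hq1 : q = al
      · rw [hq1, h1]
        exact hval _ _
      · by_cases hq2 : q = ga
        · rw [hq2, h2]
          exact hval _ _
        · rw [(swap_dg hne hC v).2.2 q hq1 hq2]
          exact hval _ _
    · rw [(swap_dg hne hC v).2.1 hv q]
      exact hval _ _
  · intro q hq1 hq2 g
    unfold swp
    split_ifs with h5 h6 h7
    · rw [h6]
      exact ⟨fun h8 => absurd h8.symm hq2, fun h8 => absurd h8.symm hq1⟩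
    · rw [h7]
      exact ⟨fun h8 => absurd h8.symm hq1, fun h8 => absurd h8.symm hq2⟩
    · exact Iff.rfl
    · exact Iff.rfl
  · intro v hv
    exact (swap_dg hne hC v).1 ((hmem v).2 hv)
  · intro v hv q
    exact (swap_dg hne hC v).2.1 (fun h => hv ((hmem v).1 h)) q
  · intro g _ hr
    have h1 : G.s g ∈ C ∨ G.t g ∈ C := Or.inl ((hmem _).2 hr)
    unfold swp
    rw [if_pos h1]
    constructor
    · intro h2
      rw [if_pos h2]
    · intro h2
      rw [if_neg (fun h3 => hne (h3.symm.trans h2)), if_pos h2]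
  · intro g hg hr
    have h1 : G.s g ∉ C := fun h => hr ((hmem _).1 h)
    unfold swp
    by_cases h2 : G.t g ∈ C
    · have h3 : ¬ (c g = al ∨ c g = ga) := fun h => h1 ((hC g hg h).2 h2)
      rw [if_pos (Or.inr h2), if_neg (fun h => h3 (Or.inl h)), if_neg (fun h => h3 (Or.inr h))]
    · rw [if_neg (by rintro (h | h); exacts [h1 h, h2 h])]

theorem two_point2 (hval : G.Valid d B c) {al ga : Fin k} (hne : al ≠ ga) {q1 q2 : V} (h12 : q1 ≠ q2)
    (h1 : G.dg c B al q1 + G.dg c B ga q1 < 2 * d)
    (h2 : G.dg c B al q2 + G.dg c B ga q2 + 1 < 2 * d) (r2 : G.Reach (two B c al ga) q1 q2) :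
    ∃ c' : E → Fin k, G.Valid d B c' ∧ al ∈ G.miss d c' B q1 ∧ al ∈ G.miss d c' B q2 ∧
      (∀ q, q ≠ al → q ≠ ga → ∀ g, (c' g = q ↔ c g = q)) := by
  obtain ⟨F, hF⟩ : ∃ F, F = two B c al ga := ⟨_, rfl⟩
  rw [← hF] at r2
  have hFm : ∀ g, g ∈ F ↔ g ∈ B ∧ (c g = al ∨ c g = ga) := fun g => by
    rw [hF]; unfold two; exact Finset.mem_filter
  obtain ⟨K, hK⟩ : ∃ K, K = F.filter (fun g => G.Reach F q1 (G.s g)) := ⟨_, rfl⟩
  have hKm : ∀ g, g ∈ K ↔ g ∈ F ∧ G.Reach F q1 (G.s g) := fun g => by
    rw [hK]; exact Finset.mem_filter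
  -- both ends of an edge of `F` are reachable or none
  have hend : ∀ g ∈ F, (G.Reach F q1 (G.s g) ↔ G.Reach F q1 (G.t g)) := fun g hg =>
    ⟨fun h => h.tail ⟨g, hg, Or.inl ⟨rfl, rfl⟩⟩, fun h => h.tail ⟨g, hg, Or.inr ⟨rfl, rfl⟩⟩⟩
  have hinc : ∀ g ∈ F, ∀ v, G.inc g v → (G.Reach F q1 (G.s g) ↔ G.Reach F q1 v) := by
    intro g hg v hv
    rcases hv with h | h
    · rw [h]
    · rw [hend g hg, h]
  -- balance
  have hreach : ∀ v, G.Reach F q1 v → (ts2G G h12).Reach (ts2K K) q1 v := fun v hv => by
    rw [hK]; exact ts2_reach h12 hv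
  have hzq : (ts2G G h12).Reach (ts2K K) q2 q1 := reach_symm (hreach q2 r2)
  obtain ⟨f, hf1, hf2⟩ := balance (G := ts2G G h12) (ts2K K) q2 (by
    intro o ho
    cases o with
    | none => exact hzq
    | some g =>
      have hg : g ∈ K := by
        unfold ts2K at ho
        simpa using ho
      exact Relation.ReflTransGen.trans hzq (hreach _ ((hKm g).1 hg).2))
  -- degrees in the augmented component
  have hdK : ∀ v, G.Reach F q1 v → (K.filter (fun g => G.inc g v)).card = G.dg c B al v + G.dg c B ga v := by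
    intro v hv
    rw [ts2_dg, ts2_dg, ← Finset.card_union_of_disjoint]
    · congr 1
      ext g
      simp only [Finset.mem_filter, Finset.mem_union, hKm, hFm]
      constructor
      · rintro ⟨⟨⟨h3, h4⟩, _⟩, h5⟩
        rcases h4 with h4 | h4
        · exact Or.inl ⟨h3, h4, h5⟩
        · exact Or.inr ⟨h3, h4, h5⟩
      · rintro (⟨h3, h4, h5⟩ | ⟨h3, h4, h5⟩)
        · exact ⟨⟨⟨h3, Or.inl h4⟩, (hinc g ((hFm g).2 ⟨h3, Or.inl h4⟩) v h5).2 hv⟩, h5⟩
        · exact ⟨⟨⟨h3, Or.inr h4⟩, (hinc g ((hFm g).2 ⟨h3, Or.inr h4⟩) v h5).2 hv⟩, h5⟩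
    · rw [Finset.disjoint_left]
      intro g hg hg'
      simp only [Finset.mem_filter] at hg hg'
      exact hne (hg.2.1.symm.trans hg'.2.1)
  have hdeg : ∀ v, G.Reach F q1 v → (ts2G G h12).deg (ts2K K) v ≤ 2 * d ∧
      (v = q2 → (ts2G G h12).deg (ts2K K) v + 1 ≤ 2 * d) := by
    intro v hv
    have h3 := ts2_deg (G := G) K h12 (fun _ => True) v
    simp only [true_and, Finset.filter_true] at h3
    rw [h3, hdK v hv]
    have h4 := hval al v
    have h5 := hval ga v
    constructor
    · split_ifs with h6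
      · rcases h6 with rfl | rfl
        · omega
        · omega
      · omega
    · rintro rfl
      rw [if_pos (Or.inr rfl)]
      omega
  have hhalf : ∀ β : Bool, ∀ v, G.Reach F q1 v → (ts2G G h12).deg ((ts2K K).filter (fun o => f o = β)) v ≤ d := by
    intro β v hv
    obtain ⟨h3, h4⟩ := balance_card (G := ts2G G h12) (ts2K K) f v
    obtain ⟨h5, h6⟩ := hdeg v hv
    by_cases hvz : v = q2
    · have h7 := h6 hvz
      have h8 : |(ts2G G h12).exc (ts2K K) f v| ≤ 2 := by rw [hvz]; exact hf2
      rw [abs_le] at h8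
      cases β <;> omega
    · have h8 := hf1 v hvz
      rw [abs_le] at h8
      cases β <;> omega
  -- the new colouring
  obtain ⟨c', hc'⟩ : ∃ c' : E → Fin k, c' = fun g => if g ∈ K then (if f (some g) = f none then al else ga) else c g :=
    ⟨_, rfl⟩
  have hcK : ∀ g ∈ K, c' g = if f (some g) = f none then al else ga := fun g hg => by
    rw [hc']; exact if_pos hg
  have hcN : ∀ g, g ∉ K → c' g = c g := fun g hg => by
    rw [hc']; exact if_neg hg
  have hother : ∀ q, q ≠ al → q ≠ ga → ∀ g, (c' g = q ↔ c g = q) := by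
    intro q hq1 hq2 g
    by_cases hg : g ∈ K
    · rw [hcK g hg]
      have h3 := ((hFm g).1 ((hKm g).1 hg).1).2
      constructor
      · intro h4
        split_ifs at h4
        · exact absurd h4.symm hq1
        · exact absurd h4.symm hq2
      · intro h4
        rcases h3 with h3 | h3
        · exact absurd (h4.symm.trans h3) hq1
        · exact absurd (h4.symm.trans h3) hq2
    · rw [hcN g hg]
  have hun : ∀ v, ¬ G.Reach F q1 v → ∀ q, G.dg c' B q v = G.dg c B q v := by
    intro v hv q
    rw [ts2_dg, ts2_dg]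
    congr 1
    apply Finset.filter_congr
    intro g _
    constructor
    · rintro ⟨h3, h4⟩
      refine ⟨?_, h4⟩
      rwa [hcN g (fun hg => hv ((hinc g ((hKm g).1 hg).1 v h4).1 ((hKm g).1 hg).2))] at h3
    · rintro ⟨h3, h4⟩
      refine ⟨?_, h4⟩
      rwa [hcN g (fun hg => hv ((hinc g ((hKm g).1 hg).1 v h4).1 ((hKm g).1 hg).2))]
  -- the edges of `K` at a reachable vertex
  have hmemK : ∀ v, G.Reach F q1 v → ∀ g ∈ B, G.inc g v → (c' g = al ∨ c' g = ga) → g ∈ K := by
    intro v hv g hg hi hcg
    by_contra hgK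
    rw [hcN g hgK] at hcg
    have h3 : g ∈ F := (hFm g).2 ⟨hg, hcg⟩
    exact hgK ((hKm g).2 ⟨h3, (hinc g h3 v hi).2 hv⟩)
  have hKB : ∀ g ∈ K, g ∈ B := fun g hg => ((hFm g).1 ((hKm g).1 hg).1).1
  have hal : ∀ v, G.Reach F q1 v → G.dg c' B al v + (if q1 = v ∨ q2 = v then 1 else 0) ≤ d := by
    intro v hv
    have h3 := hhalf (f none) v hv
    rw [ts2_deg K h12 (fun o => f o = f none) v] at h3
    simp only [true_and] at h3
    have h4 : G.dg c' B al v = (K.filter (fun g => f (some g) = f none ∧ G.inc g v)).card := by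
      rw [ts2_dg]
      congr 1
      ext g
      rw [Finset.mem_filter, Finset.mem_filter]
      constructor
      · rintro ⟨h5, h6, h7⟩
        have h8 := hmemK v hv g h5 h7 (Or.inl h6)
        rw [hcK g h8] at h6
        refine ⟨h8, ?_, h7⟩
        by_contra h9
        rw [if_neg h9] at h6
        exact hne h6.symm
      · rintro ⟨h5, h6, h7⟩
        exact ⟨hKB g h5, by rw [hcK g h5, if_pos h6], h7⟩
    rw [h4]
    exact h3
  have hga : ∀ v, G.Reach F q1 v → G.dg c' B ga v ≤ d := by
    intro v hv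
    have h3 := hhalf (!f none) v hv
    rw [ts2_deg K h12 (fun o => f o = !f none) v] at h3
    have h4 : G.dg c' B ga v = (K.filter (fun g => f (some g) = (!f none) ∧ G.inc g v)).card := by
      rw [ts2_dg]
      congr 1
      ext g
      rw [Finset.mem_filter, Finset.mem_filter]
      constructor
      · rintro ⟨h5, h6, h7⟩
        have h8 := hmemK v hv g h5 h7 (Or.inr h6)
        rw [hcK g h8] at h6
        refine ⟨h8, ?_, h7⟩
        by_contra h9
        have h10 : f (some g) = f none := by
          cases h11 : f (some g) <;> cases h12' : f none <;> simp_all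
        rw [if_pos h10] at h6
        exact hne h6
      · rintro ⟨h5, h6, h7⟩
        refine ⟨hKB g h5, ?_, h7⟩
        rw [hcK g h5, if_neg]
        rw [h6]
        cases f none <;> simp
    rw [h4]
    omega
  have hqo : ∀ q, q ≠ al → q ≠ ga → ∀ v, G.dg c' B q v = G.dg c B q v := by
    intro q hq1 hq2 v
    rw [ts2_dg, ts2_dg]
    congr 1
    apply Finset.filter_congr
    intro g _
    rw [hother q hq1 hq2 g]
  refine ⟨c', ?_, ?_, ?_, hother⟩
  · intro q v
    by_cases hv : G.Reach F q1 v
    · by_cases hq1 : q = al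
      · have := hal v hv
        rw [hq1]
        omega
      · by_cases hq2 : q = ga
        · rw [hq2]
          exact hga v hv
        · rw [hqo q hq1 hq2 v]
          exact hval q v
    · rw [hun v hv q]
      exact hval q v
  · rw [miss_iff]
    have := hal q1 Relation.ReflTransGen.refl
    rw [if_pos (Or.inl rfl)] at this
    omega
  · rw [miss_iff]
    have := hal q2 r2
    rw [if_pos (Or.inr rfl)] at this
    omega

end Pool.Agent.H58.DG
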