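import Pool.Agent.H58.DG.TBase
import Pool.Agent.H58.DG.TSwap

/-!
# The last vertex, unused colours

`tt_A`: `g n` joins `y r` and `y n`, `r < n`, and `q` is an unused colour missing at both.  Recolour `g n` with `q` (`c' = Function.update c (g n) q`):
valid, as `q` was missing at both ends.  The colour `p = c (g n)` (`p ≠ q`) has now one edge less at `y r` and at `y n`.  `T_{n-1}` is a tree for
`c'`: its edges are different from `g n` (`g i` joins `y i` and an earlier vertex, so it is not incident with `y n`), they have the same
colours, which are different from `q`, so their degrees have not increased and `own` still holds.  By `Ih` `T_{n-1}` is elementary for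
`c'`.  `p` is missing at `y w`, `w < n` (`own` for `c`, still true for `c'`), and at `y r` (the degree was at most `d`, now one less).
If `w ≠ r`: not disjoint.  If `w = r`: the degree of `p` at `y r` is at most `d - 2`, not simple.

`tt_A1`: `q` unused, missing at `y n`, and missing at some `y j`, `j < n`, or with degree at most `d - 2` at `y n`.  Let `g n` join
`y r`, `y n`, `r < n` (`att`).  `q` is not missing at `y r` (`tt_A`).  Let `al` be missing at `y r` and unused (`tt_free` with `m = n - 1`, `t = 0`,
`T_{n-1}` is elementary by `Ih`); `al ≠ q`, `al` is not missing at `y n` (`tt_A`).  Let `R = G.Reach (two B c al q) (y r)`.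
(1) `y n` not in `R`: exchange on the component of `y n` (`kswap` with `w = y n`): `y n` misses `al`, the degrees at `y r` do not change, the
tree is still a tree (`tt_ag`), `al` is still unused: `tt_A` for `c'`.
(2) `y n` in `R` and degree of `q` at `y n` at most `d - 2`: `two_point2` with `q1 = y r`, `q2 = y n` (the colours `al`, `q`): both miss `al`; `tt_A`.
(3) `y n` in `R`, `q` missing at `y j`, `j < n`; `j ≠ r`.  If `y j` is not in `R`: exchange on the component of `y j`: `y j` and `y r` miss `al`,
against `Ih` for `T_{n-1}`.  If `y j` is in `R`: `two_point` with `q1 = y r`, `q2 = y n`, `z = y j`: `y r`, `y n` miss `al`; `tt_A`.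
-/

set_option autoImplicit false

open Finset
open scoped Classical

namespace Pool.Agent.H58.DG

open Pool.Agent.H77.Df

variable {V E : Type} [Fintype V] [Fintype E] {G : MG V E} {k d s : ℕ} {A : Finset E} {e : E} {c c' : E → Fin k}
  {n m : ℕ} {y : ℕ → V} {g : ℕ → E}

omit [Fintype V] [Fintype E] in
private theorem TA_dg {B : Finset E} {c : E → Fin k} (q : Fin k) (v : V) :
    G.dg c B q v = (B.filter (fun g => c g = q ∧ G.inc g v)).card := by
  unfold MG.dg MG.deg
  rw [Finset.filter_filter]

omit [Fintype V] [Fintype E] in
/-- the degrees after recolouring one edge -/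
private theorem TA_upd {B : Finset E} {c : E → Fin k} {f : E} (hf : f ∈ B) {q : Fin k} (hq : c f ≠ q) (v : V) :
    (∀ a, a ≠ c f → a ≠ q → G.dg (Function.update c f q) B a v = G.dg c B a v) ∧
      (G.dg (Function.update c f q) B q v = G.dg c B q v + if G.inc f v then 1 else 0) ∧
      (G.dg (Function.update c f q) B (c f) v + (if G.inc f v then 1 else 0) = G.dg c B (c f) v) := by
  refine ⟨?_, ?_, ?_⟩
  · intro a ha haq
    rw [TA_dg, TA_dg]
    congr 1
    refine Finset.filter_congr fun g _ => ?_
    by_cases hg : g = f
    · subst hg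
      rw [Function.update_self]
      exact ⟨fun h => absurd h.1.symm haq, fun h => absurd h.1.symm ha⟩
    · rw [Function.update_of_ne hg]
  · rw [TA_dg, TA_dg]
    by_cases hi : G.inc f v
    · rw [if_pos hi]
      have h1 : B.filter (fun g => Function.update c f q g = q ∧ G.inc g v) =
          insert f (B.filter (fun g => c g = q ∧ G.inc g v)) := by
        ext g
        rw [Finset.mem_filter, Finset.mem_insert, Finset.mem_filter]
        by_cases hg : g = f
        · subst hg
          rw [Function.update_self]
          exact ⟨fun _ => Or.inl rfl, fun _ => ⟨hf, rfl, hi⟩⟩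
        · rw [Function.update_of_ne hg]
          exact ⟨fun h => Or.inr h, fun h => h.resolve_left hg⟩
      rw [h1, Finset.card_insert_of_notMem]
      intro h2
      exact hq (Finset.mem_filter.1 h2).2.1
    · rw [if_neg hi, add_zero]
      congr 1
      refine Finset.filter_congr fun g _ => ?_
      by_cases hg : g = f
      · subst hg
        exact ⟨fun h => absurd h.2 hi, fun h => absurd h.2 hi⟩
      · rw [Function.update_of_ne hg]
  · rw [TA_dg, TA_dg]
    by_cases hi : G.inc f v
    · rw [if_pos hi]
      have h1 : B.filter (fun g => Function.update c f q g = c f ∧ G.inc g v) =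
          (B.filter (fun g => c g = c f ∧ G.inc g v)).erase f := by
        ext g
        rw [Finset.mem_filter, Finset.mem_erase, Finset.mem_filter]
        by_cases hg : g = f
        · subst hg
          rw [Function.update_self]
          exact ⟨fun h => absurd h.2.1.symm hq, fun h => absurd rfl h.1⟩
        · rw [Function.update_of_ne hg]
          exact ⟨fun h => ⟨hg, h⟩, fun h => h.2⟩
      rw [h1, Finset.card_erase_add_one]
      exact Finset.mem_filter.2 ⟨hf, rfl, hi⟩
    · rw [if_neg hi, add_zero]
      congr 1
      refine Finset.filter_congr fun g _ => ?_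
      by_cases hg : g = f
      · subst hg
        exact ⟨fun h => absurd h.2 hi, fun h => absurd h.2 hi⟩
      · rw [Function.update_of_ne hg]

theorem tt_A (hI : Ih G k d A e n y g) (hn : 2 ≤ n) (h : Tt G d A e c n y g) {r : ℕ} (hr : r < n)
    (hj : G.joins (g n) (y r) (y n)) {q : Fin k} (hq : Un c n g q) (h1 : q ∈ G.miss d c (A.erase e) (y r))
    (h2 : q ∈ G.miss d c (A.erase e) (y n)) : False := by
  have hf : g n ∈ A.erase e := h.mem n hn le_rfl
  have hpq : c (g n) ≠ q := hq n hn le_rfl
  rw [miss_iff] at h1 h2
  have hupd := fun v => TA_upd (G := G) (c := c) hf hpq v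
  have hincr : G.inc (g n) (y r) := (count_joins_inc hj).2 (Or.inl rfl)
  -- the new colouring is valid
  have hval : G.Valid d (A.erase e) (Function.update c (g n) q) := by
    intro a v
    obtain ⟨u1, u2, u3⟩ := hupd v
    by_cases ha : a = q
    · subst ha
      rw [u2]
      by_cases hi : G.inc (g n) v
      · rw [if_pos hi]
        rcases (count_joins_inc hj).1 hi with h3 | h3
        · subst h3
          omega
        · subst h3
          omega
      · rw [if_neg hi, add_zero]
        exact h.st.val a v
    · by_cases hp : a = c (g n)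
      · subst hp
        have := h.st.val (c (g n)) v
        omega
      · rw [u1 a hp ha]
        exact h.st.val a v
  -- missing colours other than q stay missing
  have hmiss : ∀ a v, a ≠ q → G.dg c (A.erase e) a v < d →
      G.dg (Function.update c (g n) q) (A.erase e) a v < d := by
    intro a v ha h3
    obtain ⟨u1, u2, u3⟩ := hupd v
    by_cases hp : a = c (g n)
    · subst hp
      omega
    · rw [u1 a hp ha]
      exact h3
  have hne : ∀ i, 2 ≤ i → i < n → g i ≠ g n := by
    intro i hi1 hi2 heq
    obtain ⟨r', hr', hj'⟩ := h.att i hi1 hi2.le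
    have h3 : G.inc (g i) (y n) := by
      rw [heq]
      exact (count_joins_inc hj).2 (Or.inr rfl)
    rcases (count_joins_inc hj').1 h3 with h4 | h4
    · have := h.inj n le_rfl r' (by omega) h4
      omega
    · have := h.inj n le_rfl i hi2.le h4
      omega
  have htree : Tt G d A e (Function.update c (g n) q) (n - 1) y g := by
    refine ⟨by omega, ⟨h.st.not, h.st.mem, h.st.jn, hval⟩,
      fun i hi j hj' hij => h.inj i (by omega) j (by omega) hij,
      fun i hi1 hi2 => h.mem i hi1 (by omega), fun i hi1 hi2 => h.att i hi1 (by omega), ?_⟩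
    intro i hi1 hi2
    obtain ⟨j, hji, hm⟩ := h.own i hi1 (by omega)
    refine ⟨j, hji, ?_⟩
    rw [Function.update_of_ne (hne i hi1 (by omega)), miss_iff]
    rw [miss_iff] at hm
    exact hmiss _ _ (hq i hi1 (by omega)) hm
  have hEl := hI (n - 1) (by omega) _ htree
  obtain ⟨w, hw, hpw⟩ := h.own n hn le_rfl
  rw [miss_iff] at hpw
  have hpw' := hmiss _ _ hpq hpw
  have hpr := (hupd (y r)).2.2
  rw [if_pos hincr] at hpr
  have hvr := h.st.val (c (g n)) (y r)
  by_cases hwr : w = r
  · subst hwr
    have h3 := hEl.1 w (by omega) (c (g n)) (miss_iff.2 hpw')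
    omega
  · refine hEl.2 w (by omega) r (by omega) hwr (c (g n)) (miss_iff.2 hpw') (miss_iff.2 ?_)
    omega

theorem tt_A1 (hdeg : ∀ v, G.deg A v + s ≤ k * d) (hns : n ≤ s + 1) (hI : Ih G k d A e n y g) (hn : 2 ≤ n)
    (h : Tt G d A e c n y g) {q : Fin k} (hq : Un c n g q) (h1 : q ∈ G.miss d c (A.erase e) (y n))
    (h2 : (∃ j < n, q ∈ G.miss d c (A.erase e) (y j)) ∨ G.dg c (A.erase e) q (y n) + 1 < d) : False := by
  obtain ⟨r, hr, hj⟩ := h.att n hn le_rfl
  have hqr : q ∉ G.miss d c (A.erase e) (y r) := fun h3 => tt_A hI hn h hr hj hq h3 h1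
  have hElm : El G d A e c (n - 1) y := hI (n - 1) (by omega) c (tt_le h (by omega) (by omega))
  obtain ⟨al, hal1, -, hal2⟩ := tt_free hdeg h hElm (by omega) (t := 0) (by omega) (j := r) (by omega) ∅ (by simp) (by omega)
  have hne : al ≠ q := by
    rintro rfl
    exact hqr hal1
  have haln : al ∉ G.miss d c (A.erase e) (y n) := fun h3 => tt_A hI hn h hr hj hal2 hal1 h3
  have hval := h.st.val
  have hyrn : y r ≠ y n := fun h3 => by
    have := h.inj r hr.le n le_rfl h3
    omega
  rw [miss_iff] at h1 hal1
  -- the last step for a new colouring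
  have fin : ∀ c' : E → Fin k, G.Valid d (A.erase e) c' → (∀ q', q' ≠ al → q' ≠ q → ∀ f, (c' f = q' ↔ c f = q')) →
      al ∈ G.miss d c' (A.erase e) (y r) → al ∈ G.miss d c' (A.erase e) (y n) → False := by
    intro c' hv ho h3 h4
    obtain ⟨t1, t2, -⟩ := tt_ag h hv ho hal2 hq
    refine tt_A hI hn t1 hr hj ?_ h3 h4
    intro i hi1 hi2
    rw [t2 i hi1 hi2]
    exact hal2 i hi1 hi2
  by_cases hR : G.Reach (two (A.erase e) c al q) (y r) (y n)
  · rcases h2 with ⟨j, hjn, hqj⟩ | h2
    · rw [miss_iff] at hqj
      have hjr : j ≠ r := by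
        rintro rfl
        exact hqr (miss_iff.2 hqj)
      have hyjr : y j ≠ y r := fun h3 => hjr (h.inj j hjn.le r hr.le h3)
      have hyjn : y j ≠ y n := fun h3 => by
        have := h.inj j hjn.le n le_rfl h3
        omega
      by_cases hRj : G.Reach (two (A.erase e) c al q) (y r) (y j)
      · obtain ⟨c', k1, k2, k3, k4⟩ := two_point hval hne hyrn hyjr hyjn
          (by have := hval q (y r); omega) (by have := hval al (y n); omega) (by have := hval al (y j); omega) hR hRj
        exact fin c' k1 k4 k2 k3
      · obtain ⟨c', k1, k2, k3, k4, -, -⟩ := kswap hval hne (y j)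
        have hnr : ¬ G.Reach (two (A.erase e) c al q) (y j) (y r) := fun h3 => hRj (reach_symm h3)
        obtain ⟨t1, t2, -⟩ := tt_ag h k1 k2 hal2 hq
        have hEl' : El G d A e c' (n - 1) y := hI (n - 1) (by omega) c' (tt_le t1 (by omega) (by omega))
        refine hEl'.2 j (by omega) r (by omega) hjr al (miss_iff.2 ?_) (miss_iff.2 ?_)
        · rw [(k3 (y j) Relation.ReflTransGen.refl).1]
          exact hqj
        · rw [k4 (y r) hnr al]
          exact hal1
    · obtain ⟨c', k1, k2, k3, k4⟩ := two_point2 hval hne hyrn
        (by have := hval q (y r); omega) (by have := hval al (y n); omega) hR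
      exact fin c' k1 k4 k2 k3
  · obtain ⟨c', k1, k2, k3, k4, -, -⟩ := kswap hval hne (y n)
    have hnr : ¬ G.Reach (two (A.erase e) c al q) (y n) (y r) := fun h3 => hR (reach_symm h3)
    refine fin c' k1 k2 (miss_iff.2 ?_) (miss_iff.2 ?_)
    · rw [k4 (y r) hnr al]
      exact hal1
    · rw [(k3 (y n) Relation.ReflTransGen.refl).1]
      exact h1

end Pool.Agent.H58.DG
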