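import Pool.Agent.H58.DG.TA

/-!
# Used colours, and the theorem that trees are elementary

`tt_B_step`: the colour `q` is missing at `y n` and at `y j`, `j < n`, and used.  Let `i` be the first index with `c (g i) = q`, `2 ≤ i ≤ n`
(`Nat.find`).  `T_{n-1}` is elementary (`Ih`), `q = c (g i)` is missing at some `y j'` with `j' < i` (`own`), `j'` and `j` are `≤ n - 1`, so
`j = j' < i`.  Let `g i` join `y r` and `y i`, `r < i` (`att`); `l = r` if `r ≠ j`, otherwise `l ∈ {0, 1}`, `l ≠ j`; so `l < i`, `l ≠ j`.  Let `al` be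
missing at `y l` and unused on `T_n` (`tt_free`, `m = n - 1`, `t = 0`).  `al ≠ q` (`q` is used).  Let `R = G.Reach (two B c al q)`.
`T_{i-1}` is a tree on which neither `al` nor `q` is used, and by `Ih` it is elementary for all colourings.
(a) `R (y j) (y l)`: otherwise exchange on the component of `y j` (`kswap`): `al` is missing at `y j` and `y l`.
(b) `¬ R (y j) (y n)`: otherwise `two_point` with `q1 = y j`, `q2 = y l`, `z = y n`: `al` is missing at `y j` and `y l`; against `T_{i-1}` elementary.
(c) so `y j`, `y l`, and both ends of `g i` (one of them is `y j` or `y l`, and `g i` is in `two`) are not in the component of `y n`.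
Let `c'` be the exchange on the component of `y n` (`kswap` with `w = y n`).  It is still a tree: colours other than `al`, `q` keep their
degrees; an edge `g m` with `c (g m) = q` has `m ≥ i`; either `c' (g m) = q`, still missing at `y j`, `j < m`; or `c' (g m) = al` and
then `m ≠ i` by (c), so `m > i > l`, and `al` is still missing at `y l`.  `al` is missing at `y n` and at `y l`; every `m` with
`c' (g m) = al` has `c (g m) = q` and `m ≠ i`: so `al` is used fewer times for `c'` than `q` for `c`.

`tt_B`: induction on the number of uses; if `q` is unused, `tt_A1`.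
`tt_el`: strong induction on `n`: `n = 1` is `tt_one`.  For `n ≥ 2` `T_{n-1}` is elementary.  If a missing colour at `y n` is not simple or is
missing at `y j`, `j < n`: if it is unused `tt_A1`; if it is used it is missing at some `y j`, `j < n` (`own`), use `tt_B`.
-/

set_option autoImplicit false

open Finset
open scoped Classical

namespace Pool.Agent.H58.DG

open Pool.Agent.H77.Df

variable {V E : Type} [Fintype V] [Fintype E] {G : MG V E} {k d s : ℕ} {A : Finset E} {e : E} {c c' : E → Fin k}
  {n m : ℕ} {y : ℕ → V} {g : ℕ → E}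

/-- number of uses of a colour -/
noncomputable def us {k : ℕ} (c : E → Fin k) (n : ℕ) (g : ℕ → E) (q : Fin k) : ℕ :=
  ((Finset.Icc 2 n).filter (fun i => c (g i) = q)).card

omit [Fintype V] [Fintype E] in
private theorem TB_dg {B : Finset E} {q al ga : Fin k} (h1 : q ≠ al) (h2 : q ≠ ga)
    (ho : ∀ q, q ≠ al → q ≠ ga → ∀ f, (c' f = q ↔ c f = q)) (v : V) : G.dg c' B q v = G.dg c B q v := by
  unfold MG.dg
  congr 1
  ext f
  rw [Finset.mem_filter, Finset.mem_filter, ho q h1 h2 f]

/-- two colours not used on an initial part: no colour is missing at two vertices after a change in these colours -/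
private theorem TB_two (hI : Ih G k d A e n y g) (h : Tt G d A e c n y g) {i : ℕ} (hi2 : 2 ≤ i) (hin : i ≤ n)
    {al ga : Fin k} (h1 : Un c (i - 1) g al) (h2 : Un c (i - 1) g ga) (hv : G.Valid d (A.erase e) c')
    (ho : ∀ q, q ≠ al → q ≠ ga → ∀ f, (c' f = q ↔ c f = q)) {j l : ℕ} (hj : j < i) (hl : l < i) (hjl : j ≠ l)
    {p : Fin k} (m1 : p ∈ G.miss d c' (A.erase e) (y j)) (m2 : p ∈ G.miss d c' (A.erase e) (y l)) : False := by
  have t1 : Tt G d A e c (i - 1) y g := tt_le h (by omega) (by omega)
  have t2 := (tt_ag t1 hv ho h1 h2).1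
  exact (hI (i - 1) (by omega) c' t2).2 j (by omega) l (by omega) hjl p m1 m2

theorem tt_B_step (hdeg : ∀ v, G.deg A v + s ≤ k * d) (hns : n ≤ s + 1) (hI : Ih G k d A e n y g) (hn : 2 ≤ n)
    (h : Tt G d A e c n y g) {q : Fin k} (hq : ¬ Un c n g q) (h1 : q ∈ G.miss d c (A.erase e) (y n))
    {j : ℕ} (hj : j < n) (h2 : q ∈ G.miss d c (A.erase e) (y j)) :
    ∃ (c' : E → Fin k) (al : Fin k) (l : ℕ), Tt G d A e c' n y g ∧ al ∈ G.miss d c' (A.erase e) (y n) ∧ l < n ∧
      al ∈ G.miss d c' (A.erase e) (y l) ∧ us c' n g al < us c n g q := by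
  have hex : ∃ i, 2 ≤ i ∧ i ≤ n ∧ c (g i) = q := by
    unfold Un at hq
    push Not at hq
    exact hq
  obtain ⟨i, ⟨hi2, hin, hic⟩, hmin⟩ : ∃ i, (2 ≤ i ∧ i ≤ n ∧ c (g i) = q) ∧
      ∀ m, 2 ≤ m → m ≤ n → c (g m) = q → i ≤ m :=
    ⟨Nat.find hex, Nat.find_spec hex, fun m a b cc => Nat.find_min' hex ⟨a, b, cc⟩⟩
  have hEl : El G d A e c (n - 1) y := hI (n - 1) (by omega) c (tt_le h (by omega) (by omega))
  -- the vertex `y j` is before `i`
  have hji : j < i := by
    obtain ⟨j', hj', hm'⟩ := h.own i hi2 hin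
    rw [hic] at hm'
    by_contra hcon
    exact hEl.2 j (by omega) j' (by omega) (by omega) q h2 hm'
  obtain ⟨r, hr, hjr⟩ := h.att i hi2 hin
  obtain ⟨l, hli, hlj, hrl⟩ : ∃ l < i, j ≠ l ∧ (r = l ∨ r = j) := by
    by_cases hrj : r = j
    · by_cases hj0 : j = 0
      · exact ⟨1, by omega, by omega, Or.inr hrj⟩
      · exact ⟨0, by omega, by omega, Or.inr hrj⟩
    · exact ⟨r, hr, fun hh => hrj hh.symm, Or.inl rfl⟩
  obtain ⟨al, hal, -, hun⟩ := tt_free (t := 0) hdeg h hEl (by omega) (by omega) (j := l) (by omega) ∅ (by simp) (by omega)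
  have haq : al ≠ q := by
    intro hh
    exact hun i hi2 hin (hic.trans hh.symm)
  have una : Un c (i - 1) g al := un_le hun (by omega)
  have unq : Un c (i - 1) g q := by
    intro m hm1 hm2 hm3
    have := hmin m hm1 (by omega) hm3
    omega
  have hval := h.st.val
  have hyjl : y j ≠ y l := fun hh => hlj (h.inj j (by omega) l (by omega) hh)
  have dq : G.dg c (A.erase e) q (y j) < d := miss_iff.1 h2
  have da : G.dg c (A.erase e) al (y l) < d := miss_iff.1 hal
  have dn : G.dg c (A.erase e) q (y n) < d := miss_iff.1 h1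
  -- (a)
  have ha : G.Reach (two (A.erase e) c al q) (y j) (y l) := by
    by_contra hcon
    obtain ⟨c1, v1, o1, in1, out1, -, -⟩ := kswap hval haq (y j)
    refine TB_two hI h hi2 hin una unq v1 o1 hji hli hlj (p := al) ?_ ?_
    · rw [miss_iff, (in1 (y j) Relation.ReflTransGen.refl).1]
      exact dq
    · rw [miss_iff, out1 (y l) hcon]
      exact da
  -- (b)
  have hb : ¬ G.Reach (two (A.erase e) c al q) (y j) (y n) := by
    intro hcon
    have hnj : y n ≠ y j := fun hh => absurd (h.inj n le_rfl j (by omega) hh) (by omega)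
    have hnl : y n ≠ y l := fun hh => absurd (h.inj n le_rfl l (by omega) hh) (by omega)
    have w1 := hval al (y j)
    have w2 := hval q (y l)
    have w3 := hval al (y n)
    obtain ⟨c1, v1, m1, m2, o1⟩ := two_point hval haq hyjl hnj hnl (by omega) (by omega) (by omega) ha hcon
    exact TB_two hI h hi2 hin una unq v1 o1 hji hli hlj m1 m2
  -- (c)
  have hcj : ¬ G.Reach (two (A.erase e) c al q) (y n) (y j) := fun hh => hb (reach_symm hh)
  have hcl : ¬ G.Reach (two (A.erase e) c al q) (y n) (y l) := fun hh => hb (ha.trans (reach_symm hh))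
  have hcr : ¬ G.Reach (two (A.erase e) c al q) (y n) (y r) := by
    rcases hrl with hh | hh
    · rw [hh]; exact hcl
    · rw [hh]; exact hcj
  have hgi : g i ∈ two (A.erase e) c al q := by
    unfold two
    exact Finset.mem_filter.2 ⟨h.mem i hi2 hin, Or.inr hic⟩
  have hci : ¬ G.Reach (two (A.erase e) c al q) (y n) (y i) := by
    intro hh
    exact hcr (Relation.ReflTransGen.tail hh ⟨g i, hgi, count_joins_symm hjr⟩)
  have hcs : ¬ G.Reach (two (A.erase e) c al q) (y n) (G.s (g i)) := by
    rcases hjr with hh | hh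
    · rw [hh.1]; exact hcr
    · rw [hh.1]; exact hci
  obtain ⟨c1, v1, o1, in1, out1, e1, e2⟩ := kswap hval haq (y n)
  have hgic : c1 (g i) = q := (e2 (g i) (h.mem i hi2 hin) hcs).trans hic
  have hal' : al ∈ G.miss d c1 (A.erase e) (y l) := by
    rw [miss_iff, out1 (y l) hcl]
    exact da
  refine ⟨c1, al, l, ⟨h.pos, ⟨h.st.not, h.st.mem, h.st.jn, v1⟩, h.inj, h.mem, h.att, ?_⟩, ?_, by omega, hal', ?_⟩
  · intro m hm1 hm2
    by_cases hmq : c (g m) = q
    · have him := hmin m hm1 hm2 hmq
      by_cases hR : G.Reach (two (A.erase e) c al q) (y n) (G.s (g m))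
      · have hca : c1 (g m) = al := (e1 (g m) (h.mem m hm1 hm2) hR).2 hmq
        exact ⟨l, by omega, by rw [hca]; exact hal'⟩
      · have hcq : c1 (g m) = q := (e2 (g m) (h.mem m hm1 hm2) hR).trans hmq
        refine ⟨j, by omega, ?_⟩
        rw [hcq, miss_iff, out1 (y j) hcj]
        exact dq
    · have hma : c (g m) ≠ al := hun m hm1 hm2
      have hc : c1 (g m) = c (g m) := (o1 (c (g m)) hma hmq (g m)).2 rfl
      obtain ⟨j', hj', hm'⟩ := h.own m hm1 hm2
      refine ⟨j', hj', ?_⟩
      rw [hc, miss_iff, TB_dg hma hmq o1]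
      exact miss_iff.1 hm'
  · rw [miss_iff, (in1 (y n) Relation.ReflTransGen.refl).1]
    exact dn
  · unfold us
    apply Finset.card_lt_card
    rw [Finset.ssubset_iff_of_subset]
    · refine ⟨i, ?_, ?_⟩
      · exact Finset.mem_filter.2 ⟨Finset.mem_Icc.2 ⟨hi2, hin⟩, hic⟩
      · intro hh
        exact haq ((Finset.mem_filter.1 hh).2.symm.trans hgic)
    · intro m hm
      rw [Finset.mem_filter, Finset.mem_Icc] at hm
      rw [Finset.mem_filter, Finset.mem_Icc]
      refine ⟨hm.1, ?_⟩
      by_contra hmq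
      have hma : c (g m) ≠ al := hun m hm.1.1 hm.1.2
      exact hma (((o1 (c (g m)) hma hmq (g m)).2 rfl).symm.trans hm.2)

theorem tt_B (hdeg : ∀ v, G.deg A v + s ≤ k * d) (hns : n ≤ s + 1) (hI : Ih G k d A e n y g) (hn : 2 ≤ n) (N : ℕ) :
    ∀ (c : E → Fin k), Tt G d A e c n y g → ∀ q : Fin k, q ∈ G.miss d c (A.erase e) (y n) →
      (∃ j < n, q ∈ G.miss d c (A.erase e) (y j)) → us c n g q ≤ N → False := by
  induction N with
  | zero =>
    intro c h q h1 hj hN
    by_cases hq : Un c n g q
    · exact tt_A1 hdeg hns hI hn h hq h1 (Or.inl hj)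
    · obtain ⟨j, hj, h2⟩ := hj
      obtain ⟨c', al, l, -, -, -, -, hlt⟩ := tt_B_step hdeg hns hI hn h hq h1 hj h2
      omega
  | succ N ih =>
    intro c h q h1 hj hN
    by_cases hq : Un c n g q
    · exact tt_A1 hdeg hns hI hn h hq h1 (Or.inl hj)
    · obtain ⟨j, hj, h2⟩ := hj
      obtain ⟨c', al, l, h', a1, hl, a2, hlt⟩ := tt_B_step hdeg hns hI hn h hq h1 hj h2
      exact ih c' h' al a1 ⟨l, hl, a2⟩ (by omega)

theorem tt_el (hs : 1 ≤ s) (hdeg : ∀ v, G.deg A v + s ≤ k * d) (n : ℕ) (hns : n ≤ s + 1) :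
    ∀ (c : E → Fin k), Tt G d A e c n y g → El G d A e c n y := by
  induction n using Nat.strong_induction_on with
  | _ n ih =>
    intro c h
    have hpos := h.pos
    rcases Nat.lt_or_ge 1 n with hn | hn
    · have hI : Ih G k d A e n y g := fun m hm c' h' => ih m hm (by omega) c' h'
      have hEl : El G d A e c (n - 1) y := hI (n - 1) (by omega) c (tt_le h (by omega) (by omega))
      have hB : ∀ q, q ∈ G.miss d c (A.erase e) (y n) →
          (∃ j < n, q ∈ G.miss d c (A.erase e) (y j)) → False :=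
        fun q h1 h2 => tt_B hdeg hns hI hn (us c n g q) c h q h1 h2 le_rfl
      refine ⟨?_, ?_⟩
      · intro i hi q hq
        rcases Nat.lt_or_ge i n with h1 | h1
        · exact hEl.1 i (by omega) q hq
        · obtain rfl : i = n := by omega
          by_contra hcon
          have hlt := miss_iff.1 hq
          by_cases hu : Un c i g q
          · exact tt_A1 hdeg hns hI hn h hu hq (Or.inr (by omega))
          · unfold Un at hu
            push Not at hu
            obtain ⟨m, hm1, hm2, hm3⟩ := hu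
            obtain ⟨j', hj', hm'⟩ := h.own m hm1 hm2
            rw [hm3] at hm'
            exact hB q hq ⟨j', by omega, hm'⟩
      · intro i hi j hj hij q h1 h2
        rcases Nat.lt_or_ge i n with h3 | h3
        · rcases Nat.lt_or_ge j n with h4 | h4
          · exact hEl.2 i (by omega) j (by omega) hij q h1 h2
          · obtain rfl : j = n := by omega
            exact hB q h2 ⟨i, h3, h1⟩
        · obtain rfl : i = n := by omega
          exact hB q h1 ⟨j, by omega, h2⟩
    · obtain rfl : n = 1 := by omega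
      exact tt_one (fun v => by have := hdeg v; omega) h

end Pool.Agent.H58.DG
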