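import Pool.Agent.H58.DG.TDefs

/-!
# Basic facts on trees

`tt_le`: initial part.  `tt_ag`: if `c'` is valid and agrees with `c` in all colours except `al`, `ga`, and these are not used on the tree,
then it is a tree for `c'`, the edges of the tree have the same colours, and for colours other than `al`, `ga` the degrees are the same.
`tt_free`: if `T_m` is elementary, `n ≤ m + 1`, `j ≤ m ≤ n`, `n + t ≤ s + 1` and `F` is a set of at most `t` colours, then `y j` misses a colour
outside `F` not used on `T_n`.  (Let `B = A.erase e`.  By `miss_card` the number of missing colours at `y j` is `k d - deg B (y j)`, which is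
`≥ s`, and `≥ s + 1` for `j ≤ 1` (`count_deg_erase_of`, `count_deg_erase_of_not`: the ends of `e` are `y 0`, `y 1`).  If the colour `c (g i)` is
missing at `y j` then `j < i`: it is missing at some `y j'` with `j' < i` (`own`); if `i ≤ j` then `j' < j ≤ m` against `El`.  So the used colours
missing at `y j` are among the colours of the `g i` with `max j 1 < i ≤ n`, at most `n - max j 1` of them.)
`tt_one`: trees with one edge are elementary (`cf_root`, `miss_ne`; for the disjointness: a colour missing at both ends gives a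
configuration `Cf` with `a = b`).
-/

set_option autoImplicit false

open Finset
open scoped Classical

namespace Pool.Agent.H58.DG

open Pool.Agent.H77.Df

variable {V E : Type} [Fintype V] [Fintype E] {G : MG V E} {k d s : ℕ} {A : Finset E} {e : E} {c c' : E → Fin k}
  {n m : ℕ} {y : ℕ → V} {g : ℕ → E}

theorem tt_le (h : Tt G d A e c n y g) (hm : 1 ≤ m) (hmn : m ≤ n) : Tt G d A e c m y g := by
  exact ⟨hm, h.st, fun i hi j hj hij => h.inj i (hi.trans hmn) j (hj.trans hmn) hij,
    fun i h1 h2 => h.mem i h1 (h2.trans hmn), fun i h1 h2 => h.att i h1 (h2.trans hmn),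
    fun i h1 h2 => h.own i h1 (h2.trans hmn)⟩

theorem un_le {q : Fin k} (h : Un c n g q) (hmn : m ≤ n) : Un c m g q :=
  fun i h1 h2 => h i h1 (h2.trans hmn)

theorem tt_ag (h : Tt G d A e c n y g) (hv : G.Valid d (A.erase e) c') {al ga : Fin k}
    (ho : ∀ q, q ≠ al → q ≠ ga → ∀ f, (c' f = q ↔ c f = q)) (h1 : Un c n g al) (h2 : Un c n g ga) :
    Tt G d A e c' n y g ∧ (∀ i, 2 ≤ i → i ≤ n → c' (g i) = c (g i)) ∧
      (∀ q, q ≠ al → q ≠ ga → ∀ v, G.dg c' (A.erase e) q v = G.dg c (A.erase e) q v) := by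
  have hc : ∀ i, 2 ≤ i → i ≤ n → c' (g i) = c (g i) := fun i hi hin =>
    (ho (c (g i)) (h1 i hi hin) (h2 i hi hin) (g i)).2 rfl
  have hd : ∀ q, q ≠ al → q ≠ ga → ∀ v, G.dg c' (A.erase e) q v = G.dg c (A.erase e) q v := by
    intro q hq1 hq2 v
    unfold MG.dg
    have h3 : (A.erase e).filter (fun f => c' f = q) = (A.erase e).filter (fun f => c f = q) :=
      Finset.filter_congr fun f _ => ho q hq1 hq2 f
    rw [h3]
  refine ⟨⟨h.pos, ⟨h.st.not, h.st.mem, h.st.jn, hv⟩, h.inj, h.mem, h.att, ?_⟩, hc, hd⟩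
  intro i hi hin
  obtain ⟨j, hj, hm⟩ := h.own i hi hin
  refine ⟨j, hj, ?_⟩
  rw [hc i hi hin]
  rw [miss_iff] at hm ⊢
  rw [hd _ (h1 i hi hin) (h2 i hi hin)]
  exact hm

theorem tt_free (hdeg : ∀ v, G.deg A v + s ≤ k * d) (h : Tt G d A e c n y g) (hEl : El G d A e c m y)
    (hm : n ≤ m + 1) {t : ℕ} (hn : n + t ≤ s + 1) {j : ℕ} (hj : j ≤ m) (F : Finset (Fin k)) (hF : F.card ≤ t)
    (hmn : m ≤ n) :
    ∃ q, q ∈ G.miss d c (A.erase e) (y j) ∧ q ∉ F ∧ Un c n g q := by
  by_contra hcon
  have hpos := h.pos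
  have hM := miss_card (G := G) (v := y j) h.st.val (hEl.1 j hj)
  have hsub : G.miss d c (A.erase e) (y j) ⊆ F ∪ (Finset.Icc (max j 1 + 1) n).image (fun i => c (g i)) := by
    intro q hq
    rw [Finset.mem_union]
    by_cases hqF : q ∈ F
    · exact Or.inl hqF
    right
    have h1 : ¬ Un c n g q := fun h2 => hcon ⟨q, hq, hqF, h2⟩
    unfold Un at h1
    push Not at h1
    obtain ⟨i, hi, hin, hiq⟩ := h1
    rw [Finset.mem_image]
    refine ⟨i, ?_, hiq⟩
    rw [Finset.mem_Icc]
    refine ⟨?_, hin⟩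
    have h3 : j < i := by
      by_contra h4
      obtain ⟨j', hj', hm'⟩ := h.own i hi hin
      rw [hiq] at hm'
      exact hEl.2 j' (by omega) j hj (by omega) q hm' hq
    have h5 : max j 1 < i := max_lt h3 (by omega)
    omega
  have hcard : (G.miss d c (A.erase e) (y j)).card ≤ t + (n - max j 1) := by
    refine (Finset.card_le_card hsub).trans ((Finset.card_union_le _ _).trans ?_)
    refine Nat.add_le_add hF (Finset.card_image_le.trans ?_)
    rw [Nat.card_Icc]
    omega
  have hdj := hdeg (y j)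
  by_cases hj1 : j ≤ 1
  · have hinc : G.inc e (y j) := by
      rw [count_joins_inc h.st.jn]
      rcases (by omega : j = 0 ∨ j = 1) with h1 | h1
      · left; rw [h1]
      · right; rw [h1]
    have h2 := count_deg_erase_of h.st.mem hinc
    have h3 : max j 1 = 1 := max_eq_right hj1
    rw [h3] at hcard
    omega
  · have hinc : ¬ G.inc e (y j) := by
      rw [count_joins_inc h.st.jn]
      rintro (h1 | h1)
      · have := h.inj j (by omega) 0 (by omega) h1
        omega
      · have := h.inj j (by omega) 1 hpos h1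
        omega
    have h2 := count_deg_erase_of_not (A := A) hinc
    have h3 : max j 1 = j := max_eq_left (by omega)
    rw [h3] at hcard
    omega

theorem tt_one (hdeg : ∀ v, G.deg A v + 1 ≤ k * d) (h : Tt G d A e c 1 y g) : El G d A e c 1 y := by
  have hx := miss_ne h.st (y 0) (hdeg _)
  have hy := miss_ne h.st (y 1) (hdeg _)
  obtain ⟨qx, hqx⟩ := hx
  obtain ⟨qy, hqy⟩ := hy
  constructor
  · intro i hi q hq
    rcases (by omega : i = 0 ∨ i = 1) with h1 | h1
    · subst h1
      exact (cf_root (⟨h.st, hq, hqy⟩ : Cf G d A e c (y 0) (y 1) q qy)).2.1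
    · subst h1
      exact (cf_root (⟨h.st, hqx, hq⟩ : Cf G d A e c (y 0) (y 1) qx q)).2.2.2.1
  · intro i hi j hj hij q hqi hqj
    rcases (by omega : (i = 0 ∧ j = 1) ∨ (i = 1 ∧ j = 0)) with ⟨h1, h2⟩ | ⟨h1, h2⟩
    · subst h1; subst h2
      exact (cf_root (⟨h.st, hqi, hqj⟩ : Cf G d A e c (y 0) (y 1) q q)).1 rfl
    · subst h1; subst h2
      exact (cf_root (⟨h.st, hqj, hqi⟩ : Cf G d A e c (y 0) (y 1) q q)).1 rfl

end Pool.Agent.H58.DG
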