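import Pool.Agent.H58.DG.TwoPoint

/-!
# Trees (asymptotic theorem, MP_8dcef0_co)

`Tt G d A e c n y g`: a tree with the vertices `y 0, ..., y n` (pairwise different) and the edges `e = g 1, g 2, ..., g n`; the uncoloured
edge `e` joins `y 0` and `y 1`; for `2 ≤ i ≤ n` the edge `g i` joins `y i` to an earlier vertex and its colour is missing at an
earlier vertex.  `El`: the missing colours at `y 0, ..., y n` are simple (degree `d - 1`) and pairwise disjoint.
`Un`: the colour `q` is not used on `g 2, ..., g n`.  `Ih`: all smaller trees are elementary, for all colourings.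
-/

set_option autoImplicit false

open Finset
open scoped Classical

namespace Pool.Agent.H58.DG

open Pool.Agent.H77.Df

variable {V E : Type}

/-- tree -/
structure Tt (G : MG V E) {k : ℕ} (d : ℕ) (A : Finset E) (e : E) (c : E → Fin k) (n : ℕ) (y : ℕ → V) (g : ℕ → E) :
    Prop where
  pos : 1 ≤ n
  st : G.St d A e c (y 0) (y 1)
  inj : ∀ i ≤ n, ∀ j ≤ n, y i = y j → i = j
  mem : ∀ i, 2 ≤ i → i ≤ n → g i ∈ A.erase e
  att : ∀ i, 2 ≤ i → i ≤ n → ∃ r < i, G.joins (g i) (y r) (y i)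
  own : ∀ i, 2 ≤ i → i ≤ n → ∃ j < i, c (g i) ∈ G.miss d c (A.erase e) (y j)

/-- elementary -/
def El (G : MG V E) {k : ℕ} (d : ℕ) (A : Finset E) (e : E) (c : E → Fin k) (n : ℕ) (y : ℕ → V) : Prop :=
  (∀ i ≤ n, ∀ q ∈ G.miss d c (A.erase e) (y i), G.dg c (A.erase e) q (y i) + 1 = d) ∧
    ∀ i ≤ n, ∀ j ≤ n, i ≠ j → ∀ q, q ∈ G.miss d c (A.erase e) (y i) → q ∈ G.miss d c (A.erase e) (y j) → False

/-- the colour `q` is not used -/
def Un {k : ℕ} (c : E → Fin k) (n : ℕ) (g : ℕ → E) (q : Fin k) : Prop := ∀ i, 2 ≤ i → i ≤ n → c (g i) ≠ q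

/-- induction hypothesis -/
def Ih (G : MG V E) (k d : ℕ) (A : Finset E) (e : E) (n : ℕ) (y : ℕ → V) (g : ℕ → E) : Prop :=
  ∀ m < n, ∀ c : E → Fin k, Tt G d A e c m y g → El G d A e c m y

/-- vertex set -/
noncomputable def Tv (n : ℕ) (y : ℕ → V) : Finset V := (Finset.range (n + 1)).image y

theorem mem_tv {n : ℕ} {y : ℕ → V} {v : V} : v ∈ Tv n y ↔ ∃ i ≤ n, y i = v := by
  unfold Tv
  simp only [Finset.mem_image, Finset.mem_range]
  constructor
  · rintro ⟨i, h1, h2⟩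
    exact ⟨i, by omega, h2⟩
  · rintro ⟨i, h1, h2⟩
    exact ⟨i, by omega, h2⟩

end Pool.Agent.H58.DG
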