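import Pool.Agent.H58.DG.TDefs
import Pool.Agent.H58.DG.ExitA

/-!
# A trail leaving the vertex set (general form of `exit_trail`)

Same statement and proof as `exit_trail` in `ExitA.lean`, for an arbitrary set `T` instead of the component: `x ∈ T`, the colour `a` has
degree `d - 1` at `x` and `d` at all other vertices of `T`, no edge of colour `a` leaves `T`, and the colour `ga ≠ a` has degree `d` at all
vertices of `T`; `1 ≤ d`.
-/

set_option autoImplicit false

open Finset
open scoped Classical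

namespace Pool.Agent.H58.DG

open Pool.Agent.H77.Df

variable {V E : Type} [Fintype V] [Fintype E] {G : MG V E} {k d : ℕ} {B : Finset E} {c : E → Fin k}

omit [Fintype V] [Fintype E] in
private theorem TTrail_cut {T : Finset V} {F : Finset E} {f : E → Bool}
    (hF : ∀ g ∈ F, f g = true → (G.s g ∈ T ↔ G.t g ∈ T)) {p w : V} {s t : Bool} {L : List E}
    (h : G.Tr F f p w s t L) (hw : w ∉ T) :
    (p ∉ T ∧ ∀ g' ∈ L, G.s g' ∉ T ∧ G.t g' ∉ T) ∨
      ∃ (u w1 : V) (g : E) (L' : List E), u ∈ T ∧ w1 ∉ T ∧ G.joins g u w1 ∧ g ∈ F ∧ f g = false ∧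
        G.Tr F f u w false t (g :: L') ∧ ∀ g' ∈ L', G.s g' ∉ T ∧ G.t g' ∉ T := by
  have key : ∀ (g : E) (u v : V), g ∈ F → G.joins g u v → u ∈ T → v ∉ T → f g = false := by
    intro g u v hg hj hu hv
    cases hfg : f g
    · rfl
    · exfalso
      have h1 := hF g hg hfg
      rcases hj with ⟨h2, h3⟩ | ⟨h2, h3⟩
      · rw [h2, h3] at h1
        exact hv (h1.1 hu)
      · rw [h2, h3] at h1
        exact hv (h1.2 hu)
  have out : ∀ (g : E) (u v : V), G.joins g u v → u ∉ T → v ∉ T → G.s g ∉ T ∧ G.t g ∉ T := by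
    intro g u v hj hu hv
    rcases hj with ⟨h2, h3⟩ | ⟨h2, h3⟩
    · rw [h2, h3]
      exact ⟨hu, hv⟩
    · rw [h2, h3]
      exact ⟨hv, hu⟩
  induction h with
  | one g u v hg hj =>
    by_cases hu : u ∈ T
    · right
      have hf := key g u v hg hj hu hw
      refine ⟨u, v, g, [], hu, hw, hj, hg, hf, ?_, fun g' hg' => absurd hg' (by simp)⟩
      have h1 := MG.Tr.one (G := G) (A := F) (f := f) g u v hg hj
      rw [hf] at h1 ⊢
      exact h1
    · left
      refine ⟨hu, fun g' hg' => ?_⟩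
      rw [List.mem_singleton] at hg'
      rw [hg']
      exact out g u v hj hu hw
  | cons g u p' v b' L hg hj hgL hT ih =>
    rcases ih hw with ⟨h1, h2⟩ | h1
    · by_cases hu : u ∈ T
      · right
        have hf := key g u p' hg hj hu h1
        refine ⟨u, p', g, L, hu, h1, hj, hg, hf, ?_, h2⟩
        have h3 := MG.Tr.cons (G := G) (A := F) (f := f) g u p' v b' L hg hj hgL hT
        rw [hf] at h3
        exact h3
      · left
        refine ⟨hu, fun g' hg' => ?_⟩
        rcases List.mem_cons.1 hg' with h3 | h3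
        · rw [h3]
          exact out g u p' hj hu h1
        · exact h2 g' h3
    · right
      exact h1

omit [Fintype V] [Fintype E] in
private theorem TTrail_mono {F F' : Finset E} {v : V} (h : ∀ g ∈ F, G.inc g v → g ∈ F') :
    G.deg F v ≤ G.deg F' v := by
  refine Finset.card_le_card fun g hg => ?_
  rw [Finset.mem_filter] at hg ⊢
  exact ⟨h g hg.1 hg.2, hg.2⟩

theorem trail_out (hval : G.Valid d B c) {a ga : Fin k} (hne : ga ≠ a) {T : Finset V} {x : V} (hx : x ∈ T)
    (hax : G.dg c B a x + 1 = d) (hav : ∀ v ∈ T, v ≠ x → G.dg c B a v = d) (hgav : ∀ v ∈ T, G.dg c B ga v = d)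
    (hclo : Clo G (cls B c a) T) :
    ∃ (u w w1 : V) (g : E) (L : List E) (t : Bool), u ∈ T ∧ w ∉ T ∧ w1 ∉ T ∧ G.joins g u w1 ∧ c g = ga ∧
      G.Tr (two B c a ga) (fun g => decide (c g = a)) u w false t (g :: L) ∧
      (∀ g' ∈ L, G.s g' ∉ T ∧ G.t g' ∉ T) ∧
      (t = true → G.dg c B ga w < d) ∧ (t = false → G.dg c B a w < d) := by
  have hclo2 : ∀ g, g ∈ B → c g = a → (G.s g ∈ T ↔ G.t g ∈ T) := by
    intro g hg hc
    refine hclo g ?_
    unfold cls
    rw [Finset.mem_filter]
    exact ⟨hg, hc⟩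
  obtain ⟨F, hFdef⟩ : ∃ F, F = two B c a ga := ⟨_, rfl⟩
  obtain ⟨f, hf⟩ : ∃ f : E → Bool, f = fun g => decide (c g = a) := ⟨_, rfl⟩
  have hFm : ∀ g, g ∈ F ↔ (g ∈ B ∧ (c g = a ∨ c g = ga)) := by
    intro g
    rw [hFdef]
    unfold two
    rw [Finset.mem_filter]
  have hft : ∀ g, f g = true ↔ c g = a := by
    intro g
    rw [hf]
    simp
  have hff : ∀ g ∈ F, f g = false ↔ c g = ga := by
    intro g hg
    have h1 := (hFm g).1 hg
    have h2 := hft g
    constructor
    · intro h3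
      rcases h1.2 with h4 | h4
      · rw [h2.2 h4] at h3
        cases h3
      · exact h4
    · intro h3
      cases h4 : f g
      · rfl
      · exact absurd (h3.symm.trans (h2.1 h4)) hne
  -- the first edge
  obtain ⟨g0, hg0B, hg0c, hg0i⟩ : ∃ g0 ∈ B, c g0 = ga ∧ G.inc g0 x := by
    have h1 : 0 < G.dg c B ga x := by
      rw [hgav x hx]
      omega
    unfold MG.dg MG.deg at h1
    obtain ⟨g0, hg0⟩ := Finset.card_pos.1 h1
    rw [Finset.mem_filter, Finset.mem_filter] at hg0
    exact ⟨g0, hg0.1.1, hg0.1.2, hg0.2⟩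
  obtain ⟨w0, hw0⟩ : ∃ w, G.joins g0 x w := by
    rcases hg0i with h1 | h1
    · exact ⟨G.t g0, Or.inl ⟨h1, rfl⟩⟩
    · exact ⟨G.s g0, Or.inr ⟨rfl, h1⟩⟩
  have hg0F : g0 ∈ F := (hFm g0).2 ⟨hg0B, Or.inr hg0c⟩
  have hfg0 : f g0 = false := (hff g0 hg0F).2 hg0c
  obtain ⟨w, t, L, hTr, hmax⟩ := tr_max (G := G) (A := F) (f := f) hg0F hw0
  have hend := tr_max_end hTr hmax
  rw [hfg0] at hTr
  have hsum := tr_sum hTr w
  have hsub := tr_sub hTr
  -- degrees in the trail
  obtain ⟨P, hP⟩ : ∃ P, P = L.toFinset.filter (fun g => f g = true) := ⟨_, rfl⟩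
  obtain ⟨Q, hQ⟩ : ∃ Q, Q = L.toFinset.filter (fun g => f g = false) := ⟨_, rfl⟩
  have hPm : ∀ g, g ∈ P ↔ (g ∈ L ∧ f g = true) := by
    intro g
    rw [hP, Finset.mem_filter, List.mem_toFinset]
  have hQm : ∀ g, g ∈ Q ↔ (g ∈ L ∧ f g = false) := by
    intro g
    rw [hQ, Finset.mem_filter, List.mem_toFinset]
  have hbal := balance_card (G := G) L.toFinset f w
  rw [← hP, ← hQ] at hbal
  have hexc : G.exc L.toFinset f w =
      (if w = x then sgn false else 0) + (if w = w then sgn t else 0) := hsum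
  rw [if_pos rfl] at hexc
  have hdgm : ∀ (q : Fin k) (g : E), g ∈ B.filter (fun g => c g = q) ↔ (g ∈ B ∧ c g = q) := by
    intro q g
    rw [Finset.mem_filter]
  have hPle : G.deg P w ≤ G.dg c B a w := by
    unfold MG.dg
    refine TTrail_mono fun g hg _ => ?_
    rw [hdgm]
    have h1 := (hPm g).1 hg
    exact ⟨((hFm g).1 (hsub g h1.1)).1, (hft g).1 h1.2⟩
  have hQle : G.deg Q w ≤ G.dg c B ga w := by
    unfold MG.dg
    refine TTrail_mono fun g hg _ => ?_
    rw [hdgm]
    have h1 := (hQm g).1 hg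
    have h2 := hsub g h1.1
    exact ⟨((hFm g).1 h2).1, (hff g h2).1 h1.2⟩
  have hPge : t = false → G.dg c B a w ≤ G.deg P w := by
    intro ht
    unfold MG.dg
    refine TTrail_mono fun g hg hi => ?_
    rw [hdgm] at hg
    have h1 : g ∈ F := (hFm g).2 ⟨hg.1, Or.inl hg.2⟩
    have h2 : f g = true := (hft g).2 hg.2
    rw [hPm]
    refine ⟨?_, h2⟩
    by_contra h3
    have h4 := hend g h1 hi h3
    rw [h2, ht] at h4
    cases h4
  have hQge : t = true → G.dg c B ga w ≤ G.deg Q w := by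
    intro ht
    unfold MG.dg
    refine TTrail_mono fun g hg hi => ?_
    rw [hdgm] at hg
    have h1 : g ∈ F := (hFm g).2 ⟨hg.1, Or.inr hg.2⟩
    have h2 : f g = false := (hff g h1).2 hg.2
    rw [hQm]
    refine ⟨?_, h2⟩
    by_contra h3
    have h4 := hend g h1 hi h3
    rw [h2, ht] at h4
    cases h4
  have hga_le := hval ga w
  have ha_le := hval a w
  have hwx : w ≠ x := by
    intro hwx
    rw [if_pos hwx] at hexc
    have h1 := hgav x hx
    rw [← hwx] at h1 hax
    cases ht : t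
    · have h2 := hPge ht
      rw [ht] at hexc
      simp only [sgn, Bool.false_eq_true, if_false] at hexc
      omega
    · have h2 := hQge ht
      rw [ht] at hexc
      simp only [sgn, Bool.false_eq_true, if_false, if_true] at hexc
      omega
  rw [if_neg hwx, zero_add] at hexc
  have hdt : t = true → G.dg c B ga w < d := by
    intro ht
    have h2 := hQge ht
    rw [ht] at hexc
    simp only [sgn, if_true] at hexc
    omega
  have hdf : t = false → G.dg c B a w < d := by
    intro ht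
    have h2 := hPge ht
    rw [ht] at hexc
    simp only [sgn, Bool.false_eq_true, if_false] at hexc
    omega
  have hwT : w ∉ T := by
    intro hwT
    have h1 : G.dg c B a w = d := hav w hwT hwx
    have h2 := hgav w hwT
    cases ht : t
    · have := hdf ht
      omega
    · have := hdt ht
      omega
  have hFclo : ∀ g ∈ F, f g = true → (G.s g ∈ T ↔ G.t g ∈ T) := by
    intro g hg hfg
    exact hclo2 g ((hFm g).1 hg).1 ((hft g).1 hfg)
  rcases TTrail_cut hFclo hTr hwT with ⟨h1, -⟩ | ⟨u, w1, g, L', h1, h2, h3, h4, h5, h6, h7⟩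
  · exact absurd hx h1
  · refine ⟨u, w, w1, g, L', t, h1, hwT, h2, h3, (hff g h4).1 h5, ?_, h7, hdt, hdf⟩
    rw [hFdef, hf] at h6
    exact h6

end Pool.Agent.H58.DG
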