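import Pool.Agent.H58.DG.TB
import Pool.Agent.H58.DG.TTrail
import Pool.Agent.H58.DG.Exit

/-!
# The exit lemma for trees

`flip_out` (one colouring, no trees): `T` a set, `a ≠ be` colours no edge of which leaves `T`, `ga ≠ a, be`; a trail as in `trail_out` in the
colours `a`, `ga` starting at `u ∈ T` with the edge `g` of colour `ga`; `be` has degree less than `d` at `u`.  Let `c2 = swp G c {v | v ∉ T} a be`
(exchange of `a` and `be` on the edges with no end in `T`, `swap_dg`) and `c3 = flp c2 be ga (g :: L)` (`flip_dg`).  Then `c3` is valid; the edges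
of `B` with both ends in `T` keep their colours; at `v ∈ T` all degrees are the same except that `be` at `u` has one more and `ga` at `u` one less; edges of
colour `ga` leaving `T` other than `g` keep their colour.  This is the second half of the proof of `exit` in `Exit.lean` (with `c1 = c`
and `e1 = e`): copy it from the comment `step 5` on.

`tt_exit`: a closed tree `T` with `n ≤ s` edges, a colour `ga` missing nowhere in `T` with two edges leaving `T`.  Then there is a tree with
`n + 1` edges (with another colouring).  Proof: `T` is elementary (`tt_el`).  Let `al` be missing at `y 0` and unused (`tt_free`, `t = 0`);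
`trail_out` with `x = y 0`, `a = al` gives `u ∈ T`, `u = y p`.  Let `be ≠ al` be missing at `u` and unused (`tt_free` with `m = n`, `t = 1`, `F = {al}`);
`be ≠ ga` and `al ≠ ga`.  `flip_out` gives `c3`.  All `g i` have both ends in `T`, so they keep their colours, these are different from `be` and from `ga` (a used
colour is missing in `T`), so `T` is a tree for `c3`.  `ga` is missing at `u` for `c3`, and one of `g1`, `g2`, call it `f`, is different from the first edge
of the trail and has colour `ga` for `c3` and leaves `T`.  Let `f` join `y r` and `z ∉ T`: new tree `y' = Function.update y (n + 1) z`,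
`g' = Function.update g (n + 1) f`.
`tt_ext`: the same extension without exchange: a tree with an edge `f` of `A.erase e` leaving `T`, the colour of which is missing at some
vertex of `T`, can be extended.
-/

set_option autoImplicit false

open Finset
open scoped Classical

namespace Pool.Agent.H58.DG

open Pool.Agent.H77.Df

variable {V E : Type} [Fintype V] [Fintype E] {G : MG V E} {k d s : ℕ} {A : Finset E} {e : E} {c c' : E → Fin k}
  {n m : ℕ} {y : ℕ → V} {g : ℕ → E}

theorem flip_out {B : Finset E} (hval : G.Valid d B c) {a be ga : Fin k} (hbea : be ≠ a) (hgaa : ga ≠ a) (hbega : be ≠ ga)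
    {T : Finset V} (hcla : Clo G (cls B c a) T) (hclbe : Clo G (cls B c be) T) {u w w1 : V} {g : E} {L : List E} {t : Bool}
    (hu : u ∈ T) (hw : w ∉ T) (hw1 : w1 ∉ T) (hj : G.joins g u w1) (hg : c g = ga)
    (hTr : G.Tr (two B c a ga) (fun g => decide (c g = a)) u w false t (g :: L))
    (hL : ∀ g' ∈ L, G.s g' ∉ T ∧ G.t g' ∉ T)
    (ht1 : t = true → G.dg c B ga w < d) (ht2 : t = false → G.dg c B a w < d) (hbe : G.dg c B be u < d) :
    ∃ c3 : E → Fin k, G.Valid d B c3 ∧ (∀ f ∈ B, G.s f ∈ T → G.t f ∈ T → c3 f = c f) ∧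
      (∀ v ∈ T, ∀ q, q ≠ be → G.dg c3 B q v ≤ G.dg c B q v) ∧ G.dg c3 B ga u + 1 = G.dg c B ga u ∧
      (∀ f ∈ B, c f = ga → ¬ (G.s f ∈ T ↔ G.t f ∈ T) → f ≠ g → c3 f = ga) := by
  have hcl1 : ∀ g', g' ∈ B → (c g' = a ∨ c g' = be) → (G.s g' ∈ T ↔ G.t g' ∈ T) := by
    intro g' hg' hcol
    rcases hcol with hcol | hcol
    · exact hcla g' (Finset.mem_filter.2 ⟨hg', hcol⟩)
    · exact hclbe g' (Finset.mem_filter.2 ⟨hg', hcol⟩)
  set C : Set V := {v | v ∉ T} with hC
  have hmC : ∀ v, v ∈ C ↔ v ∉ T := fun v => Iff.rfl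
  have hswC : ∀ g' ∈ B, c g' = a ∨ c g' = be → (G.s g' ∈ C ↔ G.t g' ∈ C) := by
    intro g' hg' hcol
    rw [hmC, hmC]
    exact not_congr (hcl1 g' hg' hcol)
  have hsd := fun v => swap_dg (G := G) (B := B) (c := c) (C := C) (Ne.symm hbea) hswC v
  obtain ⟨c2, hc2⟩ : ∃ c2, c2 = swp G c C a be := ⟨_, rfl⟩
  rw [← hc2] at hsd
  have hval2 : G.Valid d B c2 := by
    intro q v
    obtain ⟨h1, h2, h3⟩ := hsd v
    by_cases hv : v ∈ C
    · obtain ⟨h4, h5⟩ := h1 hv
      by_cases hqa : q = a
      · rw [hqa, h4]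
        exact hval be v
      · by_cases hqb : q = be
        · rw [hqb, h5]
          exact hval a v
        · rw [h3 q hqa hqb]
          exact hval q v
    · rw [h2 hv q]
      exact hval q v
  have hc2in : ∀ g', G.s g' ∈ T → G.t g' ∈ T → c2 g' = c g' := by
    intro g' i1 i2
    rw [hc2, swp, if_neg]
    rw [hmC, hmC]
    tauto
  have hc2out : ∀ g', (G.s g' ∉ T ∨ G.t g' ∉ T) →
      c2 g' = if c g' = a then be else if c g' = be then a else c g' := by
    intro g' i1
    rw [hc2, swp, if_pos]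
    rw [hmC, hmC]
    exact i1
  -- the trail
  have hgout : ∀ g' ∈ g :: L, (G.s g' ∉ T ∨ G.t g' ∉ T) := by
    intro g' hg'
    rcases List.mem_cons.1 hg' with rfl | hg'
    · rcases hj with ⟨j1, j2⟩ | ⟨j1, j2⟩
      · right; rw [j2]; exact hw1
      · left; rw [j1]; exact hw1
    · exact Or.inl (hL g' hg').1
  have hTr2 : G.Tr (two B c2 be ga) (fun g => decide (c2 g = be)) u w false t (g :: L) := by
    refine Exit_tr_congr hTr fun g' hg' => ?_
    have i1 := hgout g' hg'
    have i2 := tr_sub hTr g' hg'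
    unfold two at i2
    rw [Finset.mem_filter] at i2
    have i4 := hc2out g' i1
    unfold two
    rw [Finset.mem_filter]
    rcases i2.2 with i5 | i5
    · rw [i5, if_pos rfl] at i4
      refine ⟨⟨i2.1, Or.inl i4⟩, ?_⟩
      simp only [i4, i5]
    · rw [i5, if_neg hgaa, if_neg (Ne.symm hbega)] at i4
      refine ⟨⟨i2.1, Or.inr i4⟩, ?_⟩
      simp only [i4, i5, decide_eq_false (Ne.symm hbega), decide_eq_false hgaa]
  have hfd := fun v => flip_dg hbega hTr2 v
  obtain ⟨c3, hc3⟩ : ∃ c3, c3 = flp c2 be ga (g :: L) := ⟨_, rfl⟩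
  rw [← hc3] at hfd
  have hc3n : ∀ g', g' ∉ g :: L → c3 g' = c2 g' := by
    intro g' hg'
    rw [hc3, flp, if_neg hg']
  have huw : u ≠ w := by
    rintro rfl
    exact hw hu
  have huC : u ∉ C := fun hh => hh hu
  have hd2u : G.dg c2 B be u = G.dg c B be u := (hsd u).2.1 huC be
  have hgaw : G.dg c2 B ga w = G.dg c B ga w := (hsd w).2.2 ga hgaa (Ne.symm hbega)
  have hbew : G.dg c2 B be w = G.dg c B a w := ((hsd w).1 hw).2
  have hval3 : G.Valid d B c3 := by
    intro q v
    obtain ⟨f1, f2, f3⟩ := hfd v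
    by_cases hqb : q = be
    · rw [hqb]
      by_cases hvu : v = u
      · rw [if_pos hvu, if_neg (by rw [hvu]; exact huw)] at f1
        rw [hvu] at f1 ⊢
        simp only [sgn] at f1
        rw [hd2u] at f1
        have : (G.dg c3 B be u : ℤ) ≤ d := by
          rw [f1]
          have : (G.dg c B be u : ℤ) < d := by exact_mod_cast hbe
          simp only [Bool.false_eq_true, if_false, add_zero]
          omega
        exact_mod_cast this
      · rw [if_neg hvu, zero_add] at f1
        by_cases hvw : v = w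
        · rw [if_pos hvw] at f1
          rw [hvw] at f1 ⊢
          have hv0 : (G.dg c2 B be w : ℤ) ≤ d := by exact_mod_cast hval2 be w
          cases t with
          | true =>
            simp only [sgn, if_true] at f1
            have : (G.dg c3 B be w : ℤ) ≤ d := by omega
            exact_mod_cast this
          | false =>
            simp only [sgn, Bool.false_eq_true, if_false] at f1
            have h5 : (G.dg c2 B be w : ℤ) < d := by
              rw [hbew]
              exact_mod_cast ht2 rfl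
            have : (G.dg c3 B be w : ℤ) ≤ d := by omega
            exact_mod_cast this
        · rw [if_neg hvw, sub_zero] at f1
          have h6 : G.dg c3 B be v = G.dg c2 B be v := by exact_mod_cast f1
          rw [h6]
          exact hval2 be v
    · by_cases hqg : q = ga
      · rw [hqg]
        have hv0 : (G.dg c2 B ga v : ℤ) ≤ d := by exact_mod_cast hval2 ga v
        by_cases hvu : v = u
        · rw [if_pos hvu, if_neg (by rw [hvu]; exact huw)] at f2
          simp only [sgn, Bool.false_eq_true, if_false, add_zero] at f2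
          have : (G.dg c3 B ga v : ℤ) ≤ d := by omega
          exact_mod_cast this
        · rw [if_neg hvu, zero_add] at f2
          by_cases hvw : v = w
          · rw [if_pos hvw] at f2
            cases t with
            | true =>
              simp only [sgn, if_true] at f2
              have h5 : (G.dg c2 B ga v : ℤ) < d := by
                rw [hvw, hgaw]
                exact_mod_cast ht1 rfl
              have : (G.dg c3 B ga v : ℤ) ≤ d := by omega
              exact_mod_cast this
            | false =>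
              simp only [sgn, Bool.false_eq_true, if_false] at f2
              have : (G.dg c3 B ga v : ℤ) ≤ d := by omega
              exact_mod_cast this
          · rw [if_neg hvw, add_zero] at f2
            have h6 : G.dg c3 B ga v = G.dg c2 B ga v := by exact_mod_cast f2
            rw [h6]
            exact hval2 ga v
      · rw [f3 q hqb hqg]
        exact hval2 q v
  refine ⟨c3, hval3, ?_, ?_, ?_, ?_⟩
  · intro f _ i1 i2
    rw [hc3n f, hc2in f i1 i2]
    intro hmem
    rcases hgout f hmem with i3 | i3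
    · exact i3 i1
    · exact i3 i2
  · intro v hv q hq
    have hvC : v ∉ C := fun hh => hh hv
    have hvw : v ≠ w := by
      rintro rfl
      exact hw hv
    obtain ⟨-, f2, f3⟩ := hfd v
    by_cases hqg : q = ga
    · rw [hqg]
      rw [if_neg hvw, add_zero, (hsd v).2.1 hvC ga] at f2
      by_cases hvu : v = u
      · rw [if_pos hvu] at f2
        simp only [sgn, Bool.false_eq_true, if_false] at f2
        omega
      · rw [if_neg hvu] at f2
        omega
    · rw [f3 q hq hqg, (hsd v).2.1 hvC q]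
  · have f2 := (hfd u).2.1
    rw [if_pos rfl, if_neg huw, (hsd u).2.1 huC ga] at f2
    simp only [sgn, Bool.false_eq_true, if_false, add_zero] at f2
    omega
  · intro f hf hcf hlv hne
    have i4 : G.s f ∉ T ∨ G.t f ∉ T := by tauto
    have i5 : f ∉ g :: L := by
      intro hmem
      rcases List.mem_cons.1 hmem with i6 | i6
      · exact hne i6
      · obtain ⟨i7, i8⟩ := hL f i6
        exact hlv ⟨fun hh => absurd hh i7, fun hh => absurd hh i8⟩
    have i6 := hc2out f i4
    rw [hcf, if_neg hgaa, if_neg (Ne.symm hbega)] at i6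
    rw [hc3n f i5, i6]

theorem tt_ext (h : Tt G d A e c n y g) {f : E} (hf : f ∈ A.erase e) (hl : ¬ (G.s f ∈ Tv n y ↔ G.t f ∈ Tv n y))
    {j : ℕ} (hj : j ≤ n) (hm : c f ∈ G.miss d c (A.erase e) (y j)) :
    ∃ (y' : ℕ → V) (g' : ℕ → E), Tt G d A e c (n + 1) y' g' := by
  obtain ⟨r, z, hr, hz, hjn⟩ : ∃ (r : ℕ) (z : V), r ≤ n ∧ z ∉ Tv n y ∧ G.joins f (y r) z := by
    by_cases h1 : G.s f ∈ Tv n y
    · have h2 : G.t f ∉ Tv n y := fun h2 => hl ⟨fun _ => h2, fun _ => h1⟩
      obtain ⟨r, hr, hr2⟩ := mem_tv.1 h1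
      exact ⟨r, G.t f, hr, h2, Or.inl ⟨hr2.symm, rfl⟩⟩
    · have h2 : G.t f ∈ Tv n y := by
        by_contra h2
        exact hl ⟨fun h3 => absurd h3 h1, fun h3 => absurd h3 h2⟩
      obtain ⟨r, hr, hr2⟩ := mem_tv.1 h2
      exact ⟨r, G.s f, hr, h1, Or.inr ⟨rfl, hr2.symm⟩⟩
  have hpos := h.pos
  have hy : ∀ i, i ≤ n → Function.update y (n + 1) z i = y i := by
    intro i hi
    exact Function.update_of_ne (by omega) _ _
  have hg : ∀ i, i ≤ n → Function.update g (n + 1) f i = g i := by
    intro i hi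
    exact Function.update_of_ne (by omega) _ _
  have hyn : Function.update y (n + 1) z (n + 1) = z := Function.update_self _ _ _
  have hgn : Function.update g (n + 1) f (n + 1) = f := Function.update_self _ _ _
  have hzi : ∀ i, i ≤ n → y i ≠ z := by
    intro i hi h1
    exact hz (mem_tv.2 ⟨i, hi, h1⟩)
  refine ⟨Function.update y (n + 1) z, Function.update g (n + 1) f, by omega, ?_, ?_, ?_, ?_, ?_⟩
  · rw [hy 0 (by omega), hy 1 hpos]
    exact h.st
  · intro i hi j' hj' hij
    rcases Nat.lt_or_ge n i with h1 | h1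
    · have h1' : i = n + 1 := by omega
      rcases Nat.lt_or_ge n j' with h2 | h2
      · omega
      · rw [h1', hyn, hy j' h2] at hij
        exact absurd hij.symm (hzi j' h2)
    · rcases Nat.lt_or_ge n j' with h2 | h2
      · have h2' : j' = n + 1 := by omega
        rw [h2', hyn, hy i h1] at hij
        exact absurd hij (hzi i h1)
      · rw [hy i h1, hy j' h2] at hij
        exact h.inj i h1 j' h2 hij
  · intro i h2 hi
    rcases Nat.lt_or_ge n i with h1 | h1
    · have h1' : i = n + 1 := by omega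
      rw [h1', hgn]
      exact hf
    · rw [hg i h1]
      exact h.mem i h2 h1
  · intro i h2 hi
    rcases Nat.lt_or_ge n i with h1 | h1
    · have h1' : i = n + 1 := by omega
      rw [h1', hgn, hyn]
      refine ⟨r, by omega, ?_⟩
      rw [hy r hr]
      exact hjn
    · obtain ⟨r', hr', hr2⟩ := h.att i h2 h1
      refine ⟨r', hr', ?_⟩
      rw [hg i h1, hy i h1, hy r' (by omega)]
      exact hr2
  · intro i h2 hi
    rcases Nat.lt_or_ge n i with h1 | h1
    · have h1' : i = n + 1 := by omega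
      rw [h1', hgn]
      refine ⟨j, by omega, ?_⟩
      rw [hy j hj]
      exact hm
    · obtain ⟨r', hr', hr2⟩ := h.own i h2 h1
      refine ⟨r', hr', ?_⟩
      rw [hg i h1, hy r' (by omega)]
      exact hr2

theorem tt_exit (hs : 1 ≤ s) (hdeg : ∀ v, G.deg A v + s ≤ k * d) (hns : n ≤ s) (h : Tt G d A e c n y g)
    (hclo : ∀ i ≤ n, ∀ q ∈ G.miss d c (A.erase e) (y i), Clo G (cls (A.erase e) c q) (Tv n y))
    {ga : Fin k} (hga : ∀ i ≤ n, ga ∉ G.miss d c (A.erase e) (y i)) {g1 g2 : E} (h12 : g1 ≠ g2)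
    (m1 : g1 ∈ cls (A.erase e) c ga) (m2 : g2 ∈ cls (A.erase e) c ga)
    (l1 : ¬ (G.s g1 ∈ Tv n y ↔ G.t g1 ∈ Tv n y)) (l2 : ¬ (G.s g2 ∈ Tv n y ↔ G.t g2 ∈ Tv n y)) :
    ∃ (c' : E → Fin k) (y' : ℕ → V) (g' : ℕ → E), Tt G d A e c' (n + 1) y' g' := by
  have hEl : El G d A e c n y := tt_el hs hdeg n (by omega) c h
  have hval := h.st.val
  have hmi : ∀ (q : Fin k) (v : V), q ∈ G.miss d c (A.erase e) v ↔ G.dg c (A.erase e) q v < d := fun q v => miss_iff
  obtain ⟨al, hal, -, hUal⟩ := tt_free hdeg h hEl (by omega : n ≤ n + 1) (t := 0) (by omega) (Nat.zero_le n) ∅ (by simp) (by omega)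
  have hgaal : ga ≠ al := by
    rintro rfl
    exact hga 0 (Nat.zero_le n) hal
  have hy0 : y 0 ∈ Tv n y := mem_tv.2 ⟨0, Nat.zero_le n, rfl⟩
  have hav : ∀ v ∈ Tv n y, v ≠ y 0 → G.dg c (A.erase e) al v = d := by
    intro v hv hv0
    obtain ⟨i, hi, rfl⟩ := mem_tv.1 hv
    have hi0 : (0 : ℕ) ≠ i := by
      rintro rfl
      exact hv0 rfl
    have h1 : al ∉ G.miss d c (A.erase e) (y i) := fun h2 => hEl.2 0 (Nat.zero_le n) i hi hi0 al hal h2
    rw [hmi] at h1
    have h2 := hval al (y i)
    omega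
  have hgav : ∀ v ∈ Tv n y, G.dg c (A.erase e) ga v = d := by
    intro v hv
    obtain ⟨i, hi, rfl⟩ := mem_tv.1 hv
    have h1 := hga i hi
    rw [hmi] at h1
    have h2 := hval ga (y i)
    omega
  obtain ⟨u, w, w1, g0, L, t, hu, hw, hw1, hj, hg, hTr, hL, ht1, ht2⟩ :=
    trail_out hval hgaal hy0 (hEl.1 0 (Nat.zero_le n) al hal) hav hgav (hclo 0 (Nat.zero_le n) al hal)
  obtain ⟨p, hp, hpu⟩ := mem_tv.1 hu
  obtain ⟨be, hbe, hbeF, hUbe⟩ := tt_free hdeg h hEl (by omega : n ≤ n + 1) (t := 1) (by omega) hp {al} (by simp) (by omega)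
  have hbeal : be ≠ al := fun hh => hbeF (Finset.mem_singleton.2 hh)
  have hbega : be ≠ ga := by
    rintro rfl
    exact hga p hp hbe
  have hbeu : G.dg c (A.erase e) be u < d := by
    rw [← hpu]
    exact (hmi _ _).1 hbe
  obtain ⟨c3, hval3, hin3, hle3, hga3, hlv3⟩ :=
    flip_out hval hbeal hgaal hbega (hclo 0 (Nat.zero_le n) al hal) (hclo p hp be hbe) hu hw hw1 hj hg hTr hL ht1 ht2 hbeu
  have hT3 : Tt G d A e c3 n y g := by
    refine ⟨h.pos, ⟨h.st.not, h.st.mem, h.st.jn, hval3⟩, h.inj, h.mem, h.att, fun i h2 hi => ?_⟩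
    obtain ⟨j, hj1, hj2⟩ := h.own i h2 hi
    refine ⟨j, hj1, ?_⟩
    obtain ⟨r, hr1, hr2⟩ := h.att i h2 hi
    have hyr : y r ∈ Tv n y := mem_tv.2 ⟨r, by omega, rfl⟩
    have hyi : y i ∈ Tv n y := mem_tv.2 ⟨i, hi, rfl⟩
    have hyj : y j ∈ Tv n y := mem_tv.2 ⟨j, by omega, rfl⟩
    have hends : G.s (g i) ∈ Tv n y ∧ G.t (g i) ∈ Tv n y := by
      rcases hr2 with ⟨j1, j2⟩ | ⟨j1, j2⟩
      · rw [j1, j2]
        exact ⟨hyr, hyi⟩
      · rw [j1, j2]
        exact ⟨hyi, hyr⟩
    rw [hin3 (g i) (h.mem i h2 hi) hends.1 hends.2, miss_iff]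
    exact lt_of_le_of_lt (hle3 (y j) hyj _ (hUbe i h2 hi)) ((hmi _ _).1 hj2)
  have hga3' : ga ∈ G.miss d c3 (A.erase e) (y p) := by
    rw [miss_iff, hpu]
    have h1 := hval ga u
    omega
  have hfin : ∀ f, f ∈ cls (A.erase e) c ga → ¬ (G.s f ∈ Tv n y ↔ G.t f ∈ Tv n y) → f ≠ g0 →
      ∃ (c' : E → Fin k) (y' : ℕ → V) (g' : ℕ → E), Tt G d A e c' (n + 1) y' g' := by
    intro f hf hl hne
    have hf2 := Finset.mem_filter.1 hf
    have h1 := hlv3 f hf2.1 hf2.2 hl hne
    obtain ⟨y', g', h2⟩ := tt_ext hT3 hf2.1 hl hp (by rw [h1]; exact hga3')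
    exact ⟨c3, y', g', h2⟩
  by_cases hg1 : g1 = g0
  · exact hfin g2 m2 l2 (fun hh => h12 (hg1.trans hh.symm))
  · exact hfin g1 m1 l1 hg1

end Pool.Agent.H58.DG
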