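import Pool.Agent.H58.DG.TExit
import Pool.Agent.H58.DG.Closed

/-!
# The asymptotic theorem

`tt_grow`: a tree with `n ≤ s` edges gives a tree with `n + 1` edges, if the density condition holds for sets of at most `s + 1` vertices.
Let `T = Tv n y`, `|T| = n + 1 ≤ s + 1` (`inj`).  If some colour missing in `T` has an edge leaving `T`: `tt_ext`.  Otherwise `T` is closed and
elementary (`tt_el`).  For a missing colour (there is one, `miss_ne`) the sum of the degrees over `T` is `d |T| - 1` and even (`hand_closed`), so `d |T|` is odd;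
every colour not missing in `T` has degree sum `d |T|`.  If each of these has at most one leaving edge, then every colour has at
least `(d |T| - 1) / 2` edges inside `T`, so with `e` the set `T` contains at least `k (d |T| - 1) / 2 + 1` edges of `A` (counting as in the proof of
`colour_seven` in `Final.lean`), against the density.  So some colour `ga` missing nowhere in `T` has two leaving edges: `tt_exit`.

`colour_sqrt`: suppose not colourable, take a minimal non-colourable set `A` as in `colour_seven`, a tree with one edge, grow it to `s + 1`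
edges (`tt_grow` for `n = 1, ..., s`).  `T` has `s + 2` vertices and is elementary (`tt_el`).  The sets of missing colours are pairwise
disjoint; `y 0` and `y 1` miss at least `s + 1` colours, the others at least `s` (`miss_card`, `count_deg_erase_of`): altogether
`2 (s + 1) + s * s = (s + 1)^2 + 1 ≤ k`, contradiction.
`matrix_sqrt`: transfer to matrices, copy from `matrix_seven` in `Final.lean`.
-/

set_option autoImplicit false

open Finset
open scoped Classical

namespace Pool.Agent.H58.DG

open Pool.Agent.H77.Df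

theorem tt_grow {V E : Type} [Fintype V] [Fintype E] {G : MG V E} {k d s : ℕ} {A : Finset E} {e : E} {c : E → Fin k}
    {n : ℕ} {y : ℕ → V} {g : ℕ → E} (hs : 1 ≤ s) (hdeg : ∀ v, G.deg A v + s ≤ k * d) (hns : n ≤ s)
    (hden : ∀ X : Finset V, X.card ≤ s + 1 →
      (A.filter (fun g : E => G.s g ∈ X ∧ G.t g ∈ X)).card ≤ k * (d * X.card / 2))
    (h : Tt G d A e c n y g) :
    ∃ (c' : E → Fin k) (y' : ℕ → V) (g' : ℕ → E), Tt G d A e c' (n + 1) y' g' := by
  by_contra hcon
  have hdeg1 : ∀ v, G.deg A v + 1 ≤ k * d := fun v => by have := hdeg v; omega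
  have hEl := tt_el hs hdeg n (by omega) c h
  have hmT : ∀ i ≤ n, y i ∈ Tv n y := fun i hi => mem_tv.2 ⟨i, hi, rfl⟩
  have hc : (Tv n y).card = n + 1 := by
    unfold Tv
    rw [Finset.card_image_of_injOn, Finset.card_range]
    intro i hi j hj hij
    have hi' := Finset.mem_range.1 (Finset.mem_coe.1 hi)
    have hj' := Finset.mem_range.1 (Finset.mem_coe.1 hj)
    exact h.inj i (by omega) j (by omega) hij
  -- the missing colours are closed
  have hclo : ∀ i ≤ n, ∀ q ∈ G.miss d c (A.erase e) (y i), Clo G (cls (A.erase e) c q) (Tv n y) := by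
    intro i hi q hq f hf
    by_contra hl
    have hf1 : f ∈ A.erase e ∧ c f = q := by
      unfold cls at hf
      exact Finset.mem_filter.1 hf
    obtain ⟨y', g', h'⟩ := tt_ext h hf1.1 hl hi (by rw [hf1.2]; exact hq)
    exact hcon ⟨c, y', g', h'⟩
  set T := Tv n y with hT
  have hmsum : ∀ i ≤ n, ∀ q ∈ G.miss d c (A.erase e) (y i),
      ∑ u ∈ T, G.deg (cls (A.erase e) c q) u + 1 = d * T.card := by
    intro i hi q hqv
    have hdgq : ∀ v, G.deg (cls (A.erase e) c q) v = G.dg c (A.erase e) q v := fun _ => rfl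
    have hv := hmT i hi
    rw [← Finset.add_sum_erase T _ hv]
    have h4 : ∑ u ∈ T.erase (y i), G.deg (cls (A.erase e) c q) u = ∑ u ∈ T.erase (y i), d := by
      refine Finset.sum_congr rfl fun u hu => ?_
      rw [hdgq]
      by_contra hne
      have h5 : q ∈ G.miss d c (A.erase e) u := miss_iff.2 (lt_of_le_of_ne (h.st.val q u) hne)
      obtain ⟨j, hj, rfl⟩ := mem_tv.1 (Finset.mem_of_mem_erase hu)
      have h6 : i ≠ j := by
        rintro rfl
        exact Finset.ne_of_mem_erase hu rfl
      exact hEl.2 i hi j hj h6 q hqv h5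
    rw [h4, Finset.sum_const, smul_eq_mul, Finset.card_erase_of_mem hv]
    have h5 : G.deg (cls (A.erase e) c q) (y i) + 1 = d := hEl.1 i hi q hqv
    rw [hc]
    have h7 : n + 1 - 1 = n := by omega
    rw [h7]
    nlinarith
  have hmin : ∀ i ≤ n, ∀ q ∈ G.miss d c (A.erase e) (y i),
      2 * ((cls (A.erase e) c q).filter (fun g => G.s g ∈ T ∧ G.t g ∈ T)).card + 1 = d * (n + 1) := by
    intro i hi q hqv
    have hsum := hand_sum (G := G) (cls (A.erase e) c q) T
    have h1 := hclo i hi q hqv
    have h2 : ((cls (A.erase e) c q).filter (fun g => ¬ (G.s g ∈ T ↔ G.t g ∈ T))).card = 0 := by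
      rw [Finset.card_eq_zero, Finset.filter_eq_empty_iff]
      intro g hg h3
      exact h3 (h1 g hg)
    have h3 := hmsum i hi q hqv
    rw [hc] at h3
    omega
  obtain ⟨q0, hq0⟩ := miss_ne h.st (y 0) (hdeg1 _)
  obtain ⟨N, hN⟩ : ∃ N, d * (n + 1) = 2 * N + 1 := ⟨_, (hmin 0 (Nat.zero_le _) q0 hq0).symm⟩
  have hN2 : d * (n + 1) / 2 = N := by omega
  -- every colour has at least `N` edges in `T`
  have hq : ∀ q : Fin k, N ≤ ((cls (A.erase e) c q).filter (fun g => G.s g ∈ T ∧ G.t g ∈ T)).card := by
    intro q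
    by_cases hm : ∃ i ≤ n, q ∈ G.miss d c (A.erase e) (y i)
    · obtain ⟨i, hi, hqv⟩ := hm
      have h3 := hmin i hi q hqv
      omega
    · push Not at hm
      have hsum := hand_sum (G := G) (cls (A.erase e) c q) T
      have hdgq : ∀ v, G.deg (cls (A.erase e) c q) v = G.dg c (A.erase e) q v := fun _ => rfl
      have h3 : ∑ u ∈ T, G.deg (cls (A.erase e) c q) u = d * T.card := by
        have h4 : ∑ u ∈ T, G.deg (cls (A.erase e) c q) u = ∑ u ∈ T, d := by
          refine Finset.sum_congr rfl fun u hu => ?_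
          rw [hdgq]
          by_contra hne
          obtain ⟨j, hj, rfl⟩ := mem_tv.1 hu
          exact hm j hj (miss_iff.2 (lt_of_le_of_ne (h.st.val q _) hne))
        rw [h4, Finset.sum_const, smul_eq_mul, mul_comm]
      rw [hc] at h3
      have h5 : ((cls (A.erase e) c q).filter (fun g => ¬ (G.s g ∈ T ↔ G.t g ∈ T))).card ≤ 1 := by
        by_contra hlt
        obtain ⟨g1, hg1, g2, hg2, h12⟩ := Finset.one_lt_card.1 (not_le.1 hlt)
        rw [Finset.mem_filter] at hg1 hg2
        exact hcon (tt_exit hs hdeg hns h hclo hm h12 hg1.1 hg2.1 hg1.2 hg2.2)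
      omega
  -- counting
  have hin : (A.filter (fun g => G.s g ∈ T ∧ G.t g ∈ T)).card =
      ((A.erase e).filter (fun g => G.s g ∈ T ∧ G.t g ∈ T)).card + 1 := by
    have h1 : e ∈ A.filter (fun g => G.s g ∈ T ∧ G.t g ∈ T) := by
      refine Finset.mem_filter.2 ⟨h.st.mem, ?_⟩
      rcases h.st.jn with ⟨h2, h3⟩ | ⟨h2, h3⟩
      · rw [h2, h3]
        exact ⟨hmT 0 (Nat.zero_le _), hmT 1 h.pos⟩
      · rw [h2, h3]
        exact ⟨hmT 1 h.pos, hmT 0 (Nat.zero_le _)⟩
    rw [← Finset.card_erase_add_one h1, ← Finset.filter_erase]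
  have hcol : ((A.erase e).filter (fun g => G.s g ∈ T ∧ G.t g ∈ T)).card =
      ∑ q : Fin k, ((cls (A.erase e) c q).filter (fun g => G.s g ∈ T ∧ G.t g ∈ T)).card := by
    rw [Finset.card_eq_sum_card_fiberwise (f := c) (s := (A.erase e).filter (fun g => G.s g ∈ T ∧ G.t g ∈ T))
      (t := Finset.univ) (fun _ _ => Finset.mem_coe.2 (Finset.mem_univ _))]
    refine Finset.sum_congr rfl fun q _ => ?_
    unfold cls
    rw [Finset.filter_comm]
  have hge : k * N ≤ ∑ q : Fin k, ((cls (A.erase e) c q).filter (fun g => G.s g ∈ T ∧ G.t g ∈ T)).card := by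
    calc k * N = ∑ q : Fin k, N := by rw [Finset.sum_const, Finset.card_univ, Fintype.card_fin, smul_eq_mul]
      _ ≤ _ := Finset.sum_le_sum fun q _ => hq q
  have hle := hden T (by rw [hc]; omega)
  rw [hc, hN2] at hle
  omega

theorem tt_count {V E : Type} [Fintype V] [Fintype E] {G : MG V E} {k d s : ℕ} {A : Finset E} {e : E} {c : E → Fin k}
    {y : ℕ → V} {g : ℕ → E} (hs : 1 ≤ s) (hdeg : ∀ v, G.deg A v + s ≤ k * d) (h : Tt G d A e c (s + 1) y g) :
    (s + 1) ^ 2 + 1 ≤ k := by
  have hEl := tt_el hs hdeg (s + 1) le_rfl c h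
  have hi : ∀ i ≤ s + 1, (G.miss d c (A.erase e) (y i)).card + G.deg (A.erase e) (y i) = k * d :=
    fun i hi => miss_card h.st.val (hEl.1 i hi)
  have h0 : s + 1 ≤ (G.miss d c (A.erase e) (y 0)).card := by
    have h1 := hi 0 (by omega)
    have h2 := count_deg_erase_of h.st.mem (v := y 0) ((count_joins_inc h.st.jn).2 (Or.inl rfl))
    have h3 := hdeg (y 0)
    omega
  have h1 : s + 1 ≤ (G.miss d c (A.erase e) (y 1)).card := by
    have h1 := hi 1 (by omega)
    have h2 := count_deg_erase_of h.st.mem (v := y 1) ((count_joins_inc h.st.jn).2 (Or.inr rfl))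
    have h3 := hdeg (y 1)
    omega
  have hs2 : ∀ i ≤ s + 1, s ≤ (G.miss d c (A.erase e) (y i)).card := by
    intro i hi'
    have h1 := hi i hi'
    have h3 := hdeg (y i)
    have h4 : G.deg (A.erase e) (y i) ≤ G.deg A (y i) :=
      Finset.card_le_card (Finset.filter_subset_filter _ (Finset.erase_subset _ _))
    omega
  have hsum : ∑ i ∈ Finset.range (s + 2), (G.miss d c (A.erase e) (y i)).card ≤ k := by
    rw [← Finset.card_biUnion]
    · refine (Finset.card_le_univ _).trans (le_of_eq ?_)
      exact Fintype.card_fin k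
    · intro i hi j hj hij
      have hi' := Finset.mem_range.1 hi
      have hj' := Finset.mem_range.1 hj
      refine Finset.disjoint_left.2 fun q hq1 hq2 => ?_
      exact hEl.2 i (by omega) j (by omega) hij q hq1 hq2
  rw [Finset.sum_range_succ', Finset.sum_range_succ'] at hsum
  have h5 : s * s ≤ ∑ i ∈ Finset.range s, (G.miss d c (A.erase e) (y (i + 1 + 1))).card := by
    calc s * s = ∑ i ∈ Finset.range s, s := by rw [Finset.sum_const, Finset.card_range, smul_eq_mul]
      _ ≤ _ := Finset.sum_le_sum fun i hi => hs2 _ (by have := Finset.mem_range.1 hi; omega)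
  have h6 : (s + 1) ^ 2 = s * s + 2 * s + 1 := by ring
  simp only [zero_add] at hsum
  omega

theorem colour_sqrt {V E : Type} [Fintype V] [Fintype E] (G : MG V E) (d k s : ℕ)
    (hs1 : 1 ≤ s) (hs : k ≤ (s + 1) ^ 2) (hdeg : ∀ v, G.deg Finset.univ v + s ≤ k * d)
    (hden : ∀ X : Finset V, X.card ≤ s + 1 →
      (Finset.univ.filter (fun g : E => G.s g ∈ X ∧ G.t g ∈ X)).card ≤ k * (d * X.card / 2)) :
    G.Colourable d k Finset.univ := by
  by_contra hcon
  obtain ⟨A, hA, hmin⟩ := fin_min G d k _ Finset.univ rfl hcon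
  have hdegA : ∀ v, G.deg A v + s ≤ k * d := fun v =>
    (Nat.add_le_add_right (fin_deg_mono G A v) s).trans (hdeg v)
  have hne : A.Nonempty := by
    rw [Finset.nonempty_iff_ne_empty]
    rintro rfl
    exact hA (fin_empty G d k (fun v => by have := hdeg v; omega))
  obtain ⟨e0, he0⟩ := hne
  obtain ⟨c0, hc0⟩ := hmin e0 he0
  have hst0 : G.St d A e0 c0 (G.s e0) (G.t e0) := ⟨hA, he0, Or.inl ⟨rfl, rfl⟩, hc0⟩
  have hdenA : ∀ X : Finset V, X.card ≤ s + 1 →
      (A.filter (fun g : E => G.s g ∈ X ∧ G.t g ∈ X)).card ≤ k * (d * X.card / 2) := fun X hX =>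
    (Finset.card_le_card (Finset.filter_subset_filter _ (Finset.subset_univ A))).trans (hden X hX)
  have hex : ∀ n, n ≤ s → ∃ (c : E → Fin k) (y : ℕ → V) (g : ℕ → E), Tt G d A e0 c (n + 1) y g := by
    intro n
    induction n with
    | zero =>
      intro _
      refine ⟨c0, fun i => if i = 0 then G.s e0 else G.t e0, fun _ => e0, ⟨le_rfl, ?_, ?_, ?_, ?_, ?_⟩⟩
      · simpa using hst0
      · intro i hi j hj hij
        have hne := G.ne e0
        rcases Nat.eq_zero_or_pos i with h1 | h1
        · rcases Nat.eq_zero_or_pos j with h2 | h2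
          · rw [h1, h2]
          · exfalso
            simp only [h1, if_true, if_neg (Nat.pos_iff_ne_zero.1 h2)] at hij
            exact hne hij
        · rcases Nat.eq_zero_or_pos j with h2 | h2
          · exfalso
            simp only [h2, if_true, if_neg (Nat.pos_iff_ne_zero.1 h1)] at hij
            exact hne hij.symm
          · omega
      · intro i h1 h2
        omega
      · intro i h1 h2
        omega
      · intro i h1 h2
        omega
    | succ n ih =>
      intro hn
      obtain ⟨c, y, g, h⟩ := ih (by omega)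
      exact tt_grow hs1 hdegA hn hdenA h
  obtain ⟨c, y, g, h⟩ := hex s le_rfl
  have h1 := tt_count hs1 hdegA h
  omega

theorem matrix_sqrt (d n : ℕ) (m : Fin n → Fin n → ℕ) (hsym : ∀ i j, m i j = m j i) (h0 : ∀ i, m i i = 0) (k s : ℕ)
    (hs1 : 1 ≤ s) (hs : k ≤ (s + 1) ^ 2) (hdeg : ∀ v : Fin n, (∑ u, m v u) + s ≤ k * d)
    (hden : ∀ X : Finset (Fin n), X.card ≤ s + 1 → (∑ i ∈ X, ∑ j ∈ X, m i j) ≤ 2 * (k * (d * X.card / 2))) :
    ∃ c : Fin n → Fin n → Fin k → ℕ,
      (∀ i j a, c i j a = c j i a) ∧ (∀ i j, ∑ a, c i j a = m i j) ∧ (∀ v a, ∑ u, c v u a ≤ d) := by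
  have hdg := fin_deg n m hsym h0
  obtain ⟨f, hf⟩ := colour_sqrt (finG n m) d k s hs1 hs (fun v => by rw [hdg v]; exact hdeg v) (by
    intro X hX
    have h1 := hden X hX
    set F : Finset (FinE n m) := Finset.univ.filter (fun g => (finG n m).s g ∈ X ∧ (finG n m).t g ∈ X) with hF
    have hcl : Clo (finG n m) F X := by
      intro g hg
      have h2 := (Finset.mem_filter.1 hg).2
      exact ⟨fun _ => h2.2, fun _ => h2.1⟩
    have h2 := hand_closed hcl
    have h3 : ∑ v ∈ X, (finG n m).deg F v = 2 * F.card := by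
      refine h2.trans ?_
      congr 2
      ext g
      simp only [Finset.mem_filter, and_iff_left_iff_imp]
      intro h
      exact (Finset.mem_filter.1 h).2.1
    have h4 : ∑ v ∈ X, (finG n m).deg F v = ∑ v ∈ X, ∑ u ∈ X, m v u := by
      refine Finset.sum_congr rfl fun v hv => ?_
      rw [num_sum hcl hv]
      refine Finset.sum_congr rfl fun u hu => ?_
      rw [← fin_joins n m hsym h0 v u]
      unfold num
      congr 1
      ext g
      simp only [hF, Finset.mem_filter, Finset.mem_univ, true_and]
      constructor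
      · rintro ⟨_, h5⟩
        exact h5
      · intro h5
        refine ⟨?_, h5⟩
        rcases h5 with ⟨h6, h7⟩ | ⟨h6, h7⟩
        · rw [h6, h7]
          exact ⟨hv, hu⟩
        · rw [h6, h7]
          exact ⟨hu, hv⟩
    rw [h4] at h3
    have h5 : F.card ≤ k * (d * X.card / 2) := by omega
    refine le_trans (le_of_eq ?_) h5
    exact fin_card_inst _ _ _)
  refine ⟨fun i j a => (Finset.univ.filter
    (fun e : FinE n m => (finG n m).joins e i j ∧ f e = a)).card, ?_, ?_, ?_⟩
  · intro i j a
    show (Finset.univ.filter (fun e : FinE n m => (finG n m).joins e i j ∧ f e = a)).card =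
      (Finset.univ.filter (fun e : FinE n m => (finG n m).joins e j i ∧ f e = a)).card
    congr 1
    apply Finset.filter_congr
    intro e _
    rw [fin_joins_symm]
  · intro i j
    show ∑ a, (Finset.univ.filter
      (fun e : FinE n m => (finG n m).joins e i j ∧ f e = a)).card = m i j
    rw [← fin_joins n m hsym h0 i j]
    rw [Finset.card_eq_sum_card_fiberwise (f := f)
      (s := Finset.univ.filter (fun e : FinE n m => (finG n m).joins e i j))
      (t := Finset.univ) (fun _ _ => Finset.mem_coe.2 (Finset.mem_univ _))]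
    apply Finset.sum_congr rfl
    intro a _
    rw [Finset.filter_filter]
  · intro v a
    show ∑ u, (Finset.univ.filter
      (fun e : FinE n m => (finG n m).joins e v u ∧ f e = a)).card ≤ d
    have h1 := hf a v
    unfold MG.dg MG.deg at h1
    rw [fin_count] at h1
    refine le_trans (le_of_eq ?_) h1
    apply Finset.sum_congr rfl
    intro u _
    rw [Finset.filter_filter]
    congr 1
    apply Finset.filter_congr
    intro e _
    exact and_comm

end Pool.Agent.H58.DG
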